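import Mathlib

/-!
# Row D1: large finite groups have large abelian subgroups
-/

set_option autoImplicit false

namespace Pool.Agent.MNV

universe u

namespace Abel

open Subgroup

lemma normal_meets_center {p : ℕ} [Fact p.Prime] {Q : Type u} [Group Q] [Finite Q]
    (hQ : IsPGroup p Q) (N : Subgroup Q) [N.Normal] (hN : N ≠ ⊥) :
    ∃ x ∈ N, x ≠ 1 ∧ x ∈ Subgroup.center Q := by
  have hc : IsPGroup p (ConjAct Q) := hQ.of_equiv ConjAct.toConjAct
  have hp : p ∣ Nat.card N := by
    rcases (hQ.to_subgroup N).card_eq_or_dvd with h | h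
    · exact absurd (Subgroup.card_eq_one.1 h) hN
    · exact h
  have h1 : (1 : N) ∈ MulAction.fixedPoints (ConjAct Q) N := by
    intro g
    exact smul_one g
  obtain ⟨b, hb, hb1⟩ := hc.exists_fixed_point_of_prime_dvd_card_of_fixed_point N hp h1
  refine ⟨b, b.2, ?_, ?_⟩
  · intro h
    apply hb1
    exact Subtype.ext h.symm
  · rw [Subgroup.mem_center_iff]
    intro g
    have := congrArg (Subtype.val) (hb (ConjAct.toConjAct g))
    rw [ConjAct.Subgroup.val_conj_smul, ConjAct.smul_def, ConjAct.ofConjAct_toConjAct] at this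
    rw [mul_inv_eq_iff_eq_mul] at this
    exact this

lemma exists_selfcentralizing {p : ℕ} [Fact p.Prime] {P : Type u} [Group P] [Finite P]
    (hP : IsPGroup p P) : ∃ A : Subgroup P, A.Normal ∧ (∀ x ∈ A, ∀ y ∈ A, x * y = y * x) ∧
      Subgroup.centralizer (A : Set P) ≤ A := by
  let 𝒮 : Set (Subgroup P) := {A | A.Normal ∧ ∀ x ∈ A, ∀ y ∈ A, x * y = y * x}
  have hne : 𝒮.Nonempty := ⟨⊥, inferInstance, by
    intro x hx y hy
    rw [Subgroup.mem_bot] at hx hy
    rw [hx, hy]⟩
  obtain ⟨A, hA⟩ := (Set.toFinite 𝒮).exists_maximal hne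
  obtain ⟨hAn, hAc⟩ := hA.prop
  refine ⟨A, hAn, hAc, ?_⟩
  by_contra hcon
  let N : Subgroup (P ⧸ A) := (Subgroup.centralizer (A : Set P)).map (QuotientGroup.mk' A)
  have hNn : N.Normal := Subgroup.Normal.map inferInstance _ (QuotientGroup.mk'_surjective A)
  have hN : N ≠ ⊥ := by
    intro h
    apply hcon
    intro x hx
    have : QuotientGroup.mk' A x ∈ N := ⟨x, hx, rfl⟩
    rw [h, Subgroup.mem_bot] at this
    exact (QuotientGroup.eq_one_iff x).1 this
  obtain ⟨xb, hxN, hx1, hxc⟩ := normal_meets_center (hP.to_quotient A) N hN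
  obtain ⟨x, hx, rfl⟩ := hxN
  have hxA : x ∉ A := fun h => hx1 ((QuotientGroup.eq_one_iff x).2 h)
  have hzn : (Subgroup.zpowers (QuotientGroup.mk' A x)).Normal := by
    constructor
    intro n hn g
    have hnc : n ∈ Subgroup.center (P ⧸ A) := by
      have : Subgroup.zpowers (QuotientGroup.mk' A x) ≤ Subgroup.center (P ⧸ A) := by
        rw [Subgroup.zpowers_le]; exact hxc
      exact this hn
    rw [Subgroup.mem_center_iff.1 hnc g, mul_inv_cancel_right]
    exact hn
  let B : Subgroup P := (Subgroup.zpowers (QuotientGroup.mk' A x)).comap (QuotientGroup.mk' A)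
  have hBn : B.Normal := Subgroup.Normal.comap hzn _
  have hB : ∀ y ∈ B, ∃ (k : ℤ) (a : P), a ∈ A ∧ y = x ^ k * a := by
    intro y hy
    obtain ⟨k, hk⟩ := Subgroup.mem_zpowers_iff.1 (Subgroup.mem_comap.1 hy)
    refine ⟨k, (x ^ k)⁻¹ * y, ?_, by group⟩
    rw [← map_zpow] at hk
    exact (QuotientGroup.eq (s := A)).1 hk
  have hxa : ∀ a ∈ A, ∀ k : ℤ, x ^ k * a = a * x ^ k := by
    intro a ha k
    have h1 : Commute x a := (Subgroup.mem_centralizer_iff.1 hx a ha).symm
    exact (h1.zpow_left k).eq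
  have hBc : ∀ y ∈ B, ∀ z ∈ B, y * z = z * y := by
    intro y hy z hz
    obtain ⟨k, a, ha, rfl⟩ := hB y hy
    obtain ⟨l, c, hc, rfl⟩ := hB z hz
    calc x ^ k * a * (x ^ l * c) = x ^ k * (a * x ^ l) * c := by group
      _ = x ^ k * (x ^ l * a) * c := by rw [hxa a ha l]
      _ = x ^ k * x ^ l * (a * c) := by group
      _ = x ^ l * x ^ k * (c * a) := by rw [hAc a ha c hc, ← zpow_add, ← zpow_add, add_comm]
      _ = x ^ l * (x ^ k * c) * a := by group
      _ = x ^ l * (c * x ^ k) * a := by rw [hxa c hc k]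
      _ = x ^ l * c * (x ^ k * a) := by group
  have hAB : A ≤ B := by
    intro a ha
    have : QuotientGroup.mk' A a = 1 := (QuotientGroup.eq_one_iff a).2 ha
    show QuotientGroup.mk' A a ∈ Subgroup.zpowers (QuotientGroup.mk' A x)
    rw [this]; exact Subgroup.one_mem _
  have hxB : x ∈ B := Subgroup.mem_zpowers _
  exact hxA (hA.le_of_ge ⟨hBn, hBc⟩ hAB hxB)

lemma pgroup_bound {p : ℕ} [Fact p.Prime] {P : Type u} [Group P] [Finite P]
    (hP : IsPGroup p P) : ∃ A : Subgroup P, (∀ x ∈ A, ∀ y ∈ A, x * y = y * x) ∧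
      Nat.card P ≤ Nat.card A * (Nat.card A).factorial := by
  obtain ⟨A, hAn, hAc, hcent⟩ := exists_selfcentralizing hP
  refine ⟨A, hAc, ?_⟩
  let c : P →* MulAut A := MulAut.conjNormal
  have hker : c.ker ≤ A := by
    intro g hg
    apply hcent
    rw [Subgroup.mem_centralizer_iff]
    intro a ha
    have h1 : c g = 1 := hg
    have h2 := congrArg (fun f : MulAut A => ((f ⟨a, ha⟩ : A) : P)) h1
    simp only [c, MulAut.conjNormal_apply, MulAut.one_apply] at h2
    rw [mul_inv_eq_iff_eq_mul] at h2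
    exact h2.symm
  have h1 : Nat.card P = Nat.card (P ⧸ c.ker) * Nat.card c.ker :=
    Subgroup.card_eq_card_quotient_mul_card_subgroup _
  have h2 : Nat.card (P ⧸ c.ker) ≤ (Nat.card A).factorial := by
    rw [← Nat.card_perm]
    have hinj : Function.Injective (fun q : P ⧸ c.ker =>
        ((QuotientGroup.kerLift c q : MulAut A).toEquiv : Equiv.Perm A)) := by
      intro q r hqr
      apply QuotientGroup.kerLift_injective c
      exact MulEquiv.toEquiv_injective hqr
    exact Nat.card_le_card_of_injective _ hinj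
  have h3 : Nat.card c.ker ≤ Nat.card A := Subgroup.card_le_of_le hker
  rw [h1, mul_comm]
  exact Nat.mul_le_mul h3 h2

end Abel

open Abel in
/-- `Abel.lean`: large finite groups have large abelian subgroups -/
theorem large_abelian (b : ℕ) : ∃ N : ℕ, ∀ (G : Type u) [Group G] [Finite G], N ≤ Nat.card G →
    ∃ H : Subgroup G, b ≤ Nat.card H ∧ ∀ x ∈ H, ∀ y ∈ H, x * y = y * x := by
  refine ⟨(b * b.factorial) ^ b + 1, ?_⟩
  intro G _ _ hG
  by_contra hcon
  push Not at hcon
  have hab : ∀ H : Subgroup G, (∀ x ∈ H, ∀ y ∈ H, x * y = y * x) → Nat.card H < b := by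
    intro H hH
    by_contra h
    rw [not_lt] at h
    obtain ⟨x, hx, y, hy, hxy⟩ := hcon H h
    exact hxy (hH x hx y hy)
  have hprime : ∀ p ∈ (Nat.card G).primeFactors, p < b := by
    intro p hp
    have hpp : p.Prime := Nat.prime_of_mem_primeFactors hp
    have := Fact.mk hpp
    obtain ⟨x, hx⟩ := exists_prime_orderOf_dvd_card' p (Nat.dvd_of_mem_primeFactors hp)
    have := hab (Subgroup.zpowers x) (by
      rintro _ ⟨i, rfl⟩ _ ⟨j, rfl⟩
      show x ^ i * x ^ j = x ^ j * x ^ i
      rw [← zpow_add, ← zpow_add, add_comm])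
    rw [Nat.card_zpowers, hx] at this
    exact this
  have hsyl : ∀ p ∈ (Nat.card G).primeFactors,
      p ^ (Nat.card G).factorization p ≤ b * b.factorial := by
    intro p hp
    have hpp : p.Prime := Nat.prime_of_mem_primeFactors hp
    have := Fact.mk hpp
    let P : Sylow p G := default
    rw [← P.card_eq_multiplicity]
    obtain ⟨A, hA, hcard⟩ := pgroup_bound P.isPGroup'
    have hlt : Nat.card A < b := by
      have h1 := hab (A.map (P : Subgroup G).subtype) (by
        rintro _ ⟨x, hx, rfl⟩ _ ⟨y, hy, rfl⟩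
        rw [← map_mul, ← map_mul, hA x hx y hy])
      rwa [Subgroup.card_map_of_injective (Subgroup.subtype_injective _)] at h1
    exact hcard.trans (Nat.mul_le_mul hlt.le (Nat.factorial_le hlt.le))
  have hcard : Nat.card G ≤ (b * b.factorial) ^ b := by
    have h0 : Nat.card G ≠ 0 := Nat.card_pos.ne'
    conv_lhs => rw [← Nat.prod_factorization_pow_eq_self h0]
    rw [Finsupp.prod, Nat.support_factorization]
    calc ∏ p ∈ (Nat.card G).primeFactors, p ^ (Nat.card G).factorization p
        ≤ ∏ _p ∈ (Nat.card G).primeFactors, (b * b.factorial) :=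
          Finset.prod_le_prod' hsyl
      _ = (b * b.factorial) ^ (Nat.card G).primeFactors.card := by rw [Finset.prod_const]
      _ ≤ (b * b.factorial) ^ b := by
          have hc : (Nat.card G).primeFactors.card ≤ b := by
            have : (Nat.card G).primeFactors ⊆ Finset.range b := fun p hp =>
              Finset.mem_range.2 (hprime p hp)
            simpa using Finset.card_le_card this
          have hb : 0 < b := by
            have := hab ⊥ (by
              intro x hx y hy
              rw [Subgroup.mem_bot] at hx hy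
              rw [hx, hy])
            omega
          exact Nat.pow_le_pow_right (Nat.mul_pos hb (Nat.factorial_pos b)) hc
  omega

end Pool.Agent.MNV
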