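import Mathlib

/-!
# Minimal nonelementary inclusive varieties: common definitions
-/

set_option autoImplicit false

namespace Pool.Agent.MNV

universe u v

/-- A (possibly infinite) disjunction of identities over the countable alphabet `ℕ`: a nonempty set
of pairs of words. The identical inclusion `u ∈̂ V` is the case `{(u, v) | v ∈ V}`. -/
structure DisjId where
  /-- the pairs `(u, v)`, read as the disjunction of the equalities `u = v` -/
  pairs : Set (FreeSemigroup ℕ × FreeSemigroup ℕ)
  nonempty : pairs.Nonempty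

/-- `S` satisfies `⋁ u = v`: every homomorphism `φ : X⁺ → S` has `φ u = φ v` for some pair. -/
def Satisfies (S : Type u) [Semigroup S] (σ : DisjId) : Prop :=
  ∀ φ : FreeSemigroup ℕ →ₙ* S, ∃ p ∈ σ.pairs, φ p.1 = φ p.2

/-- The class of all (nonempty) semigroups satisfying every member of `Γ`. -/
def Models (Γ : Set DisjId) : Set Semigrp.{u} :=
  {S | Nonempty S ∧ ∀ σ ∈ Γ, Satisfies S σ}

/-- Inclusive varieties: classes defined by (infinite) disjunctions of identities. -/
def IsInclusiveVariety (M : Set Semigrp.{u}) : Prop :=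
  ∃ Γ : Set DisjId, M = Models Γ

/-- Elementary: defined by some set of finite disjunctions of identities. -/
def IsElementary (M : Set Semigrp.{u}) : Prop :=
  ∃ Γ : Set DisjId, (∀ σ ∈ Γ, σ.pairs.Finite) ∧ M = Models Γ

/-- `M` is a minimal nonelementary inclusive variety of semigroups. -/
def IsMinimalNonelementary (M : Set Semigrp.{u}) : Prop :=
  IsInclusiveVariety M ∧ ¬ IsElementary M ∧
    ∀ N : Set Semigrp.{u}, IsInclusiveVariety N → N ⊂ M → IsElementary N

/-! ## The seven families -/

/-- finite null semigroups: all products are equal -/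
def FinNull : Set Semigrp.{u} := {S | Nonempty S ∧ Finite S ∧ ∀ a b c d : S, a * b = c * d}

/-- finite left zero semigroups -/
def FinLeft : Set Semigrp.{u} := {S | Nonempty S ∧ Finite S ∧ ∀ a b : S, a * b = a}

/-- finite right zero semigroups -/
def FinRight : Set Semigrp.{u} := {S | Nonempty S ∧ Finite S ∧ ∀ a b : S, a * b = b}

/-- finite chains (linearly ordered semilattices) -/
def FinChain : Set Semigrp.{u} :=
  {S | Nonempty S ∧ Finite S ∧ (∀ a b : S, a * b = b * a) ∧ ∀ a b : S, a * b = a ∨ a * b = b}

/-- finite flat semilattices: the product of two different elements is the zero -/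
def FinFlat : Set Semigrp.{u} :=
  {S | Nonempty S ∧ Finite S ∧ (∀ a : S, a * a = a) ∧ (∀ a b : S, a * b = b * a) ∧
    ∀ a b c : S, a ≠ b → a * b * c = a * b}

/-- cyclic `p`-groups -/
def CycP (p : ℕ) : Set Semigrp.{u} :=
  {S | ∃ n : ℕ, Nonempty (S ≃* Multiplicative (ZMod (p ^ n)))}

/-- finite elementary abelian `p`-groups -/
def ElemP (p : ℕ) : Set Semigrp.{u} :=
  {S | ∃ n : ℕ, Nonempty (S ≃* Multiplicative (Fin n → ZMod p))}

/-! ## Tools -/

/-- `T` divides `S`: it is a homomorphic image of a subsemigroup of `S` -/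
def Divides (T : Type u) (S : Type v) [Semigroup T] [Semigroup S] : Prop :=
  ∃ U : Subsemigroup S, ∃ f : U →ₙ* T, Function.Surjective f

/-- `I` is an ideal of the subsemigroup `U` (as a set of elements of `S`, possibly empty) -/
def IsIdealOf {S : Type u} [Semigroup S] (U : Subsemigroup S) (I : Set S) : Prop :=
  ∀ x ∈ I, ∀ y ∈ U, x * y ∈ I ∧ y * x ∈ I

section div

variable (n : ℕ) (S : Type u) [Semigroup S]

/-- large null divisor -/
def DivNull : Prop := ∃ (U : Subsemigroup S) (I : Set S) (t : Fin n → S), IsIdealOf U I ∧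
  Function.Injective t ∧ (∀ i, t i ∈ U) ∧ (∀ i, t i ∉ I) ∧ ∀ i j, t i * t j ∈ I

/-- large left zero subsemigroup -/
def DivLeft : Prop := ∃ t : Fin n → S, Function.Injective t ∧ ∀ i j, t i * t j = t i

/-- large right zero subsemigroup -/
def DivRight : Prop := ∃ t : Fin n → S, Function.Injective t ∧ ∀ i j, t i * t j = t j

/-- large chain -/
def DivChain : Prop := ∃ t : Fin n → S, Function.Injective t ∧ ∀ i j, t i * t j = t (max i j)

/-- large flat divisor -/
def DivFlat : Prop := ∃ (U : Subsemigroup S) (I : Set S) (t : Fin n → S), IsIdealOf U I ∧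
  Function.Injective t ∧ (∀ i, t i ∈ U) ∧ (∀ i, t i ∉ I) ∧ (∀ i, t i * t i = t i) ∧
  ∀ i j, i ≠ j → t i * t j ∈ I

/-- the maximal subgroup at `e` -/
def He {S : Type u} [Semigroup S] (e : S) : Set S :=
  {g | e * g = g ∧ g * e = g ∧ ∃ h, e * h = h ∧ h * e = h ∧ g * h = e ∧ h * g = e}

/-- every element has an idempotent power (`npow` without a unit: `x, x * x, ...`) -/
def pw {S : Type u} [Semigroup S] (x : S) : ℕ → S
  | 0 => x
  | (k + 1) => pw x k * x

end div

/-- every element has an idempotent power; `pw x k = x ^ (k + 1)` -/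
def Periodic (S : Type u) [Semigroup S] : Prop :=
  ∀ x : S, ∃ k : ℕ, pw x k * pw x k = pw x k

/-- regular elements -/
def Reg {S : Type u} [Semigroup S] (x : S) : Prop := ∃ y, x * y * x = x

/-- the `J`-preorder: `a ∈ S¹ b S¹` -/
def Jle {S : Type u} [Semigroup S] (a b : S) : Prop :=
  ∃ x y : WithOne S, (a : WithOne S) = x * b * y

end Pool.Agent.MNV
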