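import Mathlib
import Pool.Agent.MNV.Defs

/-!
# Inclusive varieties: closure properties (row A of the MNV project)
-/

set_option autoImplicit false

namespace Pool.Agent.MNV

universe u v w

theorem Divides.trans {R : Type u} {S : Type v} {T : Type w} [Semigroup R] [Semigroup S]
    [Semigroup T] (h1 : Divides R S) (h2 : Divides S T) : Divides R T := by
  obtain ⟨V, g, hg⟩ := h1
  obtain ⟨U, f, hf⟩ := h2
  let W : Subsemigroup T :=
    { carrier := {x | ∃ hx : x ∈ U, f ⟨x, hx⟩ ∈ V}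
      mul_mem' := by
        rintro x y ⟨hx, hx'⟩ ⟨hy, hy'⟩
        refine ⟨U.mul_mem hx hy, ?_⟩
        have h1 : f ⟨x * y, U.mul_mem hx hy⟩ = f ⟨x, hx⟩ * f ⟨y, hy⟩ :=
          map_mul f ⟨x, hx⟩ ⟨y, hy⟩
        rw [h1]
        exact V.mul_mem hx' hy' }
  refine ⟨W, { toFun := fun x => g ⟨f ⟨x.1, x.2.choose⟩, x.2.choose_spec⟩, map_mul' := ?_ }, ?_⟩
  · rintro ⟨x, hx, hx'⟩ ⟨y, hy, hy'⟩
    rw [← map_mul]
    congr 1
    apply Subtype.ext
    exact map_mul f ⟨x, hx⟩ ⟨y, hy⟩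
  · intro r
    obtain ⟨⟨s, hs⟩, rfl⟩ := hg r
    obtain ⟨⟨t, ht⟩, rfl⟩ := hf s
    exact ⟨⟨t, ht, hs⟩, rfl⟩

theorem divides_of_equiv {S : Type u} {T : Type v} [Semigroup S] [Semigroup T] (e : S ≃* T) :
    Divides S T := by
  refine ⟨⊤, (e.symm : T →ₙ* S).comp (MulMemClass.subtype (⊤ : Subsemigroup T)), fun s => ?_⟩
  exact ⟨⟨e s, trivial⟩, e.symm_apply_apply s⟩

theorem divides_sub {S : Type u} [Semigroup S] (U : Subsemigroup S) : Divides U S :=
  ⟨U, MulHom.id U, fun x => ⟨x, rfl⟩⟩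

/-- a quotient -/
theorem divides_of_surjective {S : Type u} {T : Type v} [Semigroup S] [Semigroup T]
    (f : T →ₙ* S) (hf : Function.Surjective f) : Divides S T := by
  refine ⟨⊤, f.comp (MulMemClass.subtype (⊤ : Subsemigroup T)), fun s => ?_⟩
  obtain ⟨t, rfl⟩ := hf s
  exact ⟨⟨t, trivial⟩, rfl⟩

/-- comparison of kernels -/
theorem divides_of_ker {S : Type u} {T : Type v} [Semigroup S] [Semigroup T]
    (φ : FreeSemigroup ℕ →ₙ* S) (hφ : Function.Surjective φ) (ψ : FreeSemigroup ℕ →ₙ* T)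
    (h : ∀ a b, ψ a = ψ b → φ a = φ b) : Divides S T := by
  refine ⟨ψ.srange, { toFun := fun x => φ (MulHom.mem_srange.1 x.2).choose, map_mul' := ?_ }, ?_⟩
  · rintro ⟨x, hx⟩ ⟨y, hy⟩
    rw [← map_mul]
    apply h
    rw [map_mul, (MulHom.mem_srange.1 hx).choose_spec, (MulHom.mem_srange.1 hy).choose_spec]
    exact (MulHom.mem_srange.1 (ψ.srange.mul_mem hx hy)).choose_spec
  · intro s
    obtain ⟨a, rfl⟩ := hφ s
    refine ⟨⟨ψ a, MulHom.mem_srange.2 ⟨a, rfl⟩⟩, ?_⟩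
    apply h
    exact (MulHom.mem_srange.1 (MulHom.mem_srange.2 ⟨a, rfl⟩ : ψ a ∈ ψ.srange)).choose_spec

/-- criterion -/
theorem mem_of_forall {M : Set Semigrp.{u}} (hM : IsInclusiveVariety M) {S : Semigrp.{u}}
    (hS : Nonempty S) (h : ∀ φ : FreeSemigroup ℕ →ₙ* S, ∃ T ∈ M, ∃ ψ : FreeSemigroup ℕ →ₙ* T,
      ∀ a b, ψ a = ψ b → φ a = φ b) : S ∈ M := by
  obtain ⟨Γ, rfl⟩ := hM
  refine ⟨hS, fun σ hσ φ => ?_⟩
  obtain ⟨T, hT, ψ, hψ⟩ := h φ
  obtain ⟨p, hp, he⟩ := hT.2 σ hσ ψ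
  exact ⟨p, hp, hψ _ _ he⟩

theorem mem_of_divides {M : Set Semigrp.{u}} (hM : IsInclusiveVariety M) {S T : Semigrp.{u}}
    (hS : S ∈ M) (hT : Nonempty T) (h : Divides T S) : T ∈ M := by
  obtain ⟨U, f, hf⟩ := h
  refine mem_of_forall hM hT fun φ => ⟨S, hS, ?_⟩
  let r : ℕ → U := fun n => Function.surjInv hf (φ (FreeSemigroup.of n))
  let ψ : FreeSemigroup ℕ →ₙ* U := FreeSemigroup.lift r
  have hfψ : f.comp ψ = φ := by
    apply FreeSemigroup.hom_ext
    funext n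
    simp only [MulHom.coe_comp, Function.comp_apply]
    have h1 : ψ (FreeSemigroup.of n) = r n := by simp [ψ]
    rw [h1]
    exact Function.surjInv_eq hf _
  refine ⟨(MulMemClass.subtype U).comp ψ, fun a b hab => ?_⟩
  have h2 : ψ a = ψ b := Subtype.ext hab
  rw [← hfψ]
  exact congrArg f h2

theorem mem_trivial {M : Set Semigrp.{u}} (hM : IsInclusiveVariety M) {S : Semigrp.{u}}
    (hS : Nonempty S) (h : ∀ a b : S, a = b) : S ∈ M := by
  obtain ⟨Γ, rfl⟩ := hM
  refine ⟨hS, fun σ _ φ => ?_⟩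
  obtain ⟨p, hp⟩ := σ.nonempty
  exact ⟨p, hp, h _ _⟩

/-- the disjunction which says that the semigroup is finite -/
def finId : DisjId where
  pairs := {p | ∃ i j : ℕ, i < j ∧ p = (FreeSemigroup.of i, FreeSemigroup.of j)}
  nonempty := ⟨_, 0, 1, Nat.zero_lt_one, rfl⟩

theorem satisfies_finId {S : Type u} [Semigroup S] : Satisfies S finId ↔ Finite S := by
  constructor
  · intro h
    by_contra hinf
    rw [not_finite_iff_infinite] at hinf
    obtain ⟨p, ⟨i, j, hij, rfl⟩, he⟩ := h (FreeSemigroup.lift (Infinite.natEmbedding S))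
    simp only [FreeSemigroup.lift_of] at he
    exact hij.ne ((Infinite.natEmbedding S).injective he)
  · intro hfin φ
    obtain ⟨i, j, hij, he⟩ := Finite.exists_ne_map_eq_of_infinite
      (fun n : ℕ => φ (FreeSemigroup.of n))
    rcases lt_or_gt_of_ne hij with h | h
    · exact ⟨_, ⟨i, j, h, rfl⟩, he⟩
    · exact ⟨_, ⟨j, i, h, rfl⟩, he.symm⟩

/-- a countable semigroup is an image of the free semigroup -/
theorem exists_surjective {S : Type u} [Semigroup S] [Nonempty S] [Countable S] :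
    ∃ φ : FreeSemigroup ℕ →ₙ* S, Function.Surjective φ := by
  obtain ⟨g, hg⟩ := exists_surjective_nat S
  refine ⟨FreeSemigroup.lift g, fun s => ?_⟩
  obtain ⟨n, rfl⟩ := hg s
  exact ⟨FreeSemigroup.of n, by simp⟩

/-- a class of finite semigroups closed under division is an inclusive variety -/
theorem inclusive_of_closed {F : Set Semigrp.{u}} (hne : F.Nonempty)
    (hfin : ∀ S ∈ F, Nonempty S ∧ Finite S)
    (hcl : ∀ S ∈ F, ∀ T : Semigrp.{u}, Nonempty T → Divides T S → T ∈ F) :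
    IsInclusiveVariety F := by
  refine ⟨{σ | ∀ S ∈ F, Satisfies S σ}, Set.Subset.antisymm ?_ ?_⟩
  · intro S hS
    exact ⟨(hfin S hS).1, fun σ hσ => hσ S hS⟩
  · rintro S ⟨hSn, hS⟩
    have hSf : Finite S := satisfies_finId.1 (hS finId fun T hT =>
      satisfies_finId.2 (hfin T hT).2)
    obtain ⟨φ, hφ⟩ := exists_surjective (S := S)
    by_cases hemp : ({p : FreeSemigroup ℕ × FreeSemigroup ℕ | φ p.1 ≠ φ p.2}).Nonempty
    · have h1 : ¬ Satisfies S ⟨_, hemp⟩ := by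
        intro h
        obtain ⟨p, hp, he⟩ := h φ
        exact hp he
      have h2 : ∃ T ∈ F, ¬ Satisfies T ⟨_, hemp⟩ := by
        by_contra hcon
        push Not at hcon
        exact h1 (hS _ hcon)
      obtain ⟨T, hT, hTs⟩ := h2
      unfold Satisfies at hTs
      push Not at hTs
      obtain ⟨ψ, hψ⟩ := hTs
      refine hcl T hT S hSn (divides_of_ker φ hφ ψ fun a b hab => ?_)
      by_contra hne'
      exact hψ (a, b) hne' hab
    · obtain ⟨T, hT⟩ := hne
      have htriv : ∀ a b : S, a = b := by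
        intro a b
        obtain ⟨x, rfl⟩ := hφ a
        obtain ⟨y, rfl⟩ := hφ b
        by_contra hab
        exact hemp ⟨(x, y), hab⟩
      obtain ⟨s⟩ := hSn
      have hTn := (hfin T hT).1
      refine hcl T hT S ⟨s⟩ (divides_of_surjective
        { toFun := fun _ => s, map_mul' := fun _ _ => htriv _ _ } fun a => ?_)
      obtain ⟨t⟩ := hTn
      exact ⟨t, htriv _ _⟩

/-- all members of an inclusive variety are nonempty -/
theorem nonempty_of_mem {M : Set Semigrp.{u}} (hM : IsInclusiveVariety M) {S : Semigrp.{u}}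
    (hS : S ∈ M) : Nonempty S := by
  obtain ⟨Γ, rfl⟩ := hM
  exact hS.1

end Pool.Agent.MNV
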