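import Mathlib
import Pool.Agent.MNV.Defs

/-!
# Bounded inclusive varieties are elementary
-/

set_option autoImplicit false

namespace Pool.Agent.MNV

universe u v w

namespace BoundedAux

/-- criterion -/
theorem mem_aux {M : Set Semigrp.{u}} (hM : IsInclusiveVariety M) {S : Semigrp.{u}}
    (hS : Nonempty S) (h : ∀ φ : FreeSemigroup ℕ →ₙ* S, ∃ T ∈ M, ∃ ψ : FreeSemigroup ℕ →ₙ* T,
      ∀ a b, ψ a = ψ b → φ a = φ b) : S ∈ M := by
  obtain ⟨Γ, rfl⟩ := hM
  refine ⟨hS, fun σ hσ φ => ?_⟩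
  obtain ⟨T, hT, ψ, hψ⟩ := h φ
  obtain ⟨p, hp, hpe⟩ := hT.2 σ hσ ψ
  exact ⟨p, hp, hψ _ _ hpe⟩

/-- value of a word in a finite magma on `Fin m` -/
def ev {k m : ℕ} (mul : Fin m → Fin m → Fin m) (l : Fin k → Fin m)
    (w : FreeSemigroup (Fin k)) : Fin m :=
  w.tail.foldl (fun a x => mul a (l x)) (l w.head)

/-- indices of the finite magmas with at most `b` elements and `k` marked elements -/
abbrev Idx (b k : ℕ) : Type :=
  Σ m : Fin (b + 1), (Fin m → Fin m → Fin m) × (Fin k → Fin m)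

theorem hom_eq_foldl {α : Type v} {T : Type u} [Semigroup T] (ψ : FreeSemigroup α →ₙ* T)
    (w : FreeSemigroup α) :
    ψ w = w.tail.foldl (fun a x => a * ψ (FreeSemigroup.of x)) (ψ (FreeSemigroup.of w.head)) := by
  have h : FreeSemigroup.lift (fun x => ψ (FreeSemigroup.of x)) = ψ := by
    ext x
    simp
  have h2 := congrArg (fun F : FreeSemigroup α →ₙ* T => F w) h
  exact h2.symm

theorem exists_index {b k : ℕ} {T : Type u} [Semigroup T] (hf : Finite T) (hc : Nat.card T ≤ b)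
    (ψ : FreeSemigroup (Fin k) →ₙ* T) :
    ∃ i : Idx b k, ∀ a c, ψ a = ψ c ↔ ev i.2.1 i.2.2 a = ev i.2.1 i.2.2 c := by
  classical
  let e : T ≃ Fin (Nat.card T) := Finite.equivFin T
  let mul : Fin (Nat.card T) → Fin (Nat.card T) → Fin (Nat.card T) :=
    fun x y => e (e.symm x * e.symm y)
  let l : Fin k → Fin (Nat.card T) := fun x => e (ψ (FreeSemigroup.of x))
  have key : ∀ w : FreeSemigroup (Fin k), ev mul l w = e (ψ w) := by
    intro w
    rw [hom_eq_foldl ψ w]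
    unfold ev
    exact List.foldl_hom e (by intro x y; simp [mul, l])
  refine ⟨⟨⟨Nat.card T, Nat.lt_succ_of_le hc⟩, mul, l⟩, fun a c => ?_⟩
  change ψ a = ψ c ↔ ev mul l a = ev mul l c
  rw [key, key]
  exact e.injective.eq_iff.symm

theorem trivial_mem {M : Set Semigrp.{u}} (hM : IsInclusiveVariety M) :
    ∃ S ∈ M, Nonempty S := by
  obtain ⟨Γ, rfl⟩ := hM
  refine ⟨Semigrp.of PUnit, ⟨⟨PUnit.unit⟩, fun σ _ φ => ?_⟩, ⟨PUnit.unit⟩⟩
  obtain ⟨p, hp⟩ := σ.nonempty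
  exact ⟨p, hp, rfl⟩

theorem card_le {M : Set Semigrp.{u}} {b : ℕ} (hb : 1 ≤ b)
    (h : ∀ S ∈ M, Finite S ∧ Nat.card S ≤ b) (S : Type u) [Semigroup S]
    (hS : ∀ σ : DisjId, σ.pairs.Finite → (∀ T ∈ M, Satisfies T σ) → Satisfies S σ) :
    Finite S ∧ Nat.card S ≤ b := by
  classical
  by_contra hcon
  have hemb : ∃ f : Fin (b + 1) → S, Function.Injective f := by
    by_cases hfin : Finite S
    · have hlt : b + 1 ≤ Nat.card S := by
        by_contra hlt
        exact hcon ⟨hfin, by omega⟩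
      exact ⟨fun i => (Finite.equivFin S).symm (Fin.castLE hlt i),
        (Finite.equivFin S).symm.injective.comp (Fin.castLE_injective hlt)⟩
    · have : Infinite S := not_finite_iff_infinite.mp hfin
      exact ⟨fun i => Infinite.natEmbedding S i.val,
        (Infinite.natEmbedding S).injective.comp Fin.val_injective⟩
  obtain ⟨f, hf⟩ := hemb
  let P : Set (FreeSemigroup ℕ × FreeSemigroup ℕ) :=
    {p | ∃ i j : Fin (b + 1), i ≠ j ∧
      p = (FreeSemigroup.of (i : ℕ), FreeSemigroup.of (j : ℕ))}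
  have hP : P.Nonempty :=
    ⟨_, ⟨0, by omega⟩, ⟨1, by omega⟩, by simp [Fin.ext_iff], rfl⟩
  have hPf : P.Finite := by
    refine Set.Finite.subset (Set.finite_range (fun q : Fin (b + 1) × Fin (b + 1) =>
      ((FreeSemigroup.of (q.1 : ℕ), FreeSemigroup.of (q.2 : ℕ)) :
        FreeSemigroup ℕ × FreeSemigroup ℕ))) ?_
    rintro p ⟨i, j, -, rfl⟩
    exact ⟨(i, j), rfl⟩
  have hsat := hS ⟨P, hP⟩ hPf (by
    intro T hT ψ
    obtain ⟨hTf, hTc⟩ := h T hT
    have := Fintype.ofFinite T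
    obtain ⟨i, j, hij, he⟩ := Fintype.exists_ne_map_eq_of_card_lt
      (fun i : Fin (b + 1) => ψ (FreeSemigroup.of (i : ℕ)))
      (by rw [← Nat.card_eq_fintype_card, Fintype.card_fin]; omega)
    exact ⟨_, ⟨i, j, hij, rfl⟩, he⟩)
  obtain ⟨p, ⟨i, j, hij, rfl⟩, he⟩ := hsat
    (FreeSemigroup.lift (fun n => if hn : n < b + 1 then f ⟨n, hn⟩ else f 0))
  simp only [FreeSemigroup.lift_of, Fin.is_lt, dif_pos, Fin.eta] at he
  exact hij (hf he)

end BoundedAux

open BoundedAux in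
theorem elementary_of_bounded {M : Set Semigrp.{u}} (hM : IsInclusiveVariety M) (b : ℕ)
    (h : ∀ S ∈ M, Finite S ∧ Nat.card S ≤ b) : IsElementary M := by
  classical
  refine ⟨{σ | σ.pairs.Finite ∧ ∀ T ∈ M, Satisfies T σ}, fun σ hσ => hσ.1, ?_⟩
  obtain ⟨T₀, hT₀, hT₀n⟩ := trivial_mem hM
  have hb : 1 ≤ b := by
    obtain ⟨hf, hc⟩ := h T₀ hT₀
    have : 0 < Nat.card T₀ := Nat.card_pos
    omega
  apply Set.Subset.antisymm
  · intro T hT
    refine ⟨?_, fun σ hσ => hσ.2 T hT⟩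
    obtain ⟨Γ, rfl⟩ := hM
    exact hT.1
  · rintro S ⟨hSn, hS⟩
    obtain ⟨hSf, hSc⟩ := card_le hb h S (fun σ h1 h2 => hS σ ⟨h1, h2⟩)
    refine mem_aux hM hSn (fun φ => ?_)
    by_contra hcon
    push Not at hcon
    let k := Nat.card S
    let e : S ≃ Fin k := Finite.equivFin S
    let r : ℕ → Fin k := fun n => e (φ (FreeSemigroup.of n))
    let φ₀ : FreeSemigroup (Fin k) →ₙ* S := FreeSemigroup.lift (fun x => e.symm x)
    have hφ : ∀ w, φ w = φ₀ (FreeSemigroup.map r w) := by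
      intro w
      have : φ = φ₀.comp (FreeSemigroup.map r) := by
        ext n
        simp [φ₀, r]
      exact congrArg (fun F : FreeSemigroup ℕ →ₙ* S => F w) this
    have hbad : ∀ T ∈ M, ∀ ψ : FreeSemigroup (Fin k) →ₙ* T, ∃ a c, ψ a = ψ c ∧ φ₀ a ≠ φ₀ c := by
      intro T hT ψ
      obtain ⟨a, c, hac, hne⟩ := hcon T hT (ψ.comp (FreeSemigroup.map r))
      exact ⟨FreeSemigroup.map r a, FreeSemigroup.map r c, hac, by rwa [← hφ, ← hφ]⟩
    let good : Idx b k → Prop := fun i =>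
      ∃ p : FreeSemigroup (Fin k) × FreeSemigroup (Fin k),
        ev i.2.1 i.2.2 p.1 = ev i.2.1 i.2.2 p.2 ∧ φ₀ p.1 ≠ φ₀ p.2
    let V : FreeSemigroup (Fin k) →ₙ* FreeSemigroup ℕ := FreeSemigroup.map (fun x => (x : ℕ))
    let P : Set (FreeSemigroup ℕ × FreeSemigroup ℕ) :=
      {q | ∃ i : Idx b k, ∃ hi : good i, q = (V hi.choose.1, V hi.choose.2)}
    have hgood : ∀ T ∈ M, ∀ ψ : FreeSemigroup (Fin k) →ₙ* T, ∃ i : Idx b k, good i ∧
        ∀ a c, ψ a = ψ c ↔ ev i.2.1 i.2.2 a = ev i.2.1 i.2.2 c := by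
      intro T hT ψ
      obtain ⟨i, hi⟩ := exists_index (h T hT).1 (h T hT).2 ψ
      obtain ⟨a, c, hac, hne⟩ := hbad T hT ψ
      exact ⟨i, ⟨(a, c), (hi a c).mp hac, hne⟩, hi⟩
    have hPf : P.Finite := by
      refine Set.Finite.subset (Set.finite_range (fun i : Idx b k =>
        if hi : good i then (V hi.choose.1, V hi.choose.2)
        else (FreeSemigroup.of 0, FreeSemigroup.of 0))) ?_
      rintro q ⟨i, hi, rfl⟩
      exact ⟨i, by simp only [dif_pos hi]⟩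
    have hPn : P.Nonempty := by
      obtain ⟨x₀⟩ := hT₀n
      obtain ⟨i, hi, -⟩ := hgood T₀ hT₀ (FreeSemigroup.lift (fun _ => x₀))
      exact ⟨_, i, hi, rfl⟩
    have hsat := hS ⟨P, hPn⟩ ⟨hPf, by
      intro T hT ψ
      obtain ⟨i, hi, hk⟩ := hgood T hT (ψ.comp V)
      refine ⟨_, ⟨i, hi, rfl⟩, ?_⟩
      exact (hk _ _).mpr hi.choose_spec.1⟩
    obtain ⟨s₀⟩ := hSn
    obtain ⟨q, ⟨i, hi, rfl⟩, he⟩ := hsat
      (FreeSemigroup.lift (fun n => if hn : n < k then e.symm ⟨n, hn⟩ else s₀))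
    apply hi.choose_spec.2
    have hc : (FreeSemigroup.lift (fun n => if hn : n < k then e.symm ⟨n, hn⟩ else s₀)).comp V
        = φ₀ := by
      ext x
      simp [V, φ₀]
    have hc2 : ∀ w, (FreeSemigroup.lift (fun n => if hn : n < k then e.symm ⟨n, hn⟩ else s₀)) (V w)
        = φ₀ w := fun w => congrArg (fun F : FreeSemigroup (Fin k) →ₙ* S => F w) hc
    exact (hc2 _).symm.trans (he.trans (hc2 _))

end Pool.Agent.MNV
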