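import Mathlib
import Pool.Agent.MNV.Defs

/-!
# Ultraproducts over `ℕ` (row U of the MNV project)

An elementary class with finite members of unbounded cardinality has an infinite member.
-/

set_option autoImplicit false

namespace Pool.Agent.MNV

universe u

/-- the ultraproduct congruence: equality for almost all indices -/
private def ultraCon (T : ℕ → Semigrp.{u}) : Con (∀ n, T n) where
  r f g := ∀ᶠ n in (Filter.hyperfilter ℕ : Filter ℕ), f n = g n
  iseqv :=
    { refl := fun f => Filter.Eventually.of_forall fun _ => rfl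
      symm := fun h => h.mono fun _ hn => hn.symm
      trans := fun h₁ h₂ => (h₁.and h₂).mono fun _ hn => hn.1.trans hn.2 }
  mul' := fun {w x y z} h₁ h₂ => (h₁.and h₂).mono fun n hn => by
    show w n * y n = x n * z n
    rw [hn.1, hn.2]

private theorem ultra_satisfies (T : ℕ → Semigrp.{u}) (σ : DisjId) (hσ : σ.pairs.Finite)
    (h : ∀ n, Satisfies (T n) σ) : Satisfies (ultraCon T).Quotient σ := by
  intro φ
  -- lift of `φ` to the product
  let r : ℕ → ∀ n, T n := fun i => Quotient.out (φ (FreeSemigroup.of i))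
  let ψ : FreeSemigroup ℕ →ₙ* (∀ n, T n) := FreeSemigroup.lift r
  have hψ : ∀ w, ((ψ w : ∀ n, T n) : (ultraCon T).Quotient) = φ w := by
    intro w
    have : (Con.mkMulHom (ultraCon T)).comp ψ = φ := by
      apply FreeSemigroup.hom_ext
      funext i
      simp only [MulHom.coe_comp, Function.comp_apply]
      have : ψ (FreeSemigroup.of i) = r i := by simp [ψ]
      rw [this]
      exact Quotient.out_eq (φ (FreeSemigroup.of i))
    exact DFunLike.congr_fun this w
  have hcov : (⋃ p ∈ σ.pairs, {n | ψ p.1 n = ψ p.2 n}) ∈ Filter.hyperfilter ℕ := by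
    have : (⋃ p ∈ σ.pairs, {n | ψ p.1 n = ψ p.2 n}) = Set.univ := by
      apply Set.eq_univ_of_forall
      intro n
      let ψn : FreeSemigroup ℕ →ₙ* T n :=
        { toFun := fun w => ψ w n
          map_mul' := fun a b => by rw [map_mul]; rfl }
      obtain ⟨p, hp, he⟩ := h n ψn
      exact Set.mem_biUnion hp he
    rw [this]
    exact Filter.univ_mem
  obtain ⟨p, hp, hpm⟩ := (Ultrafilter.finite_biUnion_mem_iff hσ).1 hcov
  refine ⟨p, hp, ?_⟩
  rw [← hψ, ← hψ]
  exact (Con.eq _).2 hpm

private theorem ultra_infinite (T : ℕ → Semigrp.{u}) (hf : ∀ n, Finite (T n))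
    (hn : ∀ n, Nonempty (T n)) (hc : ∀ n, n ≤ Nat.card (T n)) :
    Infinite (ultraCon T).Quotient := by
  have key : ∀ k : ℕ, ∃ f : Fin k → (ultraCon T).Quotient, Function.Injective f := by
    intro k
    have hemb : ∀ n, k ≤ n → ∃ g : Fin k → T n, Function.Injective g := by
      intro n hkn
      have := hf n
      have := Fintype.ofFinite (T n)
      have : Fintype.card (Fin k) ≤ Fintype.card (T n) := by
        rw [Fintype.card_fin, ← Nat.card_eq_fintype_card]
        exact hkn.trans (hc n)
      obtain ⟨e⟩ := Function.Embedding.nonempty_of_card_le this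
      exact ⟨e, e.injective⟩
    choose g hg using hemb
    classical
    let x : Fin k → ∀ n, T n := fun i n => if h : k ≤ n then g n h i else (hn n).some
    refine ⟨fun i => ((x i : ∀ n, T n) : (ultraCon T).Quotient), ?_⟩
    intro i j hij
    by_contra hne
    have hev : ∀ᶠ n in (Filter.hyperfilter ℕ : Filter ℕ), x i n = x j n := (Con.eq _).1 hij
    have hbig : ∀ᶠ n in (Filter.hyperfilter ℕ : Filter ℕ), k ≤ n := by
      have : ({n : ℕ | k ≤ n}ᶜ).Finite := by
        apply (Set.finite_lt_nat k).subset
        intro n hn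
        simpa using hn
      exact Filter.mem_hyperfilter_of_finite_compl this
    obtain ⟨n, hn1, hn2⟩ := (hev.and hbig).exists
    simp only [x, hn2, dite_true] at hn1
    exact hne (hg n hn2 hn1)
  by_contra hinf
  rw [not_infinite_iff_finite] at hinf
  obtain ⟨f, hfi⟩ := key (Nat.card (ultraCon T).Quotient + 1)
  have := Nat.card_le_card_of_injective f hfi
  rw [Nat.card_eq_fintype_card, Fintype.card_fin] at this
  omega

/-- ultraproduct over `ℕ`: an elementary class with large finite members has an infinite one -/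
theorem exists_infinite {M : Set Semigrp.{u}} (hM : IsElementary M)
    (h : ∀ n : ℕ, ∃ S ∈ M, Finite S ∧ n ≤ Nat.card S) : ∃ S ∈ M, Infinite S := by
  obtain ⟨Γ, hΓ, rfl⟩ := hM
  choose T hT hf hc using h
  refine ⟨Semigrp.of (ultraCon T).Quotient, ⟨?_, ?_⟩, ?_⟩
  · exact ⟨((fun n => (hT n).1.some : ∀ n, T n) : (ultraCon T).Quotient)⟩
  · intro σ hσ
    exact ultra_satisfies T σ (hΓ σ hσ) fun n => (hT n).2 σ hσ
  · exact ultra_infinite T hf (fun n => (hT n).1) hc

end Pool.Agent.MNV
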