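import Mathlib
import Pool.Agent.MNV.Defs
import Pool.Agent.MNV.Base
import Pool.Agent.MNV.Ultra
import Pool.Agent.MNV.Bounded

/-!
# Minimal nonelementary inclusive varieties: null, left zero and right zero semigroups

* `minimal_of_family` : a class of finite semigroups which is closed under division, contains arbitrarily large semigroups,
  and in which the smaller semigroups divide the larger ones, is minimal nonelementary;
* `finNull_minimal`, `finLeft_minimal`, `finRight_minimal` : the finite null, left zero, right zero semigroups;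
* `null_divides`, `left_divides`, `right_divides`, `finNull_card`, `finLeft_card`, `finRight_card`.
-/

set_option autoImplicit false

namespace Pool.Agent.MNV

universe u v w

/-- a class of finite semigroups which is closed under division, contains arbitrarily large semigroups, and in which the
smaller semigroups divide the larger ones, is minimal nonelementary -/
theorem minimal_of_family {F : Set Semigrp.{u}} (hne : F.Nonempty)
    (hfin : ∀ S ∈ F, Nonempty S ∧ Finite S)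
    (hcl : ∀ S ∈ F, ∀ T : Semigrp.{u}, Nonempty T → Divides T S → T ∈ F)
    (hunb : ∀ n : ℕ, ∃ S ∈ F, n ≤ Nat.card S)
    (hdiv : ∀ S ∈ F, ∀ T ∈ F, Nat.card S ≤ Nat.card T → Divides S T) :
    IsMinimalNonelementary F := by
  refine ⟨inclusive_of_closed hne hfin hcl, fun h => ?_, fun N hN hNF => ?_⟩
  · obtain ⟨S, hS, hinf⟩ := exists_infinite h fun n => by
      obtain ⟨S, hS, hn⟩ := hunb n
      exact ⟨S, hS, (hfin S hS).2, hn⟩
    have := (hfin S hS).2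
    exact not_finite S
  · obtain ⟨hsub, hne'⟩ := (Set.ssubset_iff_subset_ne.1 hNF)
    obtain ⟨T, hT, hTN⟩ : ∃ T ∈ F, T ∉ N := by
      by_contra hcon
      push Not at hcon
      exact hne' (Set.Subset.antisymm hsub hcon)
    refine elementary_of_bounded hN (Nat.card T) fun S hS => ⟨(hfin S (hsub hS)).2, ?_⟩
    by_contra hlt
    exact hTN (mem_of_divides hN hS (hfin T hT).1 (hdiv T hT S (hsub hS) (by omega)))

/-- a homomorphic image divides -/
theorem divides_of_surj {S : Type u} {T : Type v} [Semigroup S] [Semigroup T] (f : S →ₙ* T)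
    (hf : Function.Surjective f) : Divides T S := by
  refine ⟨⊤, f.comp (MulMemClass.subtype ⊤), fun t => ?_⟩
  obtain ⟨s, rfl⟩ := hf t
  exact ⟨⟨s, trivial⟩, rfl⟩

/-- a surjection of the larger finite set onto the smaller one which maps a given point to a given point -/
theorem exists_surj {A : Type u} {B : Type v} [Finite A] [Finite B] (h : Nat.card A ≤ Nat.card B) (a : A) (b : B) :
    ∃ f : B → A, Function.Surjective f ∧ f b = a := by
  classical
  have := Fintype.ofFinite A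
  have := Fintype.ofFinite B
  rw [Nat.card_eq_fintype_card, Nat.card_eq_fintype_card] at h
  obtain ⟨g⟩ := Function.Embedding.nonempty_of_card_le h
  have : Nonempty A := ⟨a⟩
  let g' : A → B := fun x => Equiv.swap (g a) b (g x)
  have hg' : Function.Injective g' := (Equiv.injective _).comp g.injective
  refine ⟨Function.invFun g', Function.invFun_surjective hg', ?_⟩
  have h1 : g' a = b := Equiv.swap_apply_left _ _
  rw [← h1, Function.leftInverse_invFun hg']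

/-! ### Null semigroups -/

theorem finNull_closed : ∀ S ∈ FinNull.{u}, ∀ T : Semigrp.{u}, Nonempty T → Divides T S → T ∈ FinNull.{u} := by
  rintro S ⟨-, hfin, hS⟩ T hT ⟨U, f, hf⟩
  refine ⟨hT, Finite.of_surjective f hf, fun a b c d => ?_⟩
  obtain ⟨a, rfl⟩ := hf a
  obtain ⟨b, rfl⟩ := hf b
  obtain ⟨c, rfl⟩ := hf c
  obtain ⟨d, rfl⟩ := hf d
  rw [← map_mul, ← map_mul]
  exact congrArg f (Subtype.ext (hS _ _ _ _))

/-- null semigroups with `n` elements -/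
theorem finNull_card (n : ℕ) (hn : 1 ≤ n) : ∃ S ∈ FinNull.{u}, Nat.card S = n := by
  let str : Semigroup (ULift.{u} (Fin n)) :=
    { mul := fun _ _ => ⟨⟨0, hn⟩⟩
      mul_assoc := fun _ _ _ => rfl }
  refine ⟨@Semigrp.of (ULift.{u} (Fin n)) str, ⟨⟨⟨⟨0, hn⟩⟩⟩, inferInstanceAs (Finite (ULift.{u} (Fin n))),
    fun _ _ _ _ => rfl⟩, ?_⟩
  change Nat.card (ULift.{u} (Fin n)) = n
  simp

theorem finNull_unb (n : ℕ) : ∃ S ∈ FinNull.{u}, n ≤ Nat.card S := by
  obtain ⟨S, hS, h⟩ := finNull_card.{u} (n + 1) (by omega)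
  exact ⟨S, hS, by omega⟩

theorem finNull_divides {S T : Semigrp.{u}} (hS : S ∈ FinNull.{u}) (hT : T ∈ FinNull.{u})
    (h : Nat.card S ≤ Nat.card T) : Divides S T := by
  obtain ⟨⟨s⟩, hfS, hS⟩ := hS
  obtain ⟨⟨t⟩, hfT, hT⟩ := hT
  obtain ⟨f, hf, hf0⟩ := exists_surj h (s * s) (t * t)
  refine divides_of_surj (S := T) (T := S) ⟨f, fun x y => ?_⟩ hf
  rw [hT x y t t, hf0]
  exact hS _ _ _ _

theorem finNull_minimal : IsMinimalNonelementary FinNull.{u} :=
  minimal_of_family (let ⟨S, hS, _⟩ := finNull_card.{u} 1 le_rfl; ⟨S, hS⟩) (fun _ hS => ⟨hS.1, hS.2.1⟩)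
    finNull_closed finNull_unb fun _ hS _ hT h => finNull_divides hS hT h

/-- a surjection of `Fin n` onto a nonempty set with at most `n` elements -/
theorem exists_surj_fin {A : Type u} [Nonempty A] [Finite A] {n : ℕ} (h : Nat.card A ≤ n) :
    ∃ f : Fin n → A, Function.Surjective f := by
  have hn : 0 < n := lt_of_lt_of_le Nat.card_pos h
  obtain ⟨f, hf, -⟩ := exists_surj (B := Fin n) (by simpa using h) (Classical.arbitrary A) ⟨0, hn⟩
  exact ⟨f, hf⟩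

theorem null_divides {n : ℕ} {T : Type u} [Semigroup T] (h : DivNull n T) {S : Semigrp.{u}}
    (hS : S ∈ FinNull.{u}) (hc : Nat.card S ≤ n) : Divides S T := by
  classical
  obtain ⟨⟨s⟩, hfS, hS⟩ := hS
  obtain ⟨U, I, t, hI, htinj, htU, htI, htt⟩ := h
  have : Nonempty S := ⟨s⟩
  obtain ⟨σ, hσ⟩ := exists_surj_fin hc
  have hprod : ∀ x y : T, x ∈ U → (x ∈ Set.range t ∨ x ∈ I) → y ∈ U → (y ∈ Set.range t ∨ y ∈ I) → x * y ∈ I := by
    rintro x y hxU (⟨i, rfl⟩ | hx) hyU (⟨j, rfl⟩ | hy)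
    · exact htt i j
    · exact (hI _ hy _ hxU).2
    · exact (hI _ hx _ hyU).1
    · exact (hI _ hx _ hyU).1
  let V : Subsemigroup T :=
    { carrier := {x | x ∈ U ∧ (x ∈ Set.range t ∨ x ∈ I)}
      mul_mem' := fun {x y} hx hy => ⟨U.mul_mem hx.1 hy.1, Or.inr (hprod x y hx.1 hx.2 hy.1 hy.2)⟩ }
  let f : V → S := fun x => if h : (x : T) ∈ Set.range t ∧ (x : T) ∉ I then σ h.1.choose else s * s
  have hf0 : ∀ x : V, (x : T) ∈ I → f x = s * s := fun x hx => dif_neg fun h => h.2 hx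
  have hf1 : ∀ (i : Fin n) (hi : t i ∈ V), f ⟨t i, hi⟩ = σ i := fun i hi => by
    have h1 : t i ∈ Set.range t ∧ t i ∉ I := ⟨⟨i, rfl⟩, htI i⟩
    have h2 : f ⟨t i, hi⟩ = σ h1.1.choose := dif_pos h1
    rw [h2, htinj h1.1.choose_spec]
  refine ⟨V, ⟨f, fun x y => ?_⟩, fun a => ?_⟩
  · rw [hf0 (x * y) (hprod x y x.2.1 x.2.2 y.2.1 y.2.2)]
    exact hS _ _ _ _
  · obtain ⟨i, rfl⟩ := hσ a
    exact ⟨⟨t i, htU i, Or.inl ⟨i, rfl⟩⟩, hf1 i _⟩

/-! ### Left zero semigroups -/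

theorem finLeft_closed : ∀ S ∈ FinLeft.{u}, ∀ T : Semigrp.{u}, Nonempty T → Divides T S → T ∈ FinLeft.{u} := by
  rintro S ⟨-, hfin, hS⟩ T hT ⟨U, f, hf⟩
  refine ⟨hT, Finite.of_surjective f hf, fun a b => ?_⟩
  obtain ⟨a, rfl⟩ := hf a
  obtain ⟨b, rfl⟩ := hf b
  rw [← map_mul]
  exact congrArg f (Subtype.ext (hS _ _))

/-- left zero semigroups with `n` elements -/
theorem finLeft_card (n : ℕ) (hn : 1 ≤ n) : ∃ S ∈ FinLeft.{u}, Nat.card S = n := by
  let str : Semigroup (ULift.{u} (Fin n)) :=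
    { mul := fun a _ => a
      mul_assoc := fun _ _ _ => rfl }
  refine ⟨@Semigrp.of (ULift.{u} (Fin n)) str, ⟨⟨⟨⟨0, hn⟩⟩⟩, inferInstanceAs (Finite (ULift.{u} (Fin n))),
    fun _ _ => rfl⟩, ?_⟩
  change Nat.card (ULift.{u} (Fin n)) = n
  simp

theorem finLeft_unb (n : ℕ) : ∃ S ∈ FinLeft.{u}, n ≤ Nat.card S := by
  obtain ⟨S, hS, h⟩ := finLeft_card.{u} (n + 1) (by omega)
  exact ⟨S, hS, by omega⟩

theorem finLeft_divides {S T : Semigrp.{u}} (hS : S ∈ FinLeft.{u}) (hT : T ∈ FinLeft.{u})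
    (h : Nat.card S ≤ Nat.card T) : Divides S T := by
  obtain ⟨⟨s⟩, hfS, hS⟩ := hS
  obtain ⟨⟨t⟩, hfT, hT⟩ := hT
  obtain ⟨f, hf, -⟩ := exists_surj h s t
  refine divides_of_surj (S := T) (T := S) ⟨f, fun x y => ?_⟩ hf
  rw [hT x y, hS]

theorem finLeft_minimal : IsMinimalNonelementary FinLeft.{u} :=
  minimal_of_family (let ⟨S, hS, _⟩ := finLeft_card.{u} 1 le_rfl; ⟨S, hS⟩) (fun _ hS => ⟨hS.1, hS.2.1⟩)
    finLeft_closed finLeft_unb fun _ hS _ hT h => finLeft_divides hS hT h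

theorem left_divides {n : ℕ} {T : Type u} [Semigroup T] (h : DivLeft n T) {S : Semigrp.{u}}
    (hS : S ∈ FinLeft.{u}) (hc : Nat.card S ≤ n) : Divides S T := by
  classical
  obtain ⟨hne, hfS, hS⟩ := hS
  obtain ⟨t, htinj, htt⟩ := h
  have := hne
  obtain ⟨σ, hσ⟩ := exists_surj_fin hc
  let V : Subsemigroup T :=
    { carrier := Set.range t
      mul_mem' := by
        rintro _ _ ⟨i, rfl⟩ ⟨j, rfl⟩
        exact ⟨i, (htt i j).symm⟩ }
  let f : V → S := fun x => σ (x.2 : (x : T) ∈ Set.range t).choose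
  have hf : ∀ (i : Fin n) (hi : t i ∈ V), f ⟨t i, hi⟩ = σ i := fun i hi =>
    congrArg σ (htinj (Set.mem_range.1 hi).choose_spec)
  refine ⟨V, ⟨f, ?_⟩, fun a => ?_⟩
  · rintro ⟨_, ⟨i, rfl⟩⟩ ⟨_, ⟨j, rfl⟩⟩
    rw [hS, hf i ⟨i, rfl⟩]
    have h1 : (⟨t i, ⟨i, rfl⟩⟩ : V) * ⟨t j, ⟨j, rfl⟩⟩ = ⟨t i, ⟨i, rfl⟩⟩ := Subtype.ext (htt i j)
    rw [h1, hf i ⟨i, rfl⟩]
  · obtain ⟨i, rfl⟩ := hσ a
    exact ⟨⟨t i, ⟨i, rfl⟩⟩, hf i _⟩

/-! ### Right zero semigroups -/

theorem finRight_closed : ∀ S ∈ FinRight.{u}, ∀ T : Semigrp.{u}, Nonempty T → Divides T S → T ∈ FinRight.{u} := by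
  rintro S ⟨-, hfin, hS⟩ T hT ⟨U, f, hf⟩
  refine ⟨hT, Finite.of_surjective f hf, fun a b => ?_⟩
  obtain ⟨a, rfl⟩ := hf a
  obtain ⟨b, rfl⟩ := hf b
  rw [← map_mul]
  exact congrArg f (Subtype.ext (hS _ _))

/-- right zero semigroups with `n` elements -/
theorem finRight_card (n : ℕ) (hn : 1 ≤ n) : ∃ S ∈ FinRight.{u}, Nat.card S = n := by
  let str : Semigroup (ULift.{u} (Fin n)) :=
    { mul := fun _ b => b
      mul_assoc := fun _ _ _ => rfl }
  refine ⟨@Semigrp.of (ULift.{u} (Fin n)) str, ⟨⟨⟨⟨0, hn⟩⟩⟩, inferInstanceAs (Finite (ULift.{u} (Fin n))),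
    fun _ _ => rfl⟩, ?_⟩
  change Nat.card (ULift.{u} (Fin n)) = n
  simp

theorem finRight_unb (n : ℕ) : ∃ S ∈ FinRight.{u}, n ≤ Nat.card S := by
  obtain ⟨S, hS, h⟩ := finRight_card.{u} (n + 1) (by omega)
  exact ⟨S, hS, by omega⟩

theorem finRight_divides {S T : Semigrp.{u}} (hS : S ∈ FinRight.{u}) (hT : T ∈ FinRight.{u})
    (h : Nat.card S ≤ Nat.card T) : Divides S T := by
  obtain ⟨⟨s⟩, hfS, hS⟩ := hS
  obtain ⟨⟨t⟩, hfT, hT⟩ := hT
  obtain ⟨f, hf, -⟩ := exists_surj h s t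
  refine divides_of_surj (S := T) (T := S) ⟨f, fun x y => ?_⟩ hf
  rw [hT x y, hS]

theorem finRight_minimal : IsMinimalNonelementary FinRight.{u} :=
  minimal_of_family (let ⟨S, hS, _⟩ := finRight_card.{u} 1 le_rfl; ⟨S, hS⟩) (fun _ hS => ⟨hS.1, hS.2.1⟩)
    finRight_closed finRight_unb fun _ hS _ hT h => finRight_divides hS hT h

theorem right_divides {n : ℕ} {T : Type u} [Semigroup T] (h : DivRight n T) {S : Semigrp.{u}}
    (hS : S ∈ FinRight.{u}) (hc : Nat.card S ≤ n) : Divides S T := by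
  classical
  obtain ⟨hne, hfS, hS⟩ := hS
  obtain ⟨t, htinj, htt⟩ := h
  have := hne
  obtain ⟨σ, hσ⟩ := exists_surj_fin hc
  let V : Subsemigroup T :=
    { carrier := Set.range t
      mul_mem' := by
        rintro _ _ ⟨i, rfl⟩ ⟨j, rfl⟩
        exact ⟨j, (htt i j).symm⟩ }
  let f : V → S := fun x => σ (x.2 : (x : T) ∈ Set.range t).choose
  have hf : ∀ (i : Fin n) (hi : t i ∈ V), f ⟨t i, hi⟩ = σ i := fun i hi =>
    congrArg σ (htinj (Set.mem_range.1 hi).choose_spec)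
  refine ⟨V, ⟨f, ?_⟩, fun a => ?_⟩
  · rintro ⟨_, ⟨i, rfl⟩⟩ ⟨_, ⟨j, rfl⟩⟩
    rw [hS, hf j ⟨j, rfl⟩]
    have h1 : (⟨t i, ⟨i, rfl⟩⟩ : V) * ⟨t j, ⟨j, rfl⟩⟩ = ⟨t j, ⟨j, rfl⟩⟩ := Subtype.ext (htt i j)
    rw [h1, hf j ⟨j, rfl⟩]
  · obtain ⟨i, rfl⟩ := hσ a
    exact ⟨⟨t i, ⟨i, rfl⟩⟩, hf i _⟩

end Pool.Agent.MNV
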