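import Mathlib
import Pool.Agent.MNV.Defs
import Pool.Agent.MNV.Base
import Pool.Agent.MNV.Families

/-!
# Minimal nonelementary inclusive varieties: chains and flat semilattices

* `finChain_minimal`, `finFlat_minimal`;
* `chain_divides`, `flat_divides`, `finChain_card`, `finFlat_card`.
-/

set_option autoImplicit false

namespace Pool.Agent.MNV

universe u v w

/-! ### Chains -/

theorem finChain_closed : ∀ S ∈ FinChain.{u}, ∀ T : Semigrp.{u}, Nonempty T → Divides T S →
    T ∈ FinChain.{u} := by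
  rintro S ⟨-, hfin, hcomm, hS⟩ T hT ⟨U, f, hf⟩
  refine ⟨hT, Finite.of_surjective f hf, fun a b => ?_, fun a b => ?_⟩
  · obtain ⟨a, rfl⟩ := hf a
    obtain ⟨b, rfl⟩ := hf b
    rw [← map_mul, ← map_mul]
    exact congrArg f (Subtype.ext (hcomm _ _))
  · obtain ⟨a, rfl⟩ := hf a
    obtain ⟨b, rfl⟩ := hf b
    rw [← map_mul]
    rcases hS (a : S) (b : S) with h | h
    · exact Or.inl (congrArg f (Subtype.ext h))
    · exact Or.inr (congrArg f (Subtype.ext h))

/-- chains with `n` elements -/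
theorem finChain_card (n : ℕ) (hn : 1 ≤ n) : ∃ S ∈ FinChain.{u}, Nat.card S = n := by
  let str : Semigroup (ULift.{u} (Fin n)) :=
    { mul := fun a b => ⟨max a.down b.down⟩
      mul_assoc := fun a b c => congrArg ULift.up (max_assoc a.down b.down c.down) }
  refine ⟨@Semigrp.of (ULift.{u} (Fin n)) str, ⟨⟨⟨⟨0, hn⟩⟩⟩, inferInstanceAs (Finite (ULift.{u} (Fin n))),
    fun a b => congrArg ULift.up (max_comm a.down b.down), fun a b => ?_⟩, ?_⟩
  · rcases le_total a.down b.down with h | h
    · exact Or.inr (congrArg ULift.up (max_eq_right h))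
    · exact Or.inl (congrArg ULift.up (max_eq_left h))
  · change Nat.card (ULift.{u} (Fin n)) = n
    simp

theorem finChain_unb (n : ℕ) : ∃ S ∈ FinChain.{u}, n ≤ Nat.card S := by
  obtain ⟨S, hS, h⟩ := finChain_card.{u} (n + 1) (by omega)
  exact ⟨S, hS, by omega⟩

/-- monotone enumeration of a finite chain -/
theorem chain_enum {S : Semigrp.{u}} (hS : S ∈ FinChain.{u}) :
    ∃ s : Fin (Nat.card S) → S, Function.Bijective s ∧ ∀ i j, s i * s j = s (max i j) := by
  classical
  obtain ⟨hne, hfin, hcomm, hch⟩ := hS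
  have hidem : ∀ a : S, a * a = a := fun a => (hch a a).elim id id
  have := Fintype.ofFinite S
  let L : LinearOrder S :=
    { le := fun a b => a * b = b
      le_refl := hidem
      le_trans := fun a b c hab hbc => by
        change a * b = b at hab
        change b * c = c at hbc
        change a * c = c
        rw [← hbc, ← mul_assoc, hab]
      le_antisymm := fun a b hab hba => by
        change a * b = b at hab
        change b * a = a at hba
        rw [← hba, hcomm, hab]
      le_total := fun a b => by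
        rcases hch a b with h | h
        · right
          change b * a = a
          rw [hcomm, h]
        · exact Or.inl h
      toDecidableLE := fun _ _ => Classical.propDecidable _ }
  have hle : ∀ a b : S, a ≤ b ↔ a * b = b := fun a b => Iff.rfl
  have hc : Fintype.card S = Nat.card S := by rw [Nat.card_eq_fintype_card]
  let e := Fintype.orderIsoFinOfCardEq S hc
  refine ⟨e, e.bijective, fun i j => ?_⟩
  rcases le_total i j with h | h
  · rw [max_eq_right h]
    exact (hle _ _).1 (e.monotone h)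
  · rw [max_eq_left h, hcomm]
    exact (hle _ _).1 (e.monotone h)

theorem chain_divides {n : ℕ} {T : Type u} [Semigroup T] (h : DivChain n T) {S : Semigrp.{u}}
    (hS : S ∈ FinChain.{u}) (hc : Nat.card S ≤ n) : Divides S T := by
  classical
  obtain ⟨s, hsb, hs⟩ := chain_enum hS
  obtain ⟨hne, hfS, -, -⟩ := hS
  obtain ⟨t, htinj, htt⟩ := h
  have hpos : 0 < Nat.card S := Nat.card_pos
  let σ : Fin n → S := fun i => s ⟨min i.1 (Nat.card S - 1), by omega⟩
  have hσ : ∀ i j, σ (max i j) = σ i * σ j := fun i j => by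
    simp only [σ, hs]
    congr 1
    apply Fin.ext
    rcases le_total i j with h | h
    · have h' : i.1 ≤ j.1 := h
      rw [max_eq_right h, max_eq_right]
      show min i.1 _ ≤ min j.1 _
      exact min_le_min_right _ h'
    · have h' : j.1 ≤ i.1 := h
      rw [max_eq_left h, max_eq_left]
      show min j.1 _ ≤ min i.1 _
      exact min_le_min_right _ h'
  let V : Subsemigroup T :=
    { carrier := Set.range t
      mul_mem' := by
        rintro _ _ ⟨i, rfl⟩ ⟨j, rfl⟩
        exact ⟨max i j, (htt i j).symm⟩ }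
  let f : V → S := fun x => σ (x.2 : (x : T) ∈ Set.range t).choose
  have hf : ∀ (i : Fin n) (hi : t i ∈ V), f ⟨t i, hi⟩ = σ i := fun i hi =>
    congrArg σ (htinj (Set.mem_range.1 hi).choose_spec)
  refine ⟨V, ⟨f, ?_⟩, fun a => ?_⟩
  · rintro ⟨_, ⟨i, rfl⟩⟩ ⟨_, ⟨j, rfl⟩⟩
    rw [hf i ⟨i, rfl⟩, hf j ⟨j, rfl⟩]
    have h1 : (⟨t i, ⟨i, rfl⟩⟩ : V) * ⟨t j, ⟨j, rfl⟩⟩ = ⟨t (max i j), ⟨max i j, rfl⟩⟩ :=
      Subtype.ext (htt i j)
    rw [h1, hf (max i j) ⟨max i j, rfl⟩, hσ]
  · obtain ⟨k, rfl⟩ := hsb.2 a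
    have hk : k.1 < n := lt_of_lt_of_le k.2 hc
    refine ⟨⟨t ⟨k.1, hk⟩, ⟨_, rfl⟩⟩, (hf _ _).trans ?_⟩
    simp only [σ]
    congr 1
    apply Fin.ext
    have := k.2
    show min k.1 (Nat.card S - 1) = k.1
    omega

theorem finChain_divides {S T : Semigrp.{u}} (hS : S ∈ FinChain.{u}) (hT : T ∈ FinChain.{u})
    (h : Nat.card S ≤ Nat.card T) : Divides S T := by
  obtain ⟨t, htb, htt⟩ := chain_enum hT
  exact chain_divides ⟨t, htb.1, htt⟩ hS h

theorem finChain_minimal : IsMinimalNonelementary FinChain.{u} :=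
  minimal_of_family (let ⟨S, hS, _⟩ := finChain_card.{u} 1 le_rfl; ⟨S, hS⟩)
    (fun _ hS => ⟨hS.1, hS.2.1⟩) finChain_closed finChain_unb
    fun _ hS _ hT h => finChain_divides hS hT h

/-! ### Flat semilattices -/

/-- a surjection of the larger finite set onto the smaller one, which maps a given point to a given
point and is injective over the other points -/
theorem exists_surj_inj {A : Type u} {B : Type v} [Finite A] [Finite B]
    (h : Nat.card A ≤ Nat.card B) (a : A) (b : B) :
    ∃ f : B → A, Function.Surjective f ∧ f b = a ∧ ∀ x y, f x = f y → x = y ∨ f x = a := by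
  classical
  have := Fintype.ofFinite A
  have := Fintype.ofFinite B
  rw [Nat.card_eq_fintype_card, Nat.card_eq_fintype_card] at h
  obtain ⟨g⟩ := Function.Embedding.nonempty_of_card_le h
  let g' : A → B := fun x => Equiv.swap (g a) b (g x)
  have hg' : Function.Injective g' := (Equiv.injective _).comp g.injective
  have hga : g' a = b := Equiv.swap_apply_left _ _
  let f : B → A := fun x => if h : ∃ s, g' s = x then h.choose else a
  have hf : ∀ s, f (g' s) = s := fun s => by
    have h1 : ∃ s', g' s' = g' s := ⟨s, rfl⟩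
    have h2 : f (g' s) = h1.choose := dif_pos h1
    rw [h2]
    exact hg' h1.choose_spec
  have hf' : ∀ x, g' (f x) = x ∨ f x = a := fun x => by
    by_cases hx : ∃ s, g' s = x
    · obtain ⟨s, rfl⟩ := hx
      left
      rw [hf]
    · exact Or.inr (dif_neg hx)
  refine ⟨f, fun s => ⟨g' s, hf s⟩, by rw [← hga, hf], fun x y hxy => ?_⟩
  rcases hf' x with h1 | h1
  · rcases hf' y with h2 | h2
    · left
      rw [← h1, hxy, h2]
    · right
      rw [hxy, h2]
  · exact Or.inr h1

theorem finFlat_closed : ∀ S ∈ FinFlat.{u}, ∀ T : Semigrp.{u}, Nonempty T → Divides T S →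
    T ∈ FinFlat.{u} := by
  rintro S ⟨-, hfin, hid, hcomm, hS⟩ T hT ⟨U, f, hf⟩
  refine ⟨hT, Finite.of_surjective f hf, fun a => ?_, fun a b => ?_, fun a b c hab => ?_⟩
  · obtain ⟨a, rfl⟩ := hf a
    rw [← map_mul]
    exact congrArg f (Subtype.ext (hid _))
  · obtain ⟨a, rfl⟩ := hf a
    obtain ⟨b, rfl⟩ := hf b
    rw [← map_mul, ← map_mul]
    exact congrArg f (Subtype.ext (hcomm _ _))
  · obtain ⟨a, rfl⟩ := hf a
    obtain ⟨b, rfl⟩ := hf b
    obtain ⟨c, rfl⟩ := hf c
    have hne : (a : S) ≠ b := fun h => hab (congrArg f (Subtype.ext h))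
    rw [← map_mul, ← map_mul]
    exact congrArg f (Subtype.ext (hS _ _ _ hne))

/-- flat semilattices with `n` elements -/
theorem finFlat_card (n : ℕ) (hn : 1 ≤ n) : ∃ S ∈ FinFlat.{u}, Nat.card S = n := by
  classical
  let z : ULift.{u} (Fin n) := ⟨⟨0, hn⟩⟩
  let m : ULift.{u} (Fin n) → ULift.{u} (Fin n) → ULift.{u} (Fin n) :=
    fun a b => if a = b then a else z
  have hm1 : ∀ a, m a a = a := fun a => if_pos rfl
  have hm2 : ∀ a b, a ≠ b → m a b = z := fun a b h => if_neg h
  have hm3 : ∀ a, m a z = z := fun a => by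
    by_cases h : a = z
    · rw [h, hm1]
    · exact hm2 _ _ h
  have hm4 : ∀ a, m z a = z := fun a => by
    by_cases h : z = a
    · rw [← h, hm1]
    · exact hm2 _ _ h
  have hassoc : ∀ a b c, m (m a b) c = m a (m b c) := fun a b c => by
    by_cases hab : a = b
    · subst hab
      rw [hm1]
      by_cases hac : a = c
      · subst hac
        rw [hm1, hm1]
      · rw [hm2 a c hac, hm3]
    · rw [hm2 a b hab, hm4]
      by_cases hbc : b = c
      · subst hbc
        rw [hm1, hm2 a b hab]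
      · rw [hm2 b c hbc, hm3]
  let str : Semigroup (ULift.{u} (Fin n)) :=
    { mul := m
      mul_assoc := hassoc }
  refine ⟨@Semigrp.of (ULift.{u} (Fin n)) str, ⟨⟨z⟩, inferInstanceAs (Finite (ULift.{u} (Fin n))),
    hm1, fun a b => ?_, fun a b c hab => ?_⟩, ?_⟩
  · change m a b = m b a
    by_cases h : a = b
    · rw [h]
    · rw [hm2 _ _ h, hm2 _ _ (Ne.symm h)]
  · change m (m a b) c = m a b
    rw [hm2 a b hab, hm4]
  · change Nat.card (ULift.{u} (Fin n)) = n
    simp

theorem finFlat_unb (n : ℕ) : ∃ S ∈ FinFlat.{u}, n ≤ Nat.card S := by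
  obtain ⟨S, hS, h⟩ := finFlat_card.{u} (n + 1) (by omega)
  exact ⟨S, hS, by omega⟩

/-- the zero of a flat semilattice -/
theorem flat_zero {S : Semigrp.{u}} (hS : S ∈ FinFlat.{u}) :
    ∃ z : S, (∀ c, z * c = z) ∧ ∀ a b : S, a ≠ b → a * b = z := by
  obtain ⟨⟨s⟩, hfin, hid, hcomm, hfl⟩ := hS
  by_cases h : ∃ p q : S, p ≠ q
  · obtain ⟨p, q, hpq⟩ := h
    refine ⟨p * q, fun c => hfl p q c hpq, fun a b hab => ?_⟩
    have h1 : a * b * (p * q) = a * b := hfl a b _ hab
    have h2 : p * q * (a * b) = p * q := hfl p q _ hpq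
    rw [← h1, hcomm, h2]
  · push Not at h
    exact ⟨s, fun c => h _ _, fun a b hab => absurd (h a b) hab⟩

theorem finFlat_divides {S T : Semigrp.{u}} (hS : S ∈ FinFlat.{u}) (hT : T ∈ FinFlat.{u})
    (h : Nat.card S ≤ Nat.card T) : Divides S T := by
  obtain ⟨z, hz, hz'⟩ := flat_zero hS
  obtain ⟨y, hy, hy'⟩ := flat_zero hT
  obtain ⟨-, hfS, hidS, -, -⟩ := hS
  obtain ⟨-, hfT, hidT, -, -⟩ := hT
  obtain ⟨f, hf, hfy, hinj⟩ := exists_surj_inj h z y
  refine divides_of_surjective (S := S) (T := T) ⟨f, fun a b => ?_⟩ hf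
  by_cases hab : a = b
  · subst hab
    rw [hidT, hidS]
  · rw [hy' a b hab, hfy]
    by_cases hfab : f a = f b
    · rcases hinj a b hfab with h1 | h1
      · exact absurd h1 hab
      · rw [← hfab, h1, hz]
    · rw [hz' _ _ hfab]

theorem finFlat_minimal : IsMinimalNonelementary FinFlat.{u} :=
  minimal_of_family (let ⟨S, hS, _⟩ := finFlat_card.{u} 1 le_rfl; ⟨S, hS⟩)
    (fun _ hS => ⟨hS.1, hS.2.1⟩) finFlat_closed finFlat_unb
    fun _ hS _ hT h => finFlat_divides hS hT h

theorem flat_divides {n : ℕ} {T : Type u} [Semigroup T] (h : DivFlat n T) {S : Semigrp.{u}}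
    (hS : S ∈ FinFlat.{u}) (hc : Nat.card S ≤ n) : Divides S T := by
  classical
  obtain ⟨z, hz, hz'⟩ := flat_zero hS
  obtain ⟨hne, hfS, hidS, hcomm, -⟩ := hS
  obtain ⟨U, I, t, hI, htinj, htU, htI, htid, htt⟩ := h
  have hpos : 0 < Nat.card S := Nat.card_pos
  obtain ⟨σ, hσ, -, hinj⟩ := exists_surj_inj (A := S) (B := Fin n) (by simpa using hc) z
    ⟨0, lt_of_lt_of_le hpos hc⟩
  have hz2 : ∀ c, c * z = z := fun c => by rw [hcomm, hz]
  have hprod : ∀ x y : T, x ∈ U → y ∈ U → (x ∈ I ∨ y ∈ I) → x * y ∈ I := by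
    rintro x y hxU hyU (hx | hy)
    · exact (hI _ hx _ hyU).1
    · exact (hI _ hy _ hxU).2
  let V : Subsemigroup T :=
    { carrier := {x | x ∈ U ∧ (x ∈ Set.range t ∨ x ∈ I)}
      mul_mem' := by
        rintro x y ⟨hxU, hx⟩ ⟨hyU, hy⟩
        refine ⟨U.mul_mem hxU hyU, ?_⟩
        rcases hx with ⟨i, rfl⟩ | hx
        · rcases hy with ⟨j, rfl⟩ | hy
          · by_cases hij : i = j
            · subst hij
              exact Or.inl ⟨i, (htid i).symm⟩
            · exact Or.inr (htt i j hij)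
          · exact Or.inr (hprod _ _ hxU hyU (Or.inr hy))
        · exact Or.inr (hprod _ _ hxU hyU (Or.inl hx)) }
  let f : V → S := fun x => if h : (x : T) ∈ Set.range t ∧ (x : T) ∉ I then σ h.1.choose else z
  have hf0 : ∀ x : V, (x : T) ∈ I → f x = z := fun x hx => dif_neg fun h => h.2 hx
  have hf1 : ∀ (x : V) (i : Fin n), (x : T) = t i → f x = σ i := fun x i hi => by
    have h1 : (x : T) ∈ Set.range t ∧ (x : T) ∉ I := ⟨⟨i, hi.symm⟩, hi ▸ htI i⟩
    have h2 : f x = σ h1.1.choose := dif_pos h1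
    rw [h2, htinj (h1.1.choose_spec.trans hi)]
  refine ⟨V, ⟨f, fun x y => ?_⟩, fun a => ?_⟩
  · rcases x.2.2 with ⟨i, hi⟩ | hx
    · rcases y.2.2 with ⟨j, hj⟩ | hy
      · rw [hf1 x i hi.symm, hf1 y j hj.symm]
        by_cases hij : i = j
        · subst hij
          have h1 : ((x * y : V) : T) = t i := by
            change (x : T) * (y : T) = t i
            rw [← hi, ← hj, htid]
          rw [hf1 _ i h1, hidS]
        · have h1 : ((x * y : V) : T) ∈ I := by
            change (x : T) * (y : T) ∈ I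
            rw [← hi, ← hj]
            exact htt i j hij
          rw [hf0 _ h1]
          by_cases hσij : σ i = σ j
          · rcases hinj i j hσij with h2 | h2
            · exact absurd h2 hij
            · rw [← hσij, h2, hz]
          · rw [hz' _ _ hσij]
      · rw [hf0 y hy, hz2]
        exact hf0 _ (hprod _ _ x.2.1 y.2.1 (Or.inr hy))
    · rw [hf0 x hx, hz]
      exact hf0 _ (hprod _ _ x.2.1 y.2.1 (Or.inl hx))
  · obtain ⟨i, rfl⟩ := hσ a
    exact ⟨⟨t i, htU i, Or.inl ⟨i, rfl⟩⟩, hf1 _ i rfl⟩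

end Pool.Agent.MNV
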