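import Mathlib
import Pool.Agent.MNV.Defs
import Pool.Agent.MNV.Families

/-!
# Minimality of the classes of cyclic and of elementary abelian p-groups
-/

set_option autoImplicit false

namespace Pool.Agent.MNV

universe u v w

namespace Fam3

theorem divides_of_surj {S : Type u} {T : Type v} [Semigroup S] [Semigroup T] (f : T →ₙ* S)
    (hf : Function.Surjective f) : Divides S T := by
  refine ⟨⊤, f.comp (MulMemClass.subtype (⊤ : Subsemigroup T)), ?_⟩
  intro s
  obtain ⟨t, ht⟩ := hf s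
  exact ⟨⟨t, trivial⟩, ht⟩

/-- a nonempty subsemigroup of a finite group is a subgroup -/
theorem sub_of_finite {G : Type u} [Group G] [Finite G] (U : Subsemigroup G)
    (hU : (U : Set G).Nonempty) : ∃ H : Subgroup G, (H : Set G) = U := by
  have hpow : ∀ x ∈ U, ∀ n : ℕ, x ^ (n + 1) ∈ U := by
    intro x hx n
    induction n with
    | zero => simpa using hx
    | succ n ih => rw [pow_succ]; exact U.mul_mem ih hx
  have h1 : (1 : G) ∈ U := by
    obtain ⟨x, hx⟩ := hU
    have := hpow x hx (orderOf x - 1)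
    have h0 : 0 < orderOf x := orderOf_pos x
    rw [Nat.sub_add_cancel h0, pow_orderOf_eq_one] at this
    exact this
  refine ⟨⟨⟨⟨(U : Set G), fun ha hb => U.mul_mem ha hb⟩, h1⟩, ?_⟩, rfl⟩
  intro x hx
  have hx' : x ∈ U := hx
  change x⁻¹ ∈ U
  have h0 : 0 < orderOf x := orderOf_pos x
  by_cases h2 : orderOf x = 1
  · rw [orderOf_eq_one_iff] at h2
    rw [h2, inv_one]; exact h1
  · have h3 : x⁻¹ = x ^ (orderOf x - 2 + 1) := by
      rw [inv_eq_iff_mul_eq_one, ← pow_succ']
      have : orderOf x - 2 + 1 + 1 = orderOf x := by omega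
      rw [this, pow_orderOf_eq_one]
    rw [h3]
    exact hpow x hx' _

/-- a homomorphic image of a subsemigroup of a finite group is a quotient of a subgroup -/
theorem quot_of_divides {G : Type u} [Group G] [Finite G] {T : Type v} [Semigroup T]
    (hT : Nonempty T) (h : Divides T G) :
    ∃ (H : Subgroup G) (f : H →ₙ* T), Function.Surjective f := by
  obtain ⟨U, f, hf⟩ := h
  have hU : (U : Set G).Nonempty := by
    obtain ⟨t⟩ := hT
    obtain ⟨u, -⟩ := hf t
    exact ⟨u, u.2⟩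
  obtain ⟨H, hH⟩ := sub_of_finite U hU
  have hmem : ∀ x : H, (x : G) ∈ U := fun x => by
    have : (x : G) ∈ (U : Set G) := by rw [← hH]; exact x.2
    exact this
  refine ⟨H, ⟨fun x => f ⟨x, hmem x⟩, fun x y => ?_⟩, ?_⟩
  · rw [← map_mul]; rfl
  · intro t
    obtain ⟨u, hu⟩ := hf t
    have : (u : G) ∈ (H : Set G) := by rw [hH]; exact u.2
    exact ⟨⟨u, this⟩, hu⟩

/-- an image of a group is a group -/
theorem group_of_surj {H : Type u} [Group H] {T : Type v} [Semigroup T] (f : H →ₙ* T)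
    (hf : Function.Surjective f) : ∃ (Q : Type u) (_ : Group Q) (g : H →* Q) (_ : T ≃* Q),
      Function.Surjective g := by
  let c : Con H := Con.ker f
  refine ⟨c.Quotient, inferInstance, c.mk', ?_, c.mk'_surjective⟩
  refine (MulEquiv.ofBijective (⟨fun q => c.liftOn q f (fun _ _ h => h), ?_⟩ : c.Quotient →ₙ* T)
    ⟨?_, ?_⟩).symm
  · intro x y
    induction x, y using Con.induction_on₂ with
    | _ a b => exact map_mul f a b
  · intro x y
    induction x, y using Con.induction_on₂ with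
    | _ a b => intro h; exact c.eq.2 h
  · intro t
    obtain ⟨h, rfl⟩ := hf t
    exact ⟨(h : c.Quotient), rfl⟩

/-- finite commutative groups of exponent `p` -/
theorem elem_of_exp {p : ℕ} [Fact p.Prime] {Q : Type u} [CommGroup Q] [Finite Q]
    (hexp : ∀ x : Q, x ^ p = 1) : ∃ m : ℕ, Nonempty (Q ≃* Multiplicative (Fin m → ZMod p)) := by
  let iM : Module (ZMod p) (Additive Q) := AddCommGroup.zmodModule (n := p) (fun x => by
    apply Additive.toMul.injective
    rw [toMul_nsmul]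
    exact hexp _)
  have hfA : Finite (Additive Q) := inferInstanceAs (Finite Q)
  have hfM : Module.Finite (ZMod p) (Additive Q) := Module.Finite.of_finite
  have hfr : Module.Free (ZMod p) (Additive Q) := Module.Free.of_divisionRing _ _
  let b := @Module.finBasis (ZMod p) (Additive Q) (CommSemiring.toSemiring) _ iM hfr _ hfM
  let l : Additive Q ≃+ (Fin (Module.finrank (ZMod p) (Additive Q)) → ZMod p) :=
    b.equivFun.toAddEquiv
  exact ⟨Module.finrank (ZMod p) (Additive Q), ⟨(AddEquiv.toMultiplicative l : _)⟩⟩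

/-- transfer along an isomorphism -/
theorem divides_equiv {S : Type u} {T : Type v} {G : Type w} [Semigroup S] [Semigroup T]
    [Semigroup G] (e : S ≃* G) (h : Divides T S) : Divides T G := by
  obtain ⟨U, f, hf⟩ := h
  refine ⟨U.map (e : S →ₙ* G), ?_⟩
  have hm : ∀ x : U.map (e : S →ₙ* G), e.symm (x : G) ∈ U := by
    rintro ⟨x, y, hy, rfl⟩
    change e.symm (e y) ∈ U
    rw [e.symm_apply_apply]; exact hy
  refine ⟨⟨fun x => f ⟨e.symm x, hm x⟩, fun x y => ?_⟩, ?_⟩
  · rw [← map_mul]; congr 1; exact Subtype.ext (map_mul e.symm _ _)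
  · intro t
    obtain ⟨u, hu⟩ := hf t
    refine ⟨⟨e u, ⟨u, u.2, rfl⟩⟩, ?_⟩
    rw [← hu]
    change f _ = f _
    congr 1
    exact Subtype.ext (e.symm_apply_apply _)

end Fam3

open Fam3

theorem cycP_closed {p : ℕ} (hp : p.Prime) {S T : Semigrp.{u}} (hS : S ∈ CycP.{u} p)
    (hT : Nonempty T) (h : Divides T S) : T ∈ CycP.{u} p := by
  obtain ⟨n, ⟨e⟩⟩ := hS
  have : Fact p.Prime := ⟨hp⟩
  have : NeZero (p ^ n) := ⟨pow_ne_zero _ hp.ne_zero⟩
  have h' : Divides T (Multiplicative (ZMod (p ^ n))) := divides_equiv e h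
  obtain ⟨H, f, hf⟩ := quot_of_divides hT h'
  obtain ⟨Q, iQ, g, eq, hg⟩ := group_of_surj f hf
  have : IsCyclic Q := isCyclic_of_surjective g hg
  have : Finite Q := Finite.of_surjective g hg
  have hpg : IsPGroup p Q := by
    have h1 : IsPGroup p (Multiplicative (ZMod (p ^ n))) := by
      apply IsPGroup.of_card (n := n)
      rw [Nat.card_eq_fintype_card, Fintype.card_multiplicative, ZMod.card]
    exact (h1.to_subgroup H).of_surjective g hg
  obtain ⟨m, hm⟩ := IsPGroup.iff_card.1 hpg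
  refine ⟨m, ⟨eq.trans ?_⟩⟩
  rw [← hm]
  exact (zmodCyclicMulEquiv inferInstance).symm

theorem elemP_closed {p : ℕ} (hp : p.Prime) {S T : Semigrp.{u}} (hS : S ∈ ElemP.{u} p)
    (hT : Nonempty T) (h : Divides T S) : T ∈ ElemP.{u} p := by
  obtain ⟨n, ⟨e⟩⟩ := hS
  have : Fact p.Prime := ⟨hp⟩
  have : NeZero p := ⟨hp.ne_zero⟩
  obtain ⟨H, f, hf⟩ := quot_of_divides hT (divides_equiv e h)
  obtain ⟨Q, iQ, g, eq, hg⟩ := group_of_surj f hf
  have : Finite Q := Finite.of_surjective g hg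
  have hcomm : ∀ x y : Q, x * y = y * x := by
    intro x y
    obtain ⟨a, rfl⟩ := hg x
    obtain ⟨b, rfl⟩ := hg y
    rw [← map_mul, ← map_mul]
    congr 1
    exact Subtype.ext (mul_comm _ _)
  have hexp : ∀ x : Q, x ^ p = 1 := by
    intro x
    obtain ⟨a, rfl⟩ := hg x
    rw [← map_pow]
    have : a ^ p = 1 := by
      apply Subtype.ext
      apply Multiplicative.toAdd.injective
      funext i
      change ((Multiplicative.toAdd ((a : Multiplicative (Fin n → ZMod p)) ^ p)) : Fin n → ZMod p) i = 0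
      rw [toAdd_pow]
      simp
    rw [this, map_one]
  let cQ : CommGroup Q := { iQ with mul_comm := hcomm }
  obtain ⟨m, ⟨l⟩⟩ := @elem_of_exp p _ Q cQ _ hexp
  exact ⟨m, ⟨eq.trans l⟩⟩

theorem cycP_minimal {p : ℕ} (hp : p.Prime) : IsMinimalNonelementary (CycP.{u} p) := by
  have : Fact p.Prime := ⟨hp⟩
  have hz : ∀ n : ℕ, NeZero (p ^ n) := fun n => ⟨pow_ne_zero _ hp.ne_zero⟩
  have hcard : ∀ (S : Semigrp.{u}) (n : ℕ), (S ≃* Multiplicative (ZMod (p ^ n))) →
      Nat.card S = p ^ n := by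
    intro S n e
    have := hz n
    rw [Nat.card_congr e.toEquiv, Nat.card_eq_fintype_card, Fintype.card_multiplicative, ZMod.card]
  refine minimal_of_family ?_ ?_ (fun S hS T hT h => cycP_closed hp hS hT h) ?_ ?_
  · exact ⟨Semigrp.of (ULift.{u} (Multiplicative (ZMod (p ^ 0)))), 0, ⟨MulEquiv.ulift⟩⟩
  · rintro S ⟨n, ⟨e⟩⟩
    have := hz n
    exact ⟨⟨e.symm 1⟩, Finite.of_equiv _ e.symm.toEquiv⟩
  · intro n
    refine ⟨Semigrp.of (ULift.{u} (Multiplicative (ZMod (p ^ n)))), ⟨n, ⟨MulEquiv.ulift⟩⟩, ?_⟩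
    rw [hcard _ n MulEquiv.ulift]
    exact (Nat.lt_pow_self hp.one_lt).le
  · rintro S ⟨m, ⟨e⟩⟩ T ⟨n, ⟨e'⟩⟩ h
    rw [hcard S m e, hcard T n e', Nat.pow_le_pow_iff_right hp.one_lt] at h
    have hd : p ^ m ∣ p ^ n := pow_dvd_pow p h
    let φ : ZMod (p ^ n) →+* ZMod (p ^ m) := ZMod.castHom hd (ZMod (p ^ m))
    have hφ : Function.Surjective φ := ZMod.castHom_surjective hd
    let ψ : Multiplicative (ZMod (p ^ n)) →* Multiplicative (ZMod (p ^ m)) :=
      AddMonoidHom.toMultiplicative φ.toAddMonoidHom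
    have hψ : Function.Surjective ψ := hφ
    refine divides_of_surj ((e.symm : Multiplicative (ZMod (p ^ m)) →ₙ* S).comp
      ((ψ : Multiplicative (ZMod (p ^ n)) →ₙ* Multiplicative (ZMod (p ^ m))).comp
        (e' : T →ₙ* Multiplicative (ZMod (p ^ n))))) ?_
    exact e.symm.surjective.comp (hψ.comp e'.surjective)

theorem elemP_minimal {p : ℕ} (hp : p.Prime) : IsMinimalNonelementary (ElemP.{u} p) := by
  have : Fact p.Prime := ⟨hp⟩
  have : NeZero p := ⟨hp.ne_zero⟩
  have hcard : ∀ (S : Semigrp.{u}) (n : ℕ), (S ≃* Multiplicative (Fin n → ZMod p)) →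
      Nat.card S = p ^ n := by
    intro S n e
    rw [Nat.card_congr e.toEquiv, Nat.card_eq_fintype_card, Fintype.card_multiplicative,
      Fintype.card_fun, ZMod.card, Fintype.card_fin]
  refine minimal_of_family ?_ ?_ (fun S hS T hT h => elemP_closed hp hS hT h) ?_ ?_
  · exact ⟨Semigrp.of (ULift.{u} (Multiplicative (Fin 0 → ZMod p))), 0, ⟨MulEquiv.ulift⟩⟩
  · rintro S ⟨n, ⟨e⟩⟩
    exact ⟨⟨e.symm 1⟩, Finite.of_equiv _ e.symm.toEquiv⟩
  · intro n
    refine ⟨Semigrp.of (ULift.{u} (Multiplicative (Fin n → ZMod p))), ⟨n, ⟨MulEquiv.ulift⟩⟩, ?_⟩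
    rw [hcard _ n MulEquiv.ulift]
    exact (Nat.lt_pow_self hp.one_lt).le
  · rintro S ⟨m, ⟨e⟩⟩ T ⟨n, ⟨e'⟩⟩ h
    rw [hcard S m e, hcard T n e', Nat.pow_le_pow_iff_right hp.one_lt] at h
    let φ : (Fin n → ZMod p) →+ (Fin m → ZMod p) :=
      { toFun := fun x i => x (Fin.castLE h i)
        map_zero' := rfl
        map_add' := fun _ _ => rfl }
    have hφ : Function.Surjective φ := by
      intro y
      refine ⟨fun i => if hi : (i : ℕ) < m then y ⟨i, hi⟩ else 0, ?_⟩
      funext i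
      change (if hi : ((Fin.castLE h i : Fin n) : ℕ) < m then y ⟨_, hi⟩ else 0) = y i
      simp
    let ψ : Multiplicative (Fin n → ZMod p) →* Multiplicative (Fin m → ZMod p) :=
      AddMonoidHom.toMultiplicative φ
    have hψ : Function.Surjective ψ := hφ
    refine divides_of_surj ((e.symm : Multiplicative (Fin m → ZMod p) →ₙ* S).comp
      ((ψ : Multiplicative (Fin n → ZMod p) →ₙ* Multiplicative (Fin m → ZMod p)).comp
        (e' : T →ₙ* Multiplicative (Fin n → ZMod p)))) ?_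
    exact e.symm.surjective.comp (hψ.comp e'.surjective)

end Pool.Agent.MNV
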