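import Mathlib

/-!
# Large abelian groups of bounded exponent
-/

set_option autoImplicit false

namespace Pool.Agent.MNV

universe u

namespace Elem

theorem exists_lin {p : ℕ} [hp : Fact p.Prime] (r : ℕ) (V : Type u) [AddCommGroup V]
    [Module (ZMod p) V] [Finite V] (hc : p ^ r ≤ Nat.card V) :
    ∃ L : (Fin r → ZMod p) →ₗ[ZMod p] V, Function.Injective L := by
  have hcard : Nat.card V = p ^ Module.finrank (ZMod p) V := by
    have h1 := Module.natCard_eq_pow_finrank (K := ZMod p) (V := V)
    rwa [Nat.card_zmod] at h1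
  have hr : r ≤ Module.finrank (ZMod p) V := by
    rw [hcard] at hc
    exact (Nat.pow_le_pow_iff_right hp.1.one_lt).1 hc
  obtain ⟨f, hf⟩ := exists_linearIndependent_of_le_finrank hr
  exact ⟨Fintype.linearCombination (ZMod p) f, linearIndependent_iff_injective_fintypeLinearCombination.1 hf⟩

/-- an elementary abelian `p`-group with at least `p ^ r` elements contains `(ZMod p) ^ r` -/
theorem exists_emb {p : ℕ} [hp : Fact p.Prime] (r : ℕ) (K : Type u) [CommGroup K] [Finite K]
    (h : ∀ x : K, x ^ p = 1) (hc : p ^ r ≤ Nat.card K) :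
    ∃ φ : Multiplicative (Fin r → ZMod p) →* K, Function.Injective φ := by
  let _ : Module (ZMod p) (Additive K) := AddCommGroup.zmodModule (n := p) (by
    intro x
    exact h (Additive.toMul x))
  have : Finite (Additive K) := inferInstanceAs (Finite K)
  obtain ⟨L, hL⟩ := exists_lin (p := p) r (Additive K) hc
  refine ⟨AddMonoidHom.toMultiplicativeLeft L.toAddMonoidHom, ?_⟩
  intro a b hab
  exact hL hab

theorem exists_hom (r : ℕ) : ∀ e : ℕ, 1 ≤ e → ∃ N : ℕ, ∀ (G : Type u) [CommGroup G] [Finite G],
    (∀ x : G, x ^ e = 1) → N ≤ Nat.card G → ∃ p : ℕ, p.Prime ∧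
      ∃ φ : Multiplicative (Fin r → ZMod p) →* G, Function.Injective φ := by
  intro e
  induction e using Nat.strong_induction_on with
  | _ e ih =>
    intro he
    rcases Nat.lt_or_ge 1 e with h1 | h1
    · set p := e.minFac with hp
      have hpp : p.Prime := Nat.minFac_prime h1.ne'
      have hdiv : p ∣ e := Nat.minFac_dvd e
      obtain ⟨N, hN⟩ := ih (e / p) (Nat.div_lt_self (by omega) hpp.one_lt)
        (Nat.div_pos (Nat.le_of_dvd (by omega) hdiv) hpp.pos)
      refine ⟨N * p ^ r + 1, fun G _ _ hx hc => ?_⟩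
      have : Fact p.Prime := ⟨hpp⟩
      set f : G →* G := powMonoidHom p with hf
      have hmul : Nat.card G = Nat.card f.ker * Nat.card f.range := by
        rw [← Subgroup.card_mul_index f.ker, Subgroup.index_ker]
      rcases Nat.lt_or_ge (Nat.card f.ker) (p ^ r) with h2 | h2
      · have h3 : N ≤ Nat.card f.range := by
          by_contra hcon
          push Not at hcon
          have h4 : Nat.card f.ker * Nat.card f.range ≤ p ^ r * N :=
            Nat.mul_le_mul h2.le hcon.le
          rw [← hmul] at h4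
          have h5 : p ^ r * N = N * p ^ r := Nat.mul_comm _ _
          omega
        obtain ⟨q, hq, φ, hφ⟩ := hN f.range (by
          rintro ⟨_, y, rfl⟩
          apply Subtype.ext
          show (y ^ p) ^ (e / p) = 1
          rw [← pow_mul, Nat.mul_div_cancel' hdiv]
          exact hx y) h3
        exact ⟨q, hq, f.range.subtype.comp φ, (Subtype.val_injective).comp hφ⟩
      · obtain ⟨φ, hφ⟩ := exists_emb (p := p) r f.ker (by
          rintro ⟨x, hx'⟩
          apply Subtype.ext
          exact hx') h2
        exact ⟨p, hpp, f.ker.subtype.comp φ, (Subtype.val_injective).comp hφ⟩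
    · refine ⟨2, fun G _ _ hx hc => ?_⟩
      exfalso
      have he1 : e = 1 := by omega
      subst he1
      have : Subsingleton G := ⟨fun a b => by
        rw [← pow_one a, ← pow_one b, hx, hx]⟩
      have := Nat.card_of_subsingleton (1 : G)
      omega

end Elem

/-- large abelian groups of bounded exponent -/
theorem large_elementary (e r : ℕ) (he : 1 ≤ e) : ∃ N : ℕ, ∀ (G : Type u) [CommGroup G] [Finite G],
    (∀ x : G, x ^ e = 1) → N ≤ Nat.card G → ∃ p : ℕ, p.Prime ∧
      ∃ H : Subgroup G, Nonempty (H ≃* Multiplicative (Fin r → ZMod p)) := by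
  obtain ⟨N, hN⟩ := Elem.exists_hom.{u} r e he
  refine ⟨N, fun G _ _ hx hc => ?_⟩
  obtain ⟨p, hp, φ, hφ⟩ := hN G hx hc
  exact ⟨p, hp, φ.range, ⟨(MonoidHom.ofInjective hφ).symm⟩⟩

end Pool.Agent.MNV
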