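import Pool.Agent.MNV.Defs

/-!
# The maximal subgroup at an idempotent
-/

set_option autoImplicit false

namespace Pool.Agent.MNV

universe u

/-- `S` is a group -/
def IsGrp (S : Type u) [Semigroup S] : Prop := ∃ G : Type u, ∃ _ : Group G, Nonempty (S ≃* G)

/-- the maximal subgroup as a subsemigroup -/
def heSub {S : Type u} [Semigroup S] (e : S) : Subsemigroup S where
  carrier := He e
  mul_mem' := by
    rintro a b ⟨ha1, ha2, a', ha3, ha4, ha5, ha6⟩ ⟨hb1, hb2, b', hb3, hb4, hb5, hb6⟩
    refine ⟨by rw [← mul_assoc, ha1], by rw [mul_assoc, hb2], b' * a', ?_, ?_, ?_, ?_⟩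
    · rw [← mul_assoc, hb3]
    · rw [mul_assoc, ha4]
    · calc a * b * (b' * a') = a * (b * b') * a' := by simp only [mul_assoc]
        _ = e := by rw [hb5, ha2, ha5]
    · calc b' * a' * (a * b) = b' * (a' * a) * b := by simp only [mul_assoc]
        _ = e := by rw [ha6, hb4, hb6]

theorem he_idem {S : Type u} [Semigroup S] {e : S} (he : e * e = e) : e ∈ He e :=
  ⟨he, he, e, he, he, he, he⟩

/-- the maximal subgroup as a subsemigroup -/
theorem he_sub {S : Type u} [Semigroup S] {e : S} (he : e * e = e) :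
    ∃ U : Subsemigroup S, (U : Set S) = He e ∧ IsGrp U := by
  classical
  have hinv : ∀ g : heSub e, ∃ h : heSub e, (g : S) * h = e ∧ (h : S) * g = e := by
    rintro ⟨g, hg1, hg2, h, hh1, hh2, hh3, hh4⟩
    exact ⟨⟨h, hh1, hh2, g, hg1, hg2, hh4, hh3⟩, hh3, hh4⟩
  choose inv hinv1 hinv2 using hinv
  let one : heSub e := ⟨e, he_idem he⟩
  let grp : Group (heSub e) :=
    { (inferInstance : Semigroup (heSub e)) with
      one := one
      one_mul := fun g => Subtype.ext g.2.1
      mul_one := fun g => Subtype.ext g.2.2.1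
      inv := inv
      inv_mul_cancel := fun g => Subtype.ext (hinv2 g) }
  exact ⟨heSub e, rfl, heSub e, grp, ⟨MulEquiv.refl _⟩⟩

end Pool.Agent.MNV
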