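import Mathlib
import Pool.Agent.MNV.Defs
import Pool.Agent.MNV.Base
import Pool.Agent.MNV.Ultra
import Pool.Agent.MNV.He
import Pool.Agent.MNV.Abel
import Pool.Agent.MNV.Elem
import Pool.Agent.MNV.Fam3

/-!
# Minimal nonelementary inclusive varieties with large finite groups
-/

set_option autoImplicit false

open Pool.Agent.MNV

namespace Pool.Agent.MNV

universe u v w

namespace GC

/-- a surjective homomorphism gives a divisor -/
theorem divides_of_surjective {S : Type u} {T : Type v} [Semigroup S] [Semigroup T]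
    (f : S →ₙ* T) (hf : Function.Surjective f) : Divides T S := by
  refine ⟨⊤, f.comp (MulMemClass.subtype (⊤ : Subsemigroup S)), ?_⟩
  intro t
  obtain ⟨s, hs⟩ := hf t
  exact ⟨⟨s, Subsemigroup.mem_top s⟩, hs⟩

/-- a subgroup is a divisor -/
theorem divides_subgroup {G : Type u} [Group G] (H : Subgroup G) : Divides H G := by
  refine ⟨H.toSubmonoid.toSubsemigroup, ⟨fun x => ⟨x.1, x.2⟩, fun _ _ => rfl⟩, ?_⟩
  intro t
  exact ⟨⟨t.1, t.2⟩, rfl⟩

/-- a semigroup which is an image of a group is a group -/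
theorem grp_of_surjective {H : Type v} {T : Type u} [Group H] [Semigroup T] (g : H →ₙ* T)
    (hg : Function.Surjective g) : IsGrp T ∧ Nat.card T ∣ Nat.card H := by
  classical
  let pre : T → H := fun t => (hg t).choose
  have hpre : ∀ t, g (pre t) = t := fun t => (hg t).choose_spec
  let _ : One T := ⟨g 1⟩
  let _ : Inv T := ⟨fun t => g (pre t)⁻¹⟩
  let grp : Group T := Group.ofLeftAxioms mul_assoc
    (fun t => by
      have h : g 1 * g (pre t) = g (pre t) := by rw [← map_mul, one_mul]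
      rw [hpre t] at h
      exact h)
    (fun t => by
      have h : g (pre t)⁻¹ * g (pre t) = g 1 := by rw [← map_mul, inv_mul_cancel]
      rw [hpre t] at h
      exact h)
  refine ⟨⟨T, grp, ⟨MulEquiv.refl _⟩⟩, ?_⟩
  let gh : H →* T := MonoidHom.mk' g (fun a b => map_mul g a b)
  exact Subgroup.card_dvd_of_surjective gh hg

/-- nonempty divisors of finite groups are finite groups of smaller order -/
theorem grp_of_divides {S T : Type u} [Semigroup S] [Semigroup T] [Nonempty T] [Finite S]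
    (hS : IsGrp S) (h : Divides T S) :
    Finite T ∧ IsGrp T ∧ Nat.card T ∣ Nat.card S := by
  obtain ⟨G, _, ⟨e⟩⟩ := hS
  obtain ⟨U, f, hf⟩ := h
  have : Finite G := Finite.of_equiv S e.toEquiv
  have hfinT : Finite T := Finite.of_surjective f hf
  obtain ⟨t0⟩ := (inferInstance : Nonempty T)
  obtain ⟨u0, -⟩ := hf t0
  -- the subgroup
  have hpow : ∀ x : G, (∃ y ∈ U, e y = x) → ∀ n : ℕ, (∃ y ∈ U, e y = x ^ (n + 1)) := by
    rintro x ⟨y, hy, rfl⟩ n
    induction n with
    | zero => exact ⟨y, hy, by simp⟩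
    | succ n ih =>
      obtain ⟨z, hz, hz'⟩ := ih
      exact ⟨z * y, U.mul_mem hz hy, by rw [map_mul, hz', pow_succ (e y) (n + 1)]⟩
  have hone : ∃ y ∈ U, e y = 1 := by
    have h1 := hpow (e u0.1) ⟨u0.1, u0.2, rfl⟩ (orderOf (e u0.1) - 1)
    have h2 : 0 < orderOf (e u0.1) := orderOf_pos _
    rwa [Nat.sub_add_cancel h2, pow_orderOf_eq_one] at h1
  have hinv : ∀ x : G, (∃ y ∈ U, e y = x) → ∃ y ∈ U, e y = x⁻¹ := by
    intro x hx
    have h2 : 0 < orderOf x := orderOf_pos _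
    rcases Nat.lt_or_ge 1 (orderOf x) with h3 | h3
    · have h1 := hpow x hx (orderOf x - 2)
      have h4 : x ^ (orderOf x - 2 + 1) = x⁻¹ := by
        rw [eq_inv_iff_mul_eq_one, ← pow_succ]
        have : orderOf x - 2 + 1 + 1 = orderOf x := by omega
        rw [this, pow_orderOf_eq_one]
      rwa [h4] at h1
    · have h4 : x = 1 := by
        rw [← orderOf_eq_one_iff]; omega
      rw [h4, inv_one]; exact hone
  let H : Subgroup G :=
    { carrier := {x | ∃ y ∈ U, e y = x}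
      mul_mem' := by
        rintro _ _ ⟨a, ha, rfl⟩ ⟨b, hb, rfl⟩
        exact ⟨a * b, U.mul_mem ha hb, map_mul e a b⟩
      one_mem' := hone
      inv_mem' := fun {x} hx => hinv x hx }
  have hHmem : ∀ x : H, e.symm x.1 ∈ U := by
    rintro ⟨x, y, hy, rfl⟩
    simpa using hy
  let g : H → T := fun x => f ⟨e.symm x.1, hHmem x⟩
  have gmul : ∀ x y : H, g (x * y) = g x * g y := by
    intro x y
    simp only [g, ← map_mul]
    congr 1
    apply Subtype.ext
    simp
  have gsurj : Function.Surjective g := by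
    intro t
    obtain ⟨y, rfl⟩ := hf t
    refine ⟨⟨e y.1, y.1, y.2, rfl⟩, ?_⟩
    simp only [g]
    congr 1
    apply Subtype.ext
    simp
  obtain ⟨hT, hc⟩ := grp_of_surjective (⟨g, gmul⟩ : H →ₙ* T) gsurj
  refine ⟨hfinT, hT, ?_⟩
  have h2 : Nat.card H ∣ Nat.card G := Subgroup.card_subgroup_dvd_card H
  have h3 : Nat.card G = Nat.card S := (Nat.card_congr e.toEquiv).symm
  rw [← h3]
  exact hc.trans h2

/-- images of members, through a model in the lowest universe -/
theorem mem_image {M : Set Semigrp.{u}} (hM : IsInclusiveVariety M) {A B : Type} [Semigroup A]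
    [Semigroup B] [Nonempty B] (h : ∃ S ∈ M, Nonempty (S ≃* A)) (g : A →ₙ* B)
    (hg : Function.Surjective g) : ∃ S ∈ M, Nonempty (S ≃* B) := by
  obtain ⟨S, hS, ⟨e⟩⟩ := h
  have e2 : ULift.{u} B ≃* B := MulEquiv.ulift
  refine ⟨Semigrp.of (ULift.{u} B), ?_, ⟨e2⟩⟩
  have hne : Nonempty (ULift.{u} B) := inferInstance
  refine mem_of_divides hM hS hne ?_
  have h1 : Divides B S :=
    divides_of_surjective (g.comp (e : S →ₙ* A)) (hg.comp e.surjective)
  exact (divides_of_equiv e2).trans h1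

/-- a copy of a member is a member -/
theorem mem_copy {M : Set Semigrp.{u}} (hM : IsInclusiveVariety M) {A : Type} [Semigroup A]
    [Nonempty A] (h : ∃ S ∈ M, Nonempty (S ≃* A)) {T : Semigrp.{u}} (e : T ≃* A) : T ∈ M := by
  obtain ⟨S, hS, ⟨f⟩⟩ := h
  have hne : Nonempty T := ⟨e.symm (Classical.arbitrary A)⟩
  exact mem_of_divides hM hS hne (divides_of_equiv (e.trans f.symm))

/-- the cyclic group of order `m` is in `M` -/
def Cyc (M : Set Semigrp.{u}) (m : ℕ) : Prop :=
  1 ≤ m ∧ ∃ S ∈ M, Nonempty (S ≃* Multiplicative (ZMod m))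

theorem cyc_dvd {M : Set Semigrp.{u}} (hM : IsInclusiveVariety M) {m d : ℕ} (h : Cyc M m)
    (hd : d ∣ m) : Cyc M d := by
  refine ⟨Nat.pos_of_dvd_of_pos hd h.1, ?_⟩
  let g : Multiplicative (ZMod m) →* Multiplicative (ZMod d) :=
    AddMonoidHom.toMultiplicative (ZMod.castHom hd (ZMod d)).toAddMonoidHom
  refine mem_image hM h.2 (g : Multiplicative (ZMod m) →ₙ* Multiplicative (ZMod d)) ?_
  intro x
  obtain ⟨y, hy⟩ := ZMod.castHom_surjective hd (Multiplicative.toAdd x)
  exact ⟨Multiplicative.ofAdd y, congrArg Multiplicative.ofAdd hy⟩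

theorem cyc_orderOf {M : Set Semigrp.{u}} (hM : IsInclusiveVariety M) {S : Semigrp.{u}}
    (hS : S ∈ M) {G : Type u} [Group G] (hd : Divides G S) (x : G) (hx : 0 < orderOf x) :
    Cyc M (orderOf x) := by
  refine ⟨hx, Semigrp.of (Subgroup.zpowers x), ?_, ?_⟩
  · exact mem_of_divides hM hS (inferInstance : Nonempty (Subgroup.zpowers x))
      ((divides_subgroup _).trans hd)
  · have e := zmodCyclicMulEquiv (G := Subgroup.zpowers x) inferInstance
    rw [Nat.card_zpowers] at e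
    exact ⟨e.symm⟩

/-- the elementary abelian group of rank `r` is in `M` -/
def Ele (M : Set Semigrp.{u}) (p r : ℕ) : Prop :=
  ∃ S ∈ M, Nonempty (S ≃* Multiplicative (Fin r → ZMod p))

theorem ele_le {M : Set Semigrp.{u}} (hM : IsInclusiveVariety M) {p r s : ℕ} (h : Ele M p r)
    (hs : s ≤ r) : Ele M p s := by
  let g : (Fin r → ZMod p) →+ (Fin s → ZMod p) :=
    { toFun := fun f i => f (Fin.castLE hs i)
      map_zero' := rfl
      map_add' := fun _ _ => rfl }
  refine mem_image hM h (AddMonoidHom.toMultiplicative g : Multiplicative (Fin r → ZMod p) →ₙ*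
    Multiplicative (Fin s → ZMod p)) ?_
  intro x
  refine ⟨Multiplicative.ofAdd (fun i : Fin r =>
    if hi : (i : ℕ) < s then Multiplicative.toAdd x ⟨i, hi⟩ else 0), ?_⟩
  apply congrArg Multiplicative.ofAdd (a₂ := Multiplicative.toAdd x)
  funext i
  exact dif_pos i.2

theorem cyc_of_ele {M : Set Semigrp.{u}} (hM : IsInclusiveVariety M) {p r : ℕ} (hp : 1 ≤ p)
    (h : Ele M p (r + 1)) : Cyc M p := by
  refine ⟨hp, ?_⟩
  let g : (Fin (r + 1) → ZMod p) →+ ZMod p :=
    { toFun := fun f => f 0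
      map_zero' := rfl
      map_add' := fun _ _ => rfl }
  refine mem_image hM h (AddMonoidHom.toMultiplicative g : Multiplicative (Fin (r + 1) → ZMod p)
    →ₙ* Multiplicative (ZMod p)) ?_
  intro x
  exact ⟨Multiplicative.ofAdd (fun _ => Multiplicative.toAdd x), rfl⟩

/-- a large subclass of finite semigroups is everything -/
theorem core {M F : Set Semigrp.{u}} (hM : IsMinimalNonelementary M) (hFM : F ⊆ M)
    (hfin : ∀ S ∈ F, Nonempty S ∧ Finite S)
    (hcl : ∀ S ∈ F, ∀ T : Semigrp.{u}, Nonempty T → Divides T S → T ∈ F)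
    (hunb : ∀ n : ℕ, ∃ S ∈ F, n ≤ Nat.card S) : M ⊆ F := by
  by_contra hn
  obtain ⟨S0, hS0, -⟩ := hunb 0
  have hinc := inclusive_of_closed ⟨S0, hS0⟩ hfin hcl
  have hel := hM.2.2 F hinc ⟨hFM, hn⟩
  obtain ⟨S, hS, hinf⟩ := exists_infinite hel (fun n => by
    obtain ⟨S, hS, hn⟩ := hunb n
    exact ⟨S, hS, (hfin S hS).2, hn⟩)
  exact hinf.not_finite (hfin S hS).2

/-- a nonelementary inclusive subclass is everything -/
theorem eq_of_sub {M F : Set Semigrp.{u}} (hM : IsMinimalNonelementary M)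
    (hF : IsMinimalNonelementary F) (hFM : F ⊆ M) : M = F := by
  by_contra hn
  exact hF.2.1 (hM.2.2 F hF.1 (lt_of_le_of_ne hFM fun h => hn h.symm))

theorem case_cyclic {M : Set Semigrp.{u}} (hM : IsMinimalNonelementary M)
    (hA : ∀ n : ℕ, ∃ m ≥ n, Cyc M m) : ∃ p : ℕ, p.Prime ∧ M = CycP p := by
  obtain ⟨m0, hm0, hc0⟩ := hA 2
  have hp : m0.minFac.Prime := Nat.minFac_prime (by omega)
  set p := m0.minFac with hpdef
  have hcp : Cyc M p := cyc_dvd hM.1 hc0 (Nat.minFac_dvd m0)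
  have hB : ∃ B : ℕ, ∀ S ∈ M, Finite S → IsGrp S → ¬ p ∣ Nat.card S → Nat.card S < B := by
    by_contra hn
    push Not at hn
    have hsub : M ⊆ {S : Semigrp.{u} | S ∈ M ∧ Finite S ∧ IsGrp S ∧ ¬ p ∣ Nat.card S} := by
      refine core hM (fun S hS => hS.1) (fun S hS => ⟨nonempty_of_mem hM.1 hS.1, hS.2.1⟩) ?_ ?_
      · rintro S ⟨hS, hfS, hgS, hpS⟩ T hT hd
        obtain ⟨h1, h2, h3⟩ := grp_of_divides hgS hd
        exact ⟨mem_of_divides hM.1 hS hT hd, h1, h2, fun h4 => hpS (h4.trans h3)⟩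
      · intro n
        obtain ⟨S, hS, hfS, hgS, hpS, hn⟩ := hn n
        exact ⟨S, ⟨hS, hfS, hgS, hpS⟩, hn⟩
    obtain ⟨S, hS, ⟨e⟩⟩ := hcp.2
    have h1 : Nat.card S = p := by
      rw [Nat.card_congr e.toEquiv]
      exact (Nat.card_congr Multiplicative.toAdd).trans (Nat.card_zmod p)
    exact (hsub hS).2.2.2 (by rw [h1])
  obtain ⟨B, hB⟩ := hB
  have hall : ∀ n : ℕ, Cyc M (p ^ n) := by
    intro n
    obtain ⟨m, hm, hc⟩ := hA (p ^ n * B)
    obtain ⟨k, m', hm', hmk⟩ := Nat.exists_eq_pow_mul_and_not_dvd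
      (n := m) (by have := hc.1; omega) p hp.ne_one
    have hc' : Cyc M m' := cyc_dvd hM.1 hc ⟨p ^ k, by rw [hmk, mul_comm]⟩
    have hlt : m' < B := by
      obtain ⟨S, hS, ⟨e⟩⟩ := hc'.2
      have : NeZero m' := ⟨by have := hc'.1; omega⟩
      have h1 : Nat.card S = m' := by
        rw [Nat.card_congr e.toEquiv]
        simp
      have h2 : Finite S := Finite.of_equiv _ e.symm.toEquiv
      have h3 : IsGrp S := (grp_of_surjective
        (e.symm : Multiplicative (ZMod m') →ₙ* S) e.symm.surjective).1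
      rw [← h1]
      exact hB S hS h2 h3 (by rw [h1]; exact hm')
    have hpn : 0 < p ^ n := pow_pos hp.pos n
    have h4 : p ^ n * B ≤ p ^ k * m' := by rw [← hmk]; exact hm
    have h5 : p ^ n < p ^ k := by
      by_contra h6
      push Not at h6
      have : p ^ k * m' < p ^ n * B :=
        lt_of_le_of_lt (Nat.mul_le_mul_right m' h6) (Nat.mul_lt_mul_of_pos_left hlt hpn)
      omega
    have h6 : n ≤ k := le_of_lt ((Nat.pow_lt_pow_iff_right hp.one_lt).1 h5)
    exact cyc_dvd hM.1 hc (by rw [hmk]; exact (pow_dvd_pow p h6).trans (Dvd.intro m' rfl))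
  refine ⟨p, hp, eq_of_sub hM (cycP_minimal hp) ?_⟩
  rintro T ⟨n, ⟨e⟩⟩
  exact mem_copy hM.1 (hall n).2 e

theorem case_bounded {M : Set Semigrp.{u}} (hM : IsMinimalNonelementary M)
    (h : ∀ n : ℕ, ∃ S ∈ M, Finite S ∧ n ≤ Nat.card S ∧ IsGrp S) (b : ℕ)
    (hb : ∀ m : ℕ, Cyc M m → m < b) : ∃ p : ℕ, p.Prime ∧ M = ElemP p := by
  have hex : ∀ r : ℕ, ∃ p : ℕ, p.Prime ∧ p < b ∧ Ele M p (r + 1) := by
    intro r
    obtain ⟨N, hN⟩ := large_elementary.{u} (Nat.factorial b) (r + 1) (Nat.factorial_pos b)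
    obtain ⟨N', hN'⟩ := large_abelian.{u} N
    obtain ⟨S, hS, hfS, hcS, G, _, ⟨e⟩⟩ := h N'
    have hfG : Finite G := Finite.of_equiv S e.toEquiv
    have hcG : N' ≤ Nat.card G := by rw [← Nat.card_congr e.toEquiv]; exact hcS
    obtain ⟨H, hH, hcomm⟩ := hN' G hcG
    have hGS : Divides G S := divides_of_equiv e.symm
    have hHS : Divides H S := (divides_subgroup H).trans hGS
    let _ : CommGroup H := { (inferInstance : Group H) with
      mul_comm := fun x y => Subtype.ext (hcomm x.1 x.2 y.1 y.2) }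
    have hexp : ∀ x : H, x ^ (Nat.factorial b) = 1 := by
      intro x
      have hpos : 0 < orderOf x := orderOf_pos x
      have hlt := hb _ (cyc_orderOf hM.1 hS hHS x hpos)
      exact orderOf_dvd_iff_pow_eq_one.1 (Nat.dvd_factorial hpos hlt.le)
    obtain ⟨p, hp, K, ⟨eK⟩⟩ := hN H hexp hH
    have hE : Ele M p (r + 1) := by
      refine ⟨Semigrp.of K, ?_, ⟨eK⟩⟩
      exact mem_of_divides hM.1 hS (inferInstance : Nonempty K) ((divides_subgroup K).trans hHS)
    exact ⟨p, hp, hb p (cyc_of_ele hM.1 hp.one_le hE), hE⟩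
  have hall : ∃ p : ℕ, p.Prime ∧ ∀ r : ℕ, Ele M p r := by
    by_contra hn
    push Not at hn
    have hn' : ∀ p : ℕ, ∃ r : ℕ, p.Prime → ¬ Ele M p r := by
      intro p
      by_cases hp : p.Prime
      · obtain ⟨r, hr⟩ := hn p hp
        exact ⟨r, fun _ => hr⟩
      · exact ⟨0, fun h => absurd h hp⟩
    choose r hr using hn'
    obtain ⟨p, hp, hpb, hE⟩ := hex (∑ q ∈ Finset.range b, r q)
    have h1 : r p ≤ ∑ q ∈ Finset.range b, r q :=
      Finset.single_le_sum (f := r) (fun _ _ => Nat.zero_le _) (Finset.mem_range.2 hpb)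
    exact hr p hp (ele_le hM.1 hE (by omega))
  obtain ⟨p, hp, hall⟩ := hall
  refine ⟨p, hp, eq_of_sub hM (elemP_minimal hp) ?_⟩
  rintro T ⟨n, ⟨e⟩⟩
  exact mem_copy hM.1 (hall n) e

end GC

/-- a minimal nonelementary inclusive variety with arbitrarily large finite groups is the class of
cyclic `p`-groups or the class of finite elementary abelian `p`-groups for some prime `p` -/
theorem group_case {M : Set Semigrp.{u}} (hM : IsMinimalNonelementary M)
    (h : ∀ n : ℕ, ∃ S ∈ M, Finite S ∧ n ≤ Nat.card S ∧ IsGrp S) :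
    ∃ p : ℕ, p.Prime ∧ (M = CycP p ∨ M = ElemP p) := by
  by_cases hA : ∀ n : ℕ, ∃ m ≥ n, GC.Cyc M m
  · obtain ⟨p, hp, h1⟩ := GC.case_cyclic hM hA
    exact ⟨p, hp, Or.inl h1⟩
  · push Not at hA
    obtain ⟨b, hb⟩ := hA
    obtain ⟨p, hp, h1⟩ := GC.case_bounded hM h b (fun m hm => by
      by_contra hn
      exact hb m (not_lt.1 hn) hm)
    exact ⟨p, hp, Or.inr h1⟩

end Pool.Agent.MNV
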