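import Mathlib
import Pool.Agent.MNV.Defs

/-!
# The `J`-preorder and stability in periodic semigroups
-/

set_option autoImplicit false

namespace Pool.Agent.MNV

universe u

variable {S : Type u} [Semigroup S]

theorem Jle.refl (a : S) : Jle a a := ⟨1, 1, by simp⟩

theorem Jle.trans {a b c : S} (h1 : Jle a b) (h2 : Jle b c) : Jle a c := by
  obtain ⟨x, y, h1⟩ := h1
  obtain ⟨z, w, h2⟩ := h2
  refine ⟨x * z, w * y, ?_⟩
  rw [h1, h2]
  simp only [mul_assoc]

theorem jle_mul_right (a x : S) : Jle (a * x) a := ⟨1, x, by simp⟩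

theorem jle_mul_left (x a : S) : Jle (x * a) a := ⟨x, 1, by simp⟩

theorem Jle.of_mul_left {a x y : S} (h : Jle a (x * y)) : Jle a x :=
  h.trans (jle_mul_right x y)

theorem Jle.of_mul_right {a x y : S} (h : Jle a (x * y)) : Jle a y :=
  h.trans (jle_mul_left x y)

/-- a product with a factor in `S` is in `S` -/
theorem exists_coe_mul (y : WithOne S) (e : S) : ∃ s : S, (s : WithOne S) = y * e := by
  cases y with
  | one => exact ⟨e, by simp⟩
  | coe a => exact ⟨a * e, by simp⟩

theorem exists_mul_coe (y : WithOne S) (e : S) : ∃ s : S, (s : WithOne S) = e * y := by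
  cases y with
  | one => exact ⟨e, by simp⟩
  | coe a => exact ⟨e * a, by simp⟩

theorem coe_pw (x : S) (k : ℕ) : ((pw x k : S) : WithOne S) = (x : WithOne S) ^ (k + 1) := by
  induction k with
  | zero => simp [pw]
  | succ k ih => rw [pw, WithOne.coe_mul, ih, ← pow_succ]

/-- in a periodic semigroup every element of `S¹` has an idempotent power -/
theorem Periodic.exists_pow (hS : Periodic S) (x : WithOne S) :
    ∃ k : ℕ, x ^ (k + 1) * x ^ (k + 1) = x ^ (k + 1) := by
  cases x with
  | one => exact ⟨0, by simp⟩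
  | coe a =>
    obtain ⟨k, hk⟩ := hS a
    refine ⟨k, ?_⟩
    rw [← coe_pw, ← WithOne.coe_mul, hk]

theorem iterate_stab {M : Type u} [Monoid M] {a x y : M} (h : a = x * a * y) (k : ℕ) :
    a = x ^ k * a * y ^ k := by
  induction k with
  | zero => simp
  | succ k ih =>
    have : x ^ (k + 1) * a * y ^ (k + 1) = x ^ k * (x * a * y) * y ^ k := by
      rw [pow_succ, pow_succ' y]; simp only [mul_assoc]
    rw [this, ← h, ← ih]

/-- stability, right version -/
theorem stab_right (hS : Periodic S) {a x y : WithOne S} (h : a = x * a * y) :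
    ∃ k : ℕ, a * y ^ (k + 1) = a := by
  obtain ⟨k, hk⟩ := hS.exists_pow y
  refine ⟨k, ?_⟩
  have h1 := iterate_stab h (k + 1)
  calc a * y ^ (k + 1) = (x ^ (k + 1) * a * y ^ (k + 1)) * y ^ (k + 1) := by rw [← h1]
    _ = x ^ (k + 1) * a * (y ^ (k + 1) * y ^ (k + 1)) := by simp only [mul_assoc]
    _ = a := by rw [hk, ← h1]

/-- stability, left version -/
theorem stab_left (hS : Periodic S) {a x y : WithOne S} (h : a = x * a * y) :
    ∃ k : ℕ, x ^ (k + 1) * a = a := by
  obtain ⟨k, hk⟩ := hS.exists_pow x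
  refine ⟨k, ?_⟩
  have h1 := iterate_stab h (k + 1)
  calc x ^ (k + 1) * a = x ^ (k + 1) * (x ^ (k + 1) * a * y ^ (k + 1)) := by rw [← h1]
    _ = (x ^ (k + 1) * x ^ (k + 1)) * a * y ^ (k + 1) := by simp only [mul_assoc]
    _ = a := by rw [hk, ← h1]

/-- `a ≤_J a s` implies `a ∈ a s S¹` -/
theorem exists_of_jle_mul (hS : Periodic S) {a s : S} (h : Jle a (a * s)) :
    ∃ y : WithOne S, (a : WithOne S) = a * s * y := by
  obtain ⟨x, y, h⟩ := h
  have h' : (a : WithOne S) = x * a * (s * y) :=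
    h.trans (by rw [WithOne.coe_mul]; simp only [mul_assoc])
  obtain ⟨k, hk⟩ := stab_right hS h'
  refine ⟨y * (s * y) ^ k, ?_⟩
  rw [pow_succ'] at hk
  nth_rw 1 [← hk]
  simp only [mul_assoc]

/-- `a ≤_J s a` implies `a ∈ S¹ s a` -/
theorem exists_of_jle_mul' (hS : Periodic S) {a s : S} (h : Jle a (s * a)) :
    ∃ x : WithOne S, (a : WithOne S) = x * (s * a) := by
  obtain ⟨x, y, h⟩ := h
  have h' : (a : WithOne S) = (x * s) * a * y :=
    h.trans (by rw [WithOne.coe_mul]; simp only [mul_assoc])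
  obtain ⟨k, hk⟩ := stab_left hS h'
  refine ⟨(x * s) ^ k * x, ?_⟩
  rw [pow_succ] at hk
  nth_rw 1 [← hk]
  simp only [mul_assoc]

/-- `e ≤_J x ≤_J e` for an idempotent `e` implies that `x` is regular -/
theorem reg_of_jle (hS : Periodic S) {e x : S} (h1 : Jle x e) (h2 : Jle e x) (he : e * e = e) :
    Reg x := by
  obtain ⟨a, b, h1⟩ := h1
  obtain ⟨c, d, h2⟩ := h2
  have he' : (e : WithOne S) * e = e := by rw [← WithOne.coe_mul, he]
  have h3 : (e : WithOne S) = (c * a) * e * (b * d) := by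
    rw [h1] at h2
    nth_rw 1 [h2]
    simp only [mul_assoc]
  obtain ⟨k, hk⟩ := stab_right hS h3
  obtain ⟨l, hl⟩ := stab_left hS h3
  have hv : (e : WithOne S) * b * (d * (b * d) ^ k) = e := by
    rw [pow_succ'] at hk
    rw [mul_assoc] at hk
    rw [mul_assoc]
    exact hk
  have hu : ((c * a) ^ l * c) * a * (e : WithOne S) = e := by
    rw [pow_succ] at hl
    simp only [mul_assoc] at hl ⊢
    exact hl
  obtain ⟨s, hs⟩ := exists_coe_mul (d * (b * d) ^ k) e
  obtain ⟨t, ht⟩ := exists_mul_coe ((c * a) ^ l * c) e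
  refine ⟨s * t, ?_⟩
  apply WithOne.coe_injective
  rw [WithOne.coe_mul, WithOne.coe_mul, WithOne.coe_mul, hs, ht, h1]
  generalize d * (b * d) ^ k = v at hv
  generalize (c * a) ^ l * c = u at hu
  calc a * (e : WithOne S) * b * (v * e * (e * u)) * (a * e * b)
      = a * (e * b * v) * (e * e) * (u * a * e) * b := by simp only [mul_assoc]
    _ = a * e * b := by rw [hv, hu, he', mul_assoc a, he', mul_assoc a, he']

end Pool.Agent.MNV
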