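import Mathlib
import Pool.Agent.MNV.Defs
import Pool.Agent.MNV.J

/-!
# Bounded number of idempotents
-/

set_option autoImplicit false

namespace Pool.Agent.MNV

universe u

/-! ### combinatorics -/

/-- independent sets in graphs of bounded degree -/
theorem exists_indep {α : Type u} (r : α → α → Prop) (hr : ∀ a b, r a b → r b a)
    (d : ℕ) : ∀ (n : ℕ) (F : Finset α),
      (∀ a ∈ F, {b ∈ (F : Set α) | r a b}.ncard ≤ d) → n * (d + 1) ≤ F.card →
      ∃ I ⊆ F, I.card = n ∧ ∀ a ∈ I, ∀ b ∈ I, a ≠ b → ¬ r a b := by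
  classical
  intro n
  induction n with
  | zero => intro F _ _; exact ⟨∅, by simp, by simp, by simp⟩
  | succ n ih =>
    intro F hd hF
    have hne : F.Nonempty := by
      rw [← Finset.card_pos]
      have : 0 < (n + 1) * (d + 1) := by positivity
      omega
    obtain ⟨e, he⟩ := hne
    set D : Finset α := F.filter (fun b => r e b) with hDdef
    have hD : D.card ≤ d := by
      have h1 := hd e he
      have h2 : {b ∈ (F : Set α) | r e b} = (D : Set α) := by
        ext b; simp [hDdef]
      rw [h2, Set.ncard_coe_finset] at h1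
      exact h1
    set F' : Finset α := (F \ D).erase e with hF'def
    have hsub : F' ⊆ F := by
      intro x hx
      rw [hF'def, Finset.mem_erase, Finset.mem_sdiff] at hx
      exact hx.2.1
    have hcard : n * (d + 1) ≤ F'.card := by
      have h1 : (F \ D).card ≤ F'.card + 1 := by
        rw [hF'def]
        have := Finset.pred_card_le_card_erase (s := F \ D) (a := e)
        omega
      have h2 : F.card ≤ (F \ D).card + D.card := by
        have := Finset.card_le_card_sdiff_add_card (s := F) (t := D)
        omega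
      have h3 : (n + 1) * (d + 1) = n * (d + 1) + (d + 1) := by ring
      omega
    obtain ⟨I, hI, hIc, hIr⟩ := ih F' (by
      intro a ha
      refine le_trans (Set.ncard_le_ncard ?_ ?_) (hd a (hsub ha))
      · rintro b ⟨hb, hb2⟩
        exact ⟨hsub hb, hb2⟩
      · exact (F.finite_toSet).subset (fun b hb => hb.1)) hcard
    have heI : e ∉ I := by
      intro h
      have := hI h
      rw [hF'def, Finset.mem_erase] at this
      exact this.1 rfl
    have hnr : ∀ b ∈ I, ¬ r e b := by
      intro b hb hb2
      have := hI hb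
      rw [hF'def, Finset.mem_erase, Finset.mem_sdiff, hDdef, Finset.mem_filter] at this
      exact this.2.2 ⟨this.2.1, hb2⟩
    refine ⟨insert e I, ?_, ?_, ?_⟩
    · intro x hx
      rw [Finset.mem_insert] at hx
      rcases hx with rfl | hx
      · exact he
      · exact hsub (hI hx)
    · rw [Finset.card_insert_of_notMem heI, hIc]
    · intro a ha b hb hab hrab
      rw [Finset.mem_insert] at ha hb
      rcases ha with rfl | ha
      · rcases hb with rfl | hb
        · exact hab rfl
        · exact hnr b hb hrab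
      · rcases hb with rfl | hb
        · exact hnr a ha (hr _ _ hrab)
        · exact hIr a ha b hb hab hrab

/-- chain or antichain -/
theorem chain_or_antichain {α : Type u} (a0 : α) (lt : α → α → Prop) (n : ℕ) (hn : 1 ≤ n) :
    ∀ (m : ℕ) (F : Finset α), m * n ≤ F.card →
      (∃ A ⊆ F, A.card = n ∧ ∀ a ∈ A, ∀ b ∈ A, ¬ lt a b) ∨
      ∃ f : ℕ → α, (∀ i < m, f i ∈ F) ∧ ∀ i, i + 1 < m → lt (f (i + 1)) (f i) := by
  classical
  intro m
  induction m with
  | zero =>
    intro F _
    exact Or.inr ⟨fun _ => a0, fun i hi => absurd hi (by omega), fun i hi => absurd hi (by omega)⟩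
  | succ m ih =>
    intro F hF
    set Mx : Finset α := F.filter (fun a => ∀ b ∈ F, ¬ lt a b) with hMx
    by_cases hc : n ≤ Mx.card
    · left
      obtain ⟨A, hA, hAc⟩ := Finset.exists_subset_card_eq hc
      refine ⟨A, fun x hx => (Finset.mem_filter.1 (hA hx)).1, hAc, ?_⟩
      intro a ha b hb
      exact (Finset.mem_filter.1 (hA ha)).2 b ((Finset.mem_filter.1 (hA hb)).1)
    · have hcard : m * n ≤ (F \ Mx).card := by
        have h2 : F.card ≤ (F \ Mx).card + Mx.card := by
          have := Finset.card_le_card_sdiff_add_card (s := F) (t := Mx)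
          omega
        have h3 : (m + 1) * n = m * n + n := by ring
        omega
      rcases ih (F \ Mx) hcard with ⟨A, hA, hAc, hAr⟩ | ⟨f, hf, hfr⟩
      · exact Or.inl ⟨A, fun x hx => (Finset.mem_sdiff.1 (hA hx)).1, hAc, hAr⟩
      · right
        rcases Nat.eq_zero_or_pos m with rfl | hm
        · have hne : F.Nonempty := by
            rw [← Finset.card_pos]
            omega
          obtain ⟨e, he⟩ := hne
          exact ⟨fun _ => e, fun _ _ => he, fun i hi => absurd hi (by omega)⟩
        · have h0 := Finset.mem_sdiff.1 (hf 0 hm)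
          have h1 : ∃ b ∈ F, lt (f 0) b := by
            by_contra hcon
            push Not at hcon
            exact h0.2 (Finset.mem_filter.2 ⟨h0.1, hcon⟩)
          obtain ⟨b, hb, hlt⟩ := h1
          refine ⟨fun i => Nat.casesOn i b (fun j => f j), ?_, ?_⟩
          · intro i hi
            cases i with
            | zero => exact hb
            | succ j => exact (Finset.mem_sdiff.1 (hf j (by omega))).1
          · intro i hi
            cases i with
            | zero => exact hlt
            | succ j => exact hfr j (by omega)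

theorem exists_fin_of_card {α : Type u} {F : Finset α} {n : ℕ} (h : n ≤ F.card) :
    ∃ t : Fin n → α, Function.Injective t ∧ ∀ i, t i ∈ F := by
  have : Nonempty (Fin n ↪ F) := Function.Embedding.nonempty_of_card_le (by simpa using h)
  obtain ⟨g⟩ := this
  exact ⟨fun i => (g i : α), fun i j h => g.injective (Subtype.ext h), fun i => (g i).2⟩

/-! ### idempotents -/

variable {S : Type u} [Semigroup S]

/-- two idempotents `e, f` in a `J`-class with `ef` in the same `J`-class: there is an idempotent
`g` with `g L e` and `g R f` -/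
theorem exists_LR (hS : Periodic S) {e f : S} (he : e * e = e) (hf : f * f = f)
    (h1 : Jle e (e * f)) (h2 : Jle f (e * f)) :
    ∃ g : S, g * e = g ∧ e * g = e ∧ f * g = g ∧ g * f = f := by
  obtain ⟨y, hy⟩ := exists_of_jle_mul hS h1
  obtain ⟨x, hx⟩ := exists_of_jle_mul' hS h2
  -- `s = y e`, `t = f x`
  obtain ⟨s, hs⟩ := exists_coe_mul y e
  obtain ⟨t, ht⟩ := exists_mul_coe x f
  have hs' : e * f * s = e := by
    apply WithOne.coe_injective
    rw [WithOne.coe_mul, WithOne.coe_mul, hs, ← mul_assoc, ← hy, ← WithOne.coe_mul, he]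
  have ht' : t * (e * f) = f := by
    apply WithOne.coe_injective
    rw [WithOne.coe_mul, WithOne.coe_mul, ht, mul_assoc, ← hx, ← WithOne.coe_mul, hf]
  have hse : s * e = s := by
    apply WithOne.coe_injective
    rw [WithOne.coe_mul, hs, mul_assoc, ← WithOne.coe_mul, he]
  refine ⟨f * s, ?_, ?_, ?_, ?_⟩
  · rw [mul_assoc, hse]
  · rw [← mul_assoc, hs']
  · rw [← mul_assoc, hf]
  · calc f * s * f = t * (e * f) * s * f := by rw [ht']
      _ = t * ((e * f * s) * f) := by simp only [mul_assoc]
      _ = f := by rw [hs', ht']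

/-- for fixed `e` at most `n * n` idempotents `f` have `ef` in the `J`-class of both -/
theorem deg_right (hS : Periodic S) {n : ℕ} (hL : ¬ DivLeft n S) (hR : ¬ DivRight n S) {e : S}
    (he : e * e = e) (F : Finset S)
    (hF : ∀ f ∈ F, f * f = f ∧ Jle e (e * f) ∧ Jle f (e * f)) : F.card ≤ n * n := by
  classical
  have h : ∀ f : S, ∃ g : S, f ∈ F → (g * e = g ∧ e * g = e ∧ f * g = g ∧ g * f = f) := by
    intro f
    by_cases hf : f ∈ F
    · obtain ⟨g, hg⟩ := exists_LR hS he (hF f hf).1 (hF f hf).2.1 (hF f hf).2.2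
      exact ⟨g, fun _ => hg⟩
    · exact ⟨f, fun h => absurd h hf⟩
  choose g hg using h
  have hG : (F.image g).card ≤ n := by
    by_contra hcon
    push Not at hcon
    obtain ⟨t, ht, htm⟩ := exists_fin_of_card (F := F.image g) (n := n) hcon.le
    apply hL
    refine ⟨t, ht, ?_⟩
    intro i j
    obtain ⟨f, hf, hfi⟩ := Finset.mem_image.1 (htm i)
    obtain ⟨f', hf', hfj⟩ := Finset.mem_image.1 (htm j)
    rw [← hfi, ← hfj]
    calc g f * g f' = (g f * e) * g f' := by rw [(hg f hf).1]
      _ = g f * (e * g f') := by rw [mul_assoc]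
      _ = g f := by rw [(hg f' hf').2.1, (hg f hf).1]
  have hfib : ∀ a ∈ F.image g, (F.filter (fun f => g f = a)).card ≤ n := by
    intro a ha
    by_contra hcon
    push Not at hcon
    obtain ⟨t, ht, htm⟩ := exists_fin_of_card (F := F.filter (fun f => g f = a)) (n := n) hcon.le
    apply hR
    refine ⟨t, ht, ?_⟩
    intro i j
    obtain ⟨hi1, hi2⟩ := Finset.mem_filter.1 (htm i)
    obtain ⟨hj1, hj2⟩ := Finset.mem_filter.1 (htm j)
    have hi3 := (hg _ hi1).2.2.1
    have hj3 := (hg _ hj1).2.2.2
    rw [hi2] at hi3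
    rw [hj2] at hj3
    calc t i * t j = t i * (a * t j) := by rw [hj3]
      _ = (t i * a) * t j := by rw [mul_assoc]
      _ = t j := by rw [hi3, hj3]
  calc F.card ≤ n * (F.image g).card :=
        Finset.card_le_mul_card_image_of_maps_to
          (fun x hx => Finset.mem_image_of_mem g hx) n hfib
    _ ≤ n * n := Nat.mul_le_mul_left n hG

/-- for fixed `e` at most `n * n` idempotents `f` have `fe` in the `J`-class of both -/
theorem deg_left (hS : Periodic S) {n : ℕ} (hL : ¬ DivLeft n S) (hR : ¬ DivRight n S) {e : S}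
    (he : e * e = e) (F : Finset S)
    (hF : ∀ f ∈ F, f * f = f ∧ Jle e (f * e) ∧ Jle f (f * e)) : F.card ≤ n * n := by
  classical
  have h : ∀ f : S, ∃ g : S, f ∈ F → (g * f = g ∧ f * g = f ∧ e * g = g ∧ g * e = e) := by
    intro f
    by_cases hf : f ∈ F
    · obtain ⟨g, hg⟩ := exists_LR hS (hF f hf).1 he (hF f hf).2.2 (hF f hf).2.1
      exact ⟨g, fun _ => hg⟩
    · exact ⟨f, fun h => absurd h hf⟩
  choose g hg using h
  have hG : (F.image g).card ≤ n := by
    by_contra hcon
    push Not at hcon
    obtain ⟨t, ht, htm⟩ := exists_fin_of_card (F := F.image g) (n := n) hcon.le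
    apply hR
    refine ⟨t, ht, ?_⟩
    intro i j
    obtain ⟨f, hf, hfi⟩ := Finset.mem_image.1 (htm i)
    obtain ⟨f', hf', hfj⟩ := Finset.mem_image.1 (htm j)
    rw [← hfi, ← hfj]
    calc g f * g f' = g f * (e * g f') := by rw [(hg f' hf').2.2.1]
      _ = (g f * e) * g f' := by rw [mul_assoc]
      _ = g f' := by rw [(hg f hf).2.2.2, (hg f' hf').2.2.1]
  have hfib : ∀ a ∈ F.image g, (F.filter (fun f => g f = a)).card ≤ n := by
    intro a ha
    by_contra hcon
    push Not at hcon
    obtain ⟨t, ht, htm⟩ := exists_fin_of_card (F := F.filter (fun f => g f = a)) (n := n) hcon.le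
    apply hL
    refine ⟨t, ht, ?_⟩
    intro i j
    obtain ⟨hi1, hi2⟩ := Finset.mem_filter.1 (htm i)
    obtain ⟨hj1, hj2⟩ := Finset.mem_filter.1 (htm j)
    have hi3 := (hg _ hi1).2.1
    have hj3 := (hg _ hj1).1
    rw [hi2] at hi3
    rw [hj2] at hj3
    calc t i * t j = (t i * a) * t j := by rw [hi3]
      _ = t i * (a * t j) := by rw [mul_assoc]
      _ = t i := by rw [hj3, hi3]
  calc F.card ≤ n * (F.image g).card :=
        Finset.card_le_mul_card_image_of_maps_to
          (fun x hx => Finset.mem_image_of_mem g hx) n hfib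
    _ ≤ n * n := Nat.mul_le_mul_left n hG

/-- a flat divisor from idempotents whose products are below none of them -/
theorem divFlat_of {n : ℕ} (t : Fin n → S) (ht : Function.Injective t) (hi : ∀ i, t i * t i = t i)
    (h : ∀ i j, i ≠ j → ∀ k, ¬ Jle (t k) (t i * t j)) : DivFlat n S := by
  refine ⟨⊤, {x | ∀ k, ¬ Jle (t k) x}, t, ?_, ht, fun _ => trivial, ?_, hi, h⟩
  · intro x hx y _
    exact ⟨fun k hk => hx k hk.of_mul_left, fun k hk => hx k hk.of_mul_right⟩
  · intro i hcon
    exact hcon i (Jle.refl _)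

/-- one step down in a chain of idempotents -/
theorem chain_step {f e : S} (hf : f * f = f) (he : e * e = e) (h : Jle e f) :
    ∃ g : S, g * g = g ∧ f * g = g ∧ g * f = g ∧ Jle g e ∧ Jle e g := by
  obtain ⟨x, y, h⟩ := h
  have he' : (e : WithOne S) * e = e := by rw [← WithOne.coe_mul, he]
  have hf' : (f : WithOne S) * f = f := by rw [← WithOne.coe_mul, hf]
  obtain ⟨s, hs⟩ := exists_mul_coe y f
  obtain ⟨t, ht⟩ := exists_coe_mul x f
  -- `g = f y e x f`
  have hg : ((s * e * t : S) : WithOne S) = f * y * e * (x * f) := by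
    rw [WithOne.coe_mul, WithOne.coe_mul, hs, ht]
  refine ⟨s * e * t, ?_, ?_, ?_, ?_, ?_⟩
  · apply WithOne.coe_injective
    rw [WithOne.coe_mul, hg]
    calc (f : WithOne S) * y * e * (x * f) * (f * y * e * (x * f))
        = f * y * e * (x * (f * f) * y) * e * (x * f) := by simp only [mul_assoc]
      _ = f * y * ((e * e) * e) * (x * f) := by rw [hf', ← h]; simp only [mul_assoc]
      _ = _ := by rw [he', he']
  · apply WithOne.coe_injective
    rw [WithOne.coe_mul, hg]
    calc (f : WithOne S) * (f * y * e * (x * f)) = (f * f) * y * e * (x * f) := by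
          simp only [mul_assoc]
      _ = _ := by rw [hf']
  · apply WithOne.coe_injective
    rw [WithOne.coe_mul, hg]
    calc (f : WithOne S) * y * e * (x * f) * f = f * y * e * (x * (f * f)) := by
          simp only [mul_assoc]
      _ = _ := by rw [hf']
  · exact ⟨f * y, x * f, by rw [hg]⟩
  · refine ⟨x, y, ?_⟩
    rw [hg]
    calc (e : WithOne S) = (e * e) * e := by rw [he', he']
      _ = (x * f * y) * e * (x * f * y) := by rw [← h]
      _ = _ := by simp only [mul_assoc]

/-- a strictly descending `J`-chain of idempotents gives a chain -/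
theorem divChain_of {n : ℕ} (e : ℕ → S) (he : ∀ i, e i * e i = e i)
    (hle : ∀ i, Jle (e (i + 1)) (e i)) (hlt : ∀ i, i + 1 < n → ¬ Jle (e i) (e (i + 1))) :
    DivChain n S := by
  -- the lifted chain
  have step : ∀ (i : ℕ) (f : {f : S // f * f = f ∧ Jle f (e i) ∧ Jle (e i) f}),
      ∃ g : {g : S // g * g = g ∧ Jle g (e (i + 1)) ∧ Jle (e (i + 1)) g},
        f.1 * g.1 = g.1 ∧ g.1 * f.1 = g.1 := by
    rintro i ⟨f, hf, hf1, hf2⟩
    obtain ⟨g, hg, h1, h2, h3, h4⟩ := chain_step hf (he (i + 1)) ((hle i).trans hf2)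
    exact ⟨⟨g, hg, h3, h4⟩, h1, h2⟩
  choose nxt hnxt using step
  let T : ∀ i : ℕ, {f : S // f * f = f ∧ Jle f (e i) ∧ Jle (e i) f} := fun i =>
    Nat.rec ⟨e 0, he 0, Jle.refl _, Jle.refl _⟩ (fun i f => nxt i f) i
  have hT : ∀ i, (T i).1 * (T (i + 1)).1 = (T (i + 1)).1 ∧
      (T (i + 1)).1 * (T i).1 = (T (i + 1)).1 := fun i => hnxt i (T i)
  have hmul : ∀ i k, (T i).1 * (T (i + k)).1 = (T (i + k)).1 ∧
      (T (i + k)).1 * (T i).1 = (T (i + k)).1 := by
    intro i k
    induction k with
    | zero => exact ⟨(T i).2.1, (T i).2.1⟩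
    | succ k ih =>
      obtain ⟨h1, h2⟩ := hT (i + k)
      rw [← add_assoc]
      constructor
      · calc (T i).1 * (T (i + k + 1)).1 = (T i).1 * ((T (i + k)).1 * (T (i + k + 1)).1) := by
              rw [h1]
          _ = ((T i).1 * (T (i + k)).1) * (T (i + k + 1)).1 := by rw [mul_assoc]
          _ = _ := by rw [ih.1, h1]
      · calc (T (i + k + 1)).1 * (T i).1 = ((T (i + k + 1)).1 * (T (i + k)).1) * (T i).1 := by
              rw [h2]
          _ = (T (i + k + 1)).1 * ((T (i + k)).1 * (T i).1) := by rw [mul_assoc]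
          _ = _ := by rw [ih.2, h2]
  have hle' : ∀ i k, Jle (e (i + k)) (e i) := by
    intro i k
    induction k with
    | zero => exact Jle.refl _
    | succ k ih => exact (hle (i + k)).trans ih
  have hne : ∀ i k, i + k + 1 < n → (T i).1 ≠ (T (i + k + 1)).1 := by
    intro i k hk h
    have h1 : Jle (e i) (T i).1 := (T i).2.2.2
    rw [h] at h1
    have h2 : Jle (e i) (e (i + k + 1)) := h1.trans (T (i + k + 1)).2.2.1
    have h3 : Jle (e i) (e (i + 1)) := by
      have := hle' (i + 1) k
      rw [show i + 1 + k = i + k + 1 from by ring] at this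
      exact h2.trans this
    exact hlt i (by omega) h3
  refine ⟨fun i => (T i).1, ?_, ?_⟩
  · intro i j hij
    by_contra hne2
    rcases lt_or_gt_of_ne (fun h => hne2 (Fin.ext h) : (i : ℕ) ≠ j) with hlt | hlt
    · obtain ⟨k, hk⟩ := Nat.exists_eq_add_of_lt hlt
      have := hne i k (by rw [← hk]; exact j.2)
      rw [← hk] at this
      exact this hij
    · obtain ⟨k, hk⟩ := Nat.exists_eq_add_of_lt hlt
      have := hne j k (by rw [← hk]; exact i.2)
      rw [← hk] at this
      exact this hij.symm
  · intro i j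
    rcases le_total i j with hle | hle
    · obtain ⟨k, hk⟩ := Nat.exists_eq_add_of_le (show (i : ℕ) ≤ j from hle)
      have := (hmul i k).1
      rw [← hk] at this
      rw [max_eq_right hle]
      exact this
    · obtain ⟨k, hk⟩ := Nat.exists_eq_add_of_le (show (j : ℕ) ≤ i from hle)
      have := (hmul j k).2
      rw [← hk] at this
      rw [max_eq_left hle]
      exact this

theorem no_large_finset {n : ℕ} (hS : Periodic S) (hL : ¬ DivLeft n S) (hR : ¬ DivRight n S)
    (hC : ¬ DivChain n S) (hF : ¬ DivFlat n S) (F : Finset S) (hid : ∀ e ∈ F, e * e = e) :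
    F.card < n * (n * (2 * (n * n) + 1)) := by
  classical
  by_contra hcon
  push Not at hcon
  have hn : 1 ≤ n := by
    rcases Nat.eq_zero_or_pos n with rfl | h
    · exact absurd ⟨fun i => i.elim0, fun i => i.elim0, fun i => i.elim0⟩ hL
    · exact h
  have hpos : 1 ≤ n * (2 * (n * n) + 1) := Nat.one_le_iff_ne_zero.2 (by positivity)
  have hne : F.Nonempty := by
    rw [← Finset.card_pos]
    exact lt_of_lt_of_le (by positivity) hcon
  obtain ⟨a0, -⟩ := hne
  rcases chain_or_antichain a0 (fun a b : S => Jle a b ∧ ¬ Jle b a)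
    (n * (2 * (n * n) + 1)) hpos n F hcon with ⟨A, hA, hAc, hAr⟩ | ⟨f, hf, hfr⟩
  · have hAr' : ∀ a ∈ A, ∀ b ∈ A, Jle a b → Jle b a := by
      intro a ha b hb hab
      by_contra h
      exact hAr a ha b hb ⟨hab, h⟩
    have hdeg : ∀ a ∈ A, {b ∈ (A : Set S) | (∃ k ∈ A, Jle k (a * b)) ∨ ∃ k ∈ A, Jle k (b * a)}.ncard
        ≤ 2 * (n * n) := by
      intro a ha
      have h1 := deg_right hS hL hR (hid a (hA ha))
        (A.filter (fun b => Jle a (a * b) ∧ Jle b (a * b))) (by
          intro b hb
          obtain ⟨hb1, hb2⟩ := Finset.mem_filter.1 hb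
          exact ⟨hid b (hA hb1), hb2⟩)
      have h2 := deg_left hS hL hR (hid a (hA ha))
        (A.filter (fun b => Jle a (b * a) ∧ Jle b (b * a))) (by
          intro b hb
          obtain ⟨hb1, hb2⟩ := Finset.mem_filter.1 hb
          exact ⟨hid b (hA hb1), hb2⟩)
      have h3 : {b ∈ (A : Set S) | (∃ k ∈ A, Jle k (a * b)) ∨ ∃ k ∈ A, Jle k (b * a)} ⊆
          ((A.filter (fun b => Jle a (a * b) ∧ Jle b (a * b)) ∪
            A.filter (fun b => Jle a (b * a) ∧ Jle b (b * a)) : Finset S) : Set S) := by
        rintro b ⟨hb, ⟨k, hk, h⟩ | ⟨k, hk, h⟩⟩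
        · have hka := h.of_mul_left
          have hkb := h.of_mul_right
          have hak := hAr' k hk a ha hka
          have hbk := hAr' k hk b hb hkb
          rw [Finset.coe_union]
          left
          exact Finset.mem_coe.2 (Finset.mem_filter.2 ⟨hb, hak.trans h, hbk.trans h⟩)
        · have hka := h.of_mul_right
          have hkb := h.of_mul_left
          have hak := hAr' k hk a ha hka
          have hbk := hAr' k hk b hb hkb
          rw [Finset.coe_union]
          right
          exact Finset.mem_coe.2 (Finset.mem_filter.2 ⟨hb, hak.trans h, hbk.trans h⟩)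
      refine le_trans (Set.ncard_le_ncard h3 (Finset.finite_toSet _)) ?_
      rw [Set.ncard_coe_finset]
      refine le_trans (Finset.card_union_le _ _) ?_
      omega
    obtain ⟨I, hI, hIc, hIr⟩ := exists_indep
      (fun a b : S => (∃ k ∈ A, Jle k (a * b)) ∨ ∃ k ∈ A, Jle k (b * a))
      (fun a b h => h.symm) (2 * (n * n)) n A hdeg hAc.ge
    obtain ⟨t, ht, htm⟩ := exists_fin_of_card (F := I) (n := n) hIc.ge
    apply hF
    apply divFlat_of t ht
    · intro i
      exact hid _ (hA (hI (htm i)))
    · intro i j hij k hk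
      exact hIr _ (htm i) _ (htm j) (fun h => hij (ht h)) (Or.inl ⟨t k, hI (htm k), hk⟩)
  · apply hC
    apply divChain_of (fun i => f (min i (n - 1)))
    · intro i
      exact hid _ (hf _ (by omega))
    · intro i
      by_cases hi : i + 1 < n
      · have h1 : min (i + 1) (n - 1) = i + 1 := by omega
        have h2 : min i (n - 1) = i := by omega
        simp only [h1, h2]
        exact (hfr i hi).1
      · have h1 : min (i + 1) (n - 1) = n - 1 := by omega
        have h2 : min i (n - 1) = n - 1 := by omega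
        simp only [h1, h2]
        exact Jle.refl _
    · intro i hi
      have h1 : min (i + 1) (n - 1) = i + 1 := by omega
      have h2 : min i (n - 1) = i := by omega
      simp only [h1, h2]
      exact (hfr i hi).2

/-- a periodic semigroup without large left zero, right zero, chain and flat divisors has boundedly
many idempotents -/
theorem idem_bound (n : ℕ) : ∃ B : ℕ, ∀ (S : Type u) [Semigroup S], Periodic S → ¬ DivLeft n S →
    ¬ DivRight n S → ¬ DivChain n S → ¬ DivFlat n S →
      {e : S | e * e = e}.Finite ∧ {e : S | e * e = e}.ncard ≤ B := by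
  refine ⟨n * (n * (2 * (n * n) + 1)), ?_⟩
  intro S _ hS hL hR hC hF
  have hfin : {e : S | e * e = e}.Finite := by
    by_contra hcon
    obtain ⟨F, hF1, hF2⟩ := Set.Infinite.exists_subset_card_eq hcon (n * (n * (2 * (n * n) + 1)))
    exact absurd hF2 (no_large_finset hS hL hR hC hF F (fun e he => hF1 he)).ne
  refine ⟨hfin, ?_⟩
  rw [Set.ncard_eq_toFinset_card _ hfin]
  exact (no_large_finset hS hL hR hC hF hfin.toFinset
    (fun e he => by simpa using! he)).le

end Pool.Agent.MNV
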