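import Mathlib
import Pool.Agent.MNV.Defs

/-!
# Nil quotients: bounded if there are no large null divisors
-/

set_option autoImplicit false

namespace Pool.Agent.MNV

universe u

namespace NilB

variable {S : Type u} [Semigroup S]

/-- products of exactly `k + 1` letters of `A` -/
def L (A : Set S) : ℕ → Set S
  | 0 => A
  | (k + 1) => {z | ∃ x ∈ L A k, ∃ a ∈ A, z = x * a}

theorem L_mul {A : Set S} {i : ℕ} {x : S} (hx : x ∈ L A i) : ∀ {j : ℕ} {y : S}, y ∈ L A j →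
    x * y ∈ L A (i + j + 1) := by
  intro j
  induction j with
  | zero =>
    intro y hy
    exact ⟨x, hx, y, hy, rfl⟩
  | succ j ih =>
    rintro y ⟨y', hy', a, ha, rfl⟩
    exact ⟨x * y', ih hy', a, ha, (mul_assoc _ _ _).symm⟩

theorem L_prefix {A : Set S} {i : ℕ} : ∀ {j : ℕ} {x : S}, x ∈ L A (i + j + 1) →
    ∃ y ∈ L A i, ∃ r ∈ L A j, x = y * r := by
  intro j
  induction j with
  | zero =>
    rintro x ⟨y, hy, a, ha, rfl⟩
    exact ⟨y, hy, a, ha, rfl⟩
  | succ j ih =>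
    rintro x ⟨x', hx', a, ha, rfl⟩
    obtain ⟨y, hy, r, hr, rfl⟩ := ih hx'
    exact ⟨y, hy, r * a, ⟨r, hr, a, ha, rfl⟩, mul_assoc _ _ _⟩

theorem L_sub {A : Set S} {V : Subsemigroup S} (h : ∀ a ∈ A, a ∈ V) : ∀ {k : ℕ} {x : S},
    x ∈ L A k → x ∈ V := by
  intro k
  induction k with
  | zero => intro x hx; exact h x hx
  | succ k ih =>
    rintro x ⟨y, hy, a, ha, rfl⟩
    exact V.mul_mem (ih hy) (h a ha)

/-- the subsemigroup generated by `A` -/
def U (A : Set S) : Subsemigroup S where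
  carrier := {x | ∃ k, x ∈ L A k}
  mul_mem' := by
    rintro x y ⟨i, hi⟩ ⟨j, hj⟩
    exact ⟨_, L_mul hi hj⟩

theorem mem_U {A : Set S} {x : S} : x ∈ U A ↔ ∃ k, x ∈ L A k := Iff.rfl

theorem L_card {A : Set S} (hA : A.Finite) (k : ℕ) :
    (L A k).Finite ∧ (L A k).ncard ≤ A.ncard ^ (k + 1) := by
  induction k with
  | zero => exact ⟨hA, by rw [Nat.zero_add, pow_one]; exact le_rfl⟩
  | succ k ih =>
    have h1 : L A (k + 1) = (fun p : S × S => p.1 * p.2) '' (L A k ×ˢ A) := by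
      ext z
      constructor
      · rintro ⟨x, hx, a, ha, rfl⟩
        exact ⟨(x, a), ⟨hx, ha⟩, rfl⟩
      · rintro ⟨⟨x, a⟩, ⟨hx, ha⟩, rfl⟩
        exact ⟨x, hx, a, ha, rfl⟩
    have h2 : (L A k ×ˢ A).Finite := ih.1.prod hA
    refine ⟨by rw [h1]; exact h2.image _, ?_⟩
    rw [h1]
    calc ((fun p : S × S => p.1 * p.2) '' (L A k ×ˢ A)).ncard ≤ (L A k ×ˢ A).ncard :=
          Set.ncard_image_le h2
      _ = (L A k).ncard * A.ncard := Set.ncard_prod
      _ ≤ A.ncard ^ (k + 1) * A.ncard := Nat.mul_le_mul_right _ ih.2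
      _ = A.ncard ^ (k + 1 + 1) := (pow_succ _ _).symm

/-! ### powers -/

theorem pw_comm (y : S) (k : ℕ) : pw y k * y = y * pw y k := by
  induction k with
  | zero => rfl
  | succ k ih =>
    change pw y k * y * y = y * (pw y k * y)
    rw [ih, mul_assoc y (pw y k) y, ih]

theorem left_pw {a x : S} (h : a = x * a) (k : ℕ) : a = pw x k * a := by
  induction k with
  | zero => exact h
  | succ k ih =>
    change a = pw x k * x * a
    rw [mul_assoc, ← h]
    exact ih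

theorem right_pw {a y : S} (h : a = a * y) (k : ℕ) : a = a * pw y k := by
  induction k with
  | zero => exact h
  | succ k ih =>
    change a = a * (pw y k * y)
    rw [← mul_assoc, ← ih]
    exact h

theorem both_pw {a x y : S} (h : a = x * a * y) (k : ℕ) : a = pw x k * a * pw y k := by
  induction k with
  | zero => exact h
  | succ k ih =>
    change a = pw x k * x * a * (pw y k * y)
    rw [pw_comm y k]
    have h1 : pw x k * x * a * (y * pw y k) = pw x k * (x * a * y) * pw y k := by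
      simp only [mul_assoc]
    rw [h1, ← h]
    exact ih

/-! ### letters -/

theorem letter {A : Set S} {a : S} : ∀ {k : ℕ} {z : S}, z ∈ L A k →
    z ∈ L (A \ {a}) k ∨ (k = 0 ∧ z = a) ∨ (∃ x ∈ U A, z = x * a) ∨ (∃ y ∈ U A, z = a * y) ∨
      ∃ x ∈ U A, ∃ y ∈ U A, z = x * a * y := by
  intro k
  induction k with
  | zero =>
    intro z hz
    by_cases h : z = a
    · exact Or.inr (Or.inl ⟨rfl, h⟩)
    · exact Or.inl ⟨hz, h⟩
  | succ k ih =>
    rintro z ⟨z', hz', c, hc, rfl⟩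
    have hcU : c ∈ U A := ⟨0, hc⟩
    rcases ih hz' with h | ⟨_, rfl⟩ | ⟨x, hx, rfl⟩ | ⟨y, hy, rfl⟩ | ⟨x, hx, y, hy, rfl⟩
    · by_cases hca : c = a
      · subst hca
        exact Or.inr (Or.inr (Or.inl ⟨z', ⟨k, hz'⟩, rfl⟩))
      · exact Or.inl ⟨z', h, c, ⟨hc, hca⟩, rfl⟩
    · exact Or.inr (Or.inr (Or.inr (Or.inl ⟨c, hcU, rfl⟩)))
    · exact Or.inr (Or.inr (Or.inr (Or.inr ⟨x, hx, c, hcU, rfl⟩)))
    · exact Or.inr (Or.inr (Or.inr (Or.inl ⟨y * c, (U A).mul_mem hy hcU, mul_assoc _ _ _⟩)))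
    · exact Or.inr (Or.inr (Or.inr (Or.inr ⟨x, hx, y * c, (U A).mul_mem hy hcU,
        mul_assoc _ _ _⟩)))

/-- a letter which is a longer product is superfluous or in the ideal -/
theorem letter_long {A : Set S} {V : Subsemigroup S} {I : Set S} (hI : IsIdealOf V I)
    (hp : ∀ x ∈ V, ∃ k, pw x k ∈ I) (hA : ∀ a ∈ A, a ∈ V) {a : S} (ha : a ∈ A) (haI : a ∉ I)
    {k : ℕ} (hk : 1 ≤ k) (h : a ∈ L A k) : a ∈ L (A \ {a}) k := by
  have hU : ∀ x ∈ U A, x ∈ V := fun x ⟨j, hj⟩ => L_sub hA hj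
  have haV := hA a ha
  have hpV : ∀ x ∈ V, ∀ j, pw x j ∈ V := by
    intro x hx j
    induction j with
    | zero => exact hx
    | succ j ih => exact V.mul_mem ih hx
  rcases letter (a := a) h with h | ⟨h, _⟩ | ⟨x, hx, h⟩ | ⟨y, hy, h⟩ | ⟨x, hx, y, hy, h⟩
  · exact h
  · omega
  · exfalso
    obtain ⟨j, hj⟩ := hp x (hU x hx)
    apply haI
    rw [left_pw h j]
    exact (hI _ hj a haV).1
  · exfalso
    obtain ⟨j, hj⟩ := hp y (hU y hy)
    apply haI
    rw [right_pw h j]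
    exact (hI _ hj a haV).2
  · exfalso
    obtain ⟨j, hj⟩ := hp x (hU x hx)
    apply haI
    rw [both_pw h j, mul_assoc]
    exact (hI _ hj _ (V.mul_mem haV (hpV y (hU y hy) j))).1

/-- few letters -/
theorem few {n : ℕ} {A : Finset S} {V : Subsemigroup S} {I : Set S} (hI : IsIdealOf V I)
    (hA : ∀ a ∈ A, a ∈ V) (hAI : ∀ a ∈ A, a ∉ I)
    (hl : ∀ a ∈ A, ∀ k, 1 ≤ k → a ∉ L (A : Set S) k) (hn : ¬ DivNull n S) : A.card < n := by
  by_contra hc
  push Not at hc
  apply hn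
  have hU : ∀ x ∈ U (A : Set S), x ∈ V := fun x ⟨j, hj⟩ => L_sub (by simpa using hA) hj
  refine ⟨U (A : Set S), {z | (∃ k, 1 ≤ k ∧ z ∈ L (A : Set S) k) ∨ z ∈ I},
    fun i => ((A.equivFin.symm (Fin.castLE hc i) : A) : S), ?_, ?_, ?_, ?_, ?_⟩
  · rintro x hx y ⟨j, hj⟩
    rcases hx with ⟨k, hk, hx⟩ | hx
    · exact ⟨Or.inl ⟨_, by omega, L_mul hx hj⟩, Or.inl ⟨_, by omega, L_mul hj hx⟩⟩
    · have h1 := hI x hx y (hU y ⟨j, hj⟩)
      exact ⟨Or.inr h1.1, Or.inr h1.2⟩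
  · intro i j hij
    have h1 := A.equivFin.symm.injective (Subtype.coe_injective hij)
    exact Fin.castLE_injective hc h1
  · intro i
    exact ⟨0, (A.equivFin.symm (Fin.castLE hc i)).2⟩
  · rintro i (⟨k, hk, h⟩ | h)
    · exact hl _ (A.equivFin.symm (Fin.castLE hc i)).2 k hk h
    · exact hAI _ (A.equivFin.symm (Fin.castLE hc i)).2 h
  · intro i j
    refine Or.inl ⟨1, le_rfl, ?_⟩
    exact ⟨_, (A.equivFin.symm (Fin.castLE hc i)).2, _,
      (A.equivFin.symm (Fin.castLE hc j)).2, rfl⟩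

/-! ### long products -/

/-- products of at least `m` letters, and the ideal -/
def G (A : Set S) (I : Set S) (m : ℕ) : Set S := {z | (∃ k, m ≤ k + 1 ∧ z ∈ L A k) ∨ z ∈ I}

theorem G_anti {A I : Set S} {m m' : ℕ} (h : m ≤ m') : G A I m' ⊆ G A I m := by
  rintro z (⟨k, hk, hz⟩ | hz)
  · exact Or.inl ⟨k, h.trans hk, hz⟩
  · exact Or.inr hz

/-- a fixed point of the prefix map -/
theorem fixed {W : Set S} (hW : W.Finite) (hne : W.Nonempty) {X : Subsemigroup S}
    (h : ∀ w ∈ W, ∃ w' ∈ W, ∃ r ∈ X, w = w' * r) : ∃ z ∈ W, ∃ ρ ∈ X, z = z * ρ := by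
  classical
  obtain ⟨w0, hw0⟩ := hne
  choose! f hf r hr hfr using h
  have hit : ∀ k : ℕ, ∀ w ∈ W, f^[k] w ∈ W := by
    intro k
    induction k with
    | zero => intro w hw; exact hw
    | succ k ih =>
      intro w hw
      rw [Function.iterate_succ_apply]
      exact ih _ (hf w hw)
  have hmul : ∀ k : ℕ, ∀ w ∈ W, ∃ ρ ∈ X, w = f^[k + 1] w * ρ := by
    intro k
    induction k with
    | zero => intro w hw; exact ⟨r w, hr w hw, hfr w hw⟩
    | succ k ih =>
      intro w hw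
      obtain ⟨ρ, hρ, h1⟩ := ih w hw
      have h2 := hit (k + 1) w hw
      refine ⟨r (f^[k + 1] w) * ρ, X.mul_mem (hr _ h2) hρ, ?_⟩
      rw [Function.iterate_succ_apply' f (k + 1), ← mul_assoc, ← hfr _ h2]
      exact h1
  have : Finite W := hW
  obtain ⟨i, j, hij, he⟩ := Finite.exists_ne_map_eq_of_infinite
    (fun k : ℕ => (⟨f^[k] w0, hit k w0 hw0⟩ : W))
  have he' : f^[i] w0 = f^[j] w0 := congrArg Subtype.val he
  rcases lt_or_gt_of_ne hij with hlt | hlt
  · obtain ⟨d, rfl⟩ := Nat.exists_eq_add_of_lt hlt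
    obtain ⟨ρ, hρ, h1⟩ := hmul d (f^[i] w0) (hit i w0 hw0)
    refine ⟨f^[i] w0, hit i w0 hw0, ρ, hρ, ?_⟩
    have h2 : f^[d + 1] (f^[i] w0) = f^[i] w0 := by
      have h3 : d + 1 + i = i + d + 1 := by omega
      rw [← Function.iterate_add_apply, h3]
      exact he'.symm
    rw [h2] at h1
    exact h1
  · obtain ⟨d, rfl⟩ := Nat.exists_eq_add_of_lt hlt
    obtain ⟨ρ, hρ, h1⟩ := hmul d (f^[j] w0) (hit j w0 hw0)
    refine ⟨f^[j] w0, hit j w0 hw0, ρ, hρ, ?_⟩
    have h2 : f^[d + 1] (f^[j] w0) = f^[j] w0 := by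
      have h3 : d + 1 + j = j + d + 1 := by omega
      rw [← Function.iterate_add_apply, h3]
      exact he'
    rw [h2] at h1
    exact h1

/-- the powers `G m` decrease strictly as long as there are products outside `I` -/
theorem strict {A : Set S} (hAf : A.Finite) {V : Subsemigroup S} {I : Set S} (hI : IsIdealOf V I)
    (hp : ∀ x ∈ V, ∃ k, pw x k ∈ I) (hA : ∀ a ∈ A, a ∈ V) {m : ℕ} (hm : 1 ≤ m)
    {K : ℕ} (hK : m ≤ K + 1) {z0 : S} (hz0 : z0 ∈ L A K) (hz0I : z0 ∉ I) :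
    ∃ s ∈ G A I m, s ∉ G A I (m + 1) := by
  by_contra hcon
  push Not at hcon
  have hU : ∀ x ∈ U A, x ∈ V := fun x ⟨j, hj⟩ => L_sub hA hj
  have hstep : ∀ j : ℕ, ∀ z ∈ G A I m, z ∈ G A I (m + j) := by
    intro j
    induction j with
    | zero => intro z hz; exact hz
    | succ j ih =>
      intro z hz
      rcases ih z hz with ⟨k, hk, hzk⟩ | hzI
      · by_cases h1 : m + (j + 1) ≤ k + 1
        · exact Or.inl ⟨k, h1, hzk⟩
        · rcases Nat.eq_zero_or_pos j with rfl | hj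
          · exact hcon z hz
          · have h2 : k = (m - 1) + (j - 1) + 1 := by omega
            rw [h2] at hzk
            obtain ⟨y, hy, r, hr, rfl⟩ := L_prefix hzk
            have h3 : y ∈ G A I m := Or.inl ⟨m - 1, by omega, hy⟩
            rcases hcon y h3 with ⟨k', hk', hyk'⟩ | hyI
            · exact Or.inl ⟨_, by omega, L_mul hyk' hr⟩
            · exact Or.inr (hI y hyI r (L_sub hA hr)).1
      · exact Or.inr hzI
  -- the products of exactly `m` letters outside `I`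
  have hWf : (L A (m - 1) \ I).Finite := (L_card hAf (m - 1)).1.subset Set.sdiff_subset
  have hWne : (L A (m - 1) \ I).Nonempty := by
    rcases Nat.lt_or_ge (m - 1) K with h1 | h1
    · have h2 : K = (m - 1) + (K - m) + 1 := by omega
      rw [h2] at hz0
      obtain ⟨y, hy, r, hr, rfl⟩ := L_prefix hz0
      exact ⟨y, hy, fun hyI => hz0I (hI y hyI r (L_sub hA hr)).1⟩
    · have h2 : K = m - 1 := by omega
      exact ⟨z0, h2 ▸ hz0, hz0I⟩
  obtain ⟨z, hz, ρ, hρ, he⟩ := fixed hWf hWne (X := U A) (by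
    rintro w ⟨hw, hwI⟩
    rcases hstep m w (Or.inl ⟨m - 1, by omega, hw⟩) with ⟨k, hk, hwk⟩ | h1
    · have h2 : k = (m - 1) + (k - m) + 1 := by omega
      rw [h2] at hwk
      obtain ⟨y, hy, r, hr, rfl⟩ := L_prefix hwk
      exact ⟨y, ⟨hy, fun hyI => hwI (hI y hyI r (L_sub hA hr)).1⟩, r, ⟨_, hr⟩, rfl⟩
    · exact absurd h1 hwI)
  obtain ⟨k, hk⟩ := hp ρ (hU ρ hρ)
  apply hz.2
  rw [right_pw he k]
  exact (hI _ hk z (L_sub hA hz.1)).2

/-- no long products -/
theorem short {n : ℕ} (hn1 : 1 ≤ n) {A : Set S} (hAf : A.Finite) {V : Subsemigroup S} {I : Set S}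
    (hI : IsIdealOf V I) (hp : ∀ x ∈ V, ∃ k, pw x k ∈ I) (hA : ∀ a ∈ A, a ∈ V)
    (hn : ¬ DivNull n S) {K : ℕ} {z0 : S} (hz0 : z0 ∈ L A K) (hz0I : z0 ∉ I) : K + 1 < 2 * n := by
  by_contra hc
  push Not at hc
  apply hn
  have hU : ∀ x ∈ U A, x ∈ V := fun x ⟨j, hj⟩ => L_sub hA hj
  have h1 : ∀ i : Fin n, ∃ s ∈ G A I (n + i), s ∉ G A I (n + i + 1) := fun i =>
    strict hAf hI hp hA (by omega) (by omega) hz0 hz0I
  choose s hs hs' using h1
  have hsI : ∀ i, s i ∉ I := fun i h => hs' i (Or.inr h)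
  have hsL : ∀ i : Fin n, ∃ k, n + (i : ℕ) ≤ k + 1 ∧ s i ∈ L A k := fun i =>
    (hs i).resolve_right (hsI i)
  refine ⟨U A, G A I (2 * n), s, ?_, ?_, ?_, ?_, ?_⟩
  · rintro x hx y ⟨j, hj⟩
    rcases hx with ⟨k, hk, hx⟩ | hx
    · exact ⟨Or.inl ⟨_, by omega, L_mul hx hj⟩, Or.inl ⟨_, by omega, L_mul hj hx⟩⟩
    · have h1 := hI x hx y (hU y ⟨j, hj⟩)
      exact ⟨Or.inr h1.1, Or.inr h1.2⟩
  · have key : ∀ i j : Fin n, i < j → s i ≠ s j := by
      intro i j hij he
      apply hs' i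
      rw [he]
      have : (i : ℕ) < j := hij
      exact G_anti (by omega) (hs j)
    intro i j he
    by_contra hne
    rcases lt_or_gt_of_ne hne with h | h
    · exact key i j h he
    · exact key j i h he.symm
  · intro i
    obtain ⟨k, _, hk⟩ := hsL i
    exact ⟨k, hk⟩
  · intro i h
    exact hs' i (G_anti (by omega) h)
  · intro i j
    obtain ⟨k, hk, hk'⟩ := hsL i
    obtain ⟨l, hl, hl'⟩ := hsL j
    exact Or.inl ⟨_, by omega, L_mul hk' hl'⟩

/-- the bound for finite sets -/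
theorem finset_bound {n : ℕ} {V : Subsemigroup S} {I : Set S}
    (hI : IsIdealOf V I) (hp : ∀ x ∈ V, ∃ k, pw x k ∈ I) (hn : ¬ DivNull n S) (A : Finset S)
    (hA : ∀ a ∈ A, a ∈ V) (hAI : ∀ a ∈ A, a ∉ I) :
    A.card ≤ ∑ k ∈ Finset.range (2 * n), n ^ (k + 1) := by
  classical
  -- `n = 0` is impossible
  have hn1 : 1 ≤ n := by
    rcases Nat.eq_zero_or_pos n with rfl | h
    · exfalso
      exact hn ⟨⊤, Set.univ, fun i => i.elim0, fun _ _ _ _ => ⟨trivial, trivial⟩,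
        fun i => i.elim0, fun i => i.elim0, fun i => i.elim0, fun i => i.elim0⟩
    · exact h
  -- a minimal generating set
  have hne : (A.powerset.filter (fun B : Finset S => ∀ z ∈ A, z ∈ U (B : Set S))).Nonempty := by
    refine ⟨A, ?_⟩
    rw [Finset.mem_filter, Finset.mem_powerset]
    exact ⟨subset_rfl, fun z hz => ⟨0, hz⟩⟩
  obtain ⟨B, hB, hmin⟩ := Finset.exists_min_image _ Finset.card hne
  rw [Finset.mem_filter, Finset.mem_powerset] at hB
  obtain ⟨hBA, hgen⟩ := hB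
  have hBV : ∀ a ∈ (B : Set S), a ∈ V := fun a ha => hA a (hBA ha)
  have hl : ∀ a ∈ B, ∀ k, 1 ≤ k → a ∉ L (B : Set S) k := by
    intro a ha k hk h
    have h1 := letter_long hI hp hBV ha (hAI a (hBA ha)) hk h
    have h2 : ((B.erase a : Finset S) : Set S) = (B : Set S) \ {a} := by
      simp
    have h3 : B.erase a ∈ A.powerset.filter
        (fun B : Finset S => ∀ z ∈ A, z ∈ U (B : Set S)) := by
      rw [Finset.mem_filter, Finset.mem_powerset]
      refine ⟨(Finset.erase_subset a B).trans hBA, fun z hz => ?_⟩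
      obtain ⟨j, hj⟩ := hgen z hz
      refine L_sub (V := U ((B.erase a : Finset S) : Set S)) ?_ hj
      intro b hb
      by_cases hba : b = a
      · rw [hba, h2]
        exact ⟨k, h1⟩
      · rw [h2]
        exact ⟨0, hb, hba⟩
    have h4 := hmin _ h3
    have h5 := Finset.card_erase_lt_of_mem ha
    omega
  have hcard := few hI (A := B) hBV (fun a ha => hAI a (hBA ha)) hl hn
  have hsub : (A : Set S) ⊆ ⋃ k ∈ Finset.range (2 * n), L (B : Set S) k := by
    intro z hz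
    obtain ⟨K, hK⟩ := hgen z hz
    have h1 := short hn1 B.finite_toSet hI hp hBV hn hK (hAI z hz)
    simp only [Set.mem_iUnion]
    exact ⟨K, Finset.mem_range.2 (by omega), hK⟩
  have hfin : ∀ k, (L (B : Set S) k).Finite := fun k => (L_card B.finite_toSet k).1
  have hfin2 : (⋃ k ∈ Finset.range (2 * n), L (B : Set S) k).Finite :=
    Set.Finite.biUnion (Finset.finite_toSet _) fun k _ => hfin k
  calc A.card = (A : Set S).ncard := (Set.ncard_coe_finset A).symm
    _ ≤ (⋃ k ∈ Finset.range (2 * n), L (B : Set S) k).ncard := Set.ncard_le_ncard hsub hfin2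
    _ ≤ ∑ k ∈ Finset.range (2 * n), (L (B : Set S) k).ncard :=
        Finset.set_ncard_biUnion_le _ _
    _ ≤ ∑ k ∈ Finset.range (2 * n), n ^ (k + 1) := by
        refine Finset.sum_le_sum fun k _ => ?_
        refine (L_card B.finite_toSet k).2.trans ?_
        rw [Set.ncard_coe_finset]
        exact Nat.pow_le_pow_left hcard.le _

end NilB

/-- **nil quotients**: bounded without large null divisors -/
theorem nil_bound (n : ℕ) : ∃ C : ℕ, ∀ (S : Type u) [Semigroup S] (V : Subsemigroup S) (I : Set S),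
    IsIdealOf V I → (∀ x ∈ V, ∃ k, pw x k ∈ I) → ¬ DivNull n S →
      ((V : Set S) \ I).Finite ∧ ((V : Set S) \ I).ncard ≤ C := by
  refine ⟨∑ k ∈ Finset.range (2 * n), n ^ (k + 1), fun S _ V I hI hp hn => ?_⟩
  have key : ∀ A : Finset S, (A : Set S) ⊆ (V : Set S) \ I →
      A.card ≤ ∑ k ∈ Finset.range (2 * n), n ^ (k + 1) := fun A hA =>
    NilB.finset_bound hI hp hn A (fun a ha => (hA ha).1) (fun a ha => (hA ha).2)
  have hfin : ((V : Set S) \ I).Finite := by
    by_contra hinf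
    obtain ⟨A, hA, hc⟩ := Set.Infinite.exists_subset_card_eq hinf
      ((∑ k ∈ Finset.range (2 * n), n ^ (k + 1)) + 1)
    have := key A hA
    omega
  refine ⟨hfin, ?_⟩
  have h1 := key hfin.toFinset (by simp)
  rwa [← Set.ncard_eq_toFinset_card _ hfin] at h1

end Pool.Agent.MNV
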