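import Mathlib
import Pool.Agent.MNV.Defs
import Pool.Agent.MNV.Nil

/-!
# Row C3: regular and nonregular elements, unavoidable divisors
-/

set_option autoImplicit false

namespace Pool.Agent.MNV

universe u

namespace RegC

variable {S : Type u} [Semigroup S]

lemma coe_pw (x : S) (k : ℕ) : ((pw x k : S) : WithOne S) = (x : WithOne S) ^ (k + 1) := by
  induction k with
  | zero => simp [pw]
  | succ k ih =>
    show ((pw x k * x : S) : WithOne S) = _
    rw [WithOne.coe_mul, ih, ← pow_succ]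

lemma pw_mul (x : S) (a b : ℕ) : pw x a * pw x b = pw x (a + b + 1) := by
  apply WithOne.coe_injective
  rw [WithOne.coe_mul, coe_pw, coe_pw, coe_pw, ← pow_add]
  congr 1
  ring

omit [Semigroup S] in
lemma one_or_coe (a : WithOne S) : a = 1 ∨ ∃ x : S, a = (x : WithOne S) := by
  by_cases h : a = 1
  · exact Or.inl h
  · obtain ⟨x, hx⟩ := WithOne.ne_one_iff_exists.1 h
    exact Or.inr ⟨x, hx.symm⟩

/-- an idempotent positive power in `WithOne S` -/
lemma exists_idem (hS : Periodic S) (a : WithOne S) :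
    ∃ K : ℕ, a ^ (K + 1) * a ^ (K + 1) = a ^ (K + 1) := by
  rcases one_or_coe a with rfl | ⟨x, rfl⟩
  · exact ⟨0, by simp⟩
  · obtain ⟨k, hk⟩ := hS x
    refine ⟨k, ?_⟩
    rw [← coe_pw, ← WithOne.coe_mul, hk]

lemma jle_refl (a : S) : Jle a a := ⟨1, 1, by simp⟩

lemma jle_trans {a b c : S} (h1 : Jle a b) (h2 : Jle b c) : Jle a c := by
  obtain ⟨x, y, h⟩ := h1
  obtain ⟨u, v, h'⟩ := h2
  exact ⟨x * u, v * y, by rw [h, h']; simp only [mul_assoc]⟩

lemma jle_mul_right (a b : S) : Jle (a * b) a := ⟨1, b, by simp⟩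

lemma jle_mul_left (a b : S) : Jle (a * b) b := ⟨a, 1, by simp⟩

lemma jle_pw (a : S) (k : ℕ) : Jle (pw a k) a := by
  refine ⟨1, (a : WithOne S) ^ k, ?_⟩
  rw [coe_pw, one_mul, ← pow_succ']

/-- the idempotents below `x` -/
def Dn (x : S) : Set S := {e | e * e = e ∧ Jle e x}

lemma Dn_mono {x y : S} (h : Jle x y) : Dn x ⊆ Dn y := fun _ he => ⟨he.1, jle_trans he.2 h⟩

/-- a `J`-equivalence with an idempotent gives regularity in periodic semigroups -/
lemma reg_of_jle (hS : Periodic S) {x e : S} (he : e * e = e) (h1 : Jle x e) (h2 : Jle e x) :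
    Reg x := by
  obtain ⟨a, b, hx⟩ := h1
  obtain ⟨c, d, he'⟩ := h2
  have hee : (e : WithOne S) * e = e := by rw [← WithOne.coe_mul, he]
  have h0 : (e : WithOne S) = (c * a) * e * (b * d) := by
    calc (e : WithOne S) = c * x * d := he'
      _ = (c * a) * e * (b * d) := by rw [hx]; simp only [mul_assoc]
  have hk : ∀ k : ℕ, (e : WithOne S) = (c * a) ^ k * e * (b * d) ^ k := by
    intro k
    induction k with
    | zero => simp
    | succ k ih =>
      calc (e : WithOne S) = (c * a) * e * (b * d) := h0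
        _ = (c * a) * ((c * a) ^ k * e * (b * d) ^ k) * (b * d) := by rw [← ih]
        _ = (c * a) ^ (k + 1) * e * (b * d) ^ (k + 1) := by
          rw [pow_succ', pow_succ]; simp only [mul_assoc]
  obtain ⟨K, hK⟩ := exists_idem hS (c * a)
  obtain ⟨L, hL⟩ := exists_idem hS (b * d)
  have hu : (c * a) ^ (K + 1) * (e : WithOne S) = e := by
    have h := hk (K + 1)
    calc (c * a) ^ (K + 1) * (e : WithOne S)
        = (c * a) ^ (K + 1) * ((c * a) ^ (K + 1) * e * (b * d) ^ (K + 1)) := by rw [← h]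
      _ = ((c * a) ^ (K + 1) * (c * a) ^ (K + 1)) * e * (b * d) ^ (K + 1) := by
          simp only [mul_assoc]
      _ = e := by rw [hK, ← h]
  have hv : (e : WithOne S) * (b * d) ^ (L + 1) = e := by
    have h := hk (L + 1)
    calc (e : WithOne S) * (b * d) ^ (L + 1)
        = ((c * a) ^ (L + 1) * e * (b * d) ^ (L + 1)) * (b * d) ^ (L + 1) := by rw [← h]
      _ = (c * a) ^ (L + 1) * e * ((b * d) ^ (L + 1) * (b * d) ^ (L + 1)) := by
          simp only [mul_assoc]
      _ = e := by rw [hL, ← h]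
  have key : (x : WithOne S) * ((d * (b * d) ^ L) * ((c * a) ^ K * c)) * x = x := by
    calc (x : WithOne S) * ((d * (b * d) ^ L) * ((c * a) ^ K * c)) * x
        = a * (e * (b * d * (b * d) ^ L)) * ((c * a) ^ K * (c * a) * e) * b := by
          rw [hx]; simp only [mul_assoc]
      _ = a * (e * (b * d) ^ (L + 1)) * ((c * a) ^ (K + 1) * e) * b := by
          rw [← pow_succ', ← pow_succ]
      _ = a * e * b := by rw [hu, hv, mul_assoc a, hee]
      _ = x := hx.symm
  generalize (d * (b * d) ^ L) * ((c * a) ^ K * c) = z at key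
  rcases one_or_coe z with rfl | ⟨z, rfl⟩
  · rw [mul_one] at key
    have : x * x = x := WithOne.coe_injective (by rw [WithOne.coe_mul, key])
    exact ⟨x, by rw [this, this]⟩
  · exact ⟨z, WithOne.coe_injective (by rw [WithOne.coe_mul, WithOne.coe_mul, key])⟩

/-- inverse pairs with given idempotents -/
def Fib (e f : S) : Set S :=
  {x | ∃ y, x * y = e ∧ y * x = f ∧ e * x = x ∧ x * f = x ∧ f * y = y ∧ y * e = y}

lemma exists_fib {x : S} (hx : Reg x) : ∃ e f : S, e * e = e ∧ f * f = f ∧ x ∈ Fib e f := by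
  obtain ⟨y, hy⟩ := hx
  have h1 : x * (y * x * y) * x = x := by
    calc x * (y * x * y) * x = (x * y * x) * y * x := by simp only [mul_assoc]
      _ = x := by rw [hy, hy]
  have h2 : (y * x * y) * x * (y * x * y) = y * x * y := by
    calc (y * x * y) * x * (y * x * y) = y * ((x * y * x) * y * x) * y := by simp only [mul_assoc]
      _ = y * x * y := by rw [hy, hy]
  generalize y * x * y = z at h1 h2
  refine ⟨x * z, z * x, ?_, ?_, z, rfl, rfl, h1, ?_, h2, ?_⟩
  · rw [← mul_assoc, h1]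
  · rw [← mul_assoc, h2]
  · rw [← mul_assoc, h1]
  · rw [← mul_assoc, h2]

lemma fib_finite {e f : S} {g : ℕ} (hH : (He e).Finite ∧ (He e).ncard ≤ g) :
    (Fib e f).Finite ∧ (Fib e f).ncard ≤ g := by
  rcases (Fib e f).eq_empty_or_nonempty with h0 | ⟨x0, y0, h1, h2, h3, h4, h5, h6⟩
  · rw [h0]; exact ⟨Set.finite_empty, by simp⟩
  · have hmaps : ∀ x ∈ Fib e f, x * y0 ∈ He e := by
      rintro x ⟨y, k1, k2, k3, k4, k5, k6⟩
      refine ⟨by rw [← mul_assoc, k3], by rw [mul_assoc, h6], x0 * y, by rw [← mul_assoc, h3],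
        by rw [mul_assoc, k6], ?_, ?_⟩
      · calc x * y0 * (x0 * y) = x * (y0 * x0) * y := by simp only [mul_assoc]
          _ = e := by rw [h2, k4, k1]
      · calc x0 * y * (x * y0) = x0 * (y * x) * y0 := by simp only [mul_assoc]
          _ = e := by rw [k2, h4, h1]
    have hinj : Set.InjOn (fun x => x * y0) (Fib e f) := by
      rintro x ⟨y, k1, k2, k3, k4, k5, k6⟩ x' ⟨y', k1', k2', k3', k4', k5', k6'⟩ hxx
      have hxx' : x * y0 = x' * y0 := hxx
      calc x = x * (y0 * x0) := by rw [h2, k4]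
        _ = x * y0 * x0 := by rw [mul_assoc]
        _ = x' * y0 * x0 := by rw [hxx']
        _ = x' * (y0 * x0) := by rw [mul_assoc]
        _ = x' := by rw [h2, k4']
    refine ⟨Set.Finite.of_injOn hmaps hinj hH.1, ?_⟩
    exact (Set.ncard_le_ncard_of_injOn _ hmaps hinj hH.1).trans hH.2

end RegC

open RegC

theorem reg_bound {S : Type u} [Semigroup S] {B g : ℕ}
    (hE : {e : S | e * e = e}.Finite ∧ {e : S | e * e = e}.ncard ≤ B)
    (hH : ∀ e : S, e * e = e → (He e).Finite ∧ (He e).ncard ≤ g) :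
    {x : S | Reg x}.Finite ∧ {x : S | Reg x}.ncard ≤ B * B * g := by
  classical
  set E := hE.1.toFinset with hEdef
  have hEm : ∀ e, e ∈ E ↔ e * e = e := fun e => by simp [hEdef]
  have hEc : E.card ≤ B := by
    rw [hEdef, ← Set.ncard_eq_toFinset_card _ hE.1]; exact hE.2
  have hF : ∀ p ∈ E ×ˢ E, (Fib p.1 p.2).Finite ∧ (Fib p.1 p.2).ncard ≤ g := by
    intro p hp
    exact fib_finite (hH p.1 ((hEm _).1 (Finset.mem_product.1 hp).1))
  have hsub : {x : S | Reg x} ⊆ ⋃ p ∈ E ×ˢ E, Fib p.1 p.2 := by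
    intro x hx
    obtain ⟨e, f, he, hf, hx'⟩ := exists_fib hx
    refine Set.mem_biUnion (x := (e, f)) ?_ hx'
    simp [hEm, he, hf]
  have hfin : (⋃ p ∈ E ×ˢ E, Fib p.1 p.2).Finite :=
    (E ×ˢ E).finite_toSet.biUnion fun p hp => (hF p hp).1
  refine ⟨hfin.subset hsub, ?_⟩
  calc {x : S | Reg x}.ncard ≤ (⋃ p ∈ E ×ˢ E, Fib p.1 p.2).ncard := Set.ncard_le_ncard hsub hfin
    _ ≤ ∑ p ∈ E ×ˢ E, (Fib p.1 p.2).ncard := Finset.set_ncard_biUnion_le _ _
    _ ≤ ∑ _p ∈ E ×ˢ E, g := Finset.sum_le_sum fun p hp => (hF p hp).2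
    _ = E.card * E.card * g := by rw [Finset.sum_const, Finset.card_product, smul_eq_mul]
    _ ≤ B * B * g := by gcongr

/-- elements all of whose idempotents below lie in `D` -/
def RegC.VD {S : Type u} [Semigroup S] (D : Set S) : Subsemigroup S where
  carrier := {x | Dn x ⊆ D}
  mul_mem' := fun {a b} ha _ => (Dn_mono (jle_mul_right a b)).trans ha

/-- the ideal used for the nonregular elements -/
def RegC.ID {S : Type u} [Semigroup S] (D : Set S) : Set S :=
  {x | Dn x ⊆ D ∧ (Dn x ≠ D ∨ ∃ e : S, e * e = e ∧ Dn e = D ∧ Jle x e)}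

lemma RegC.ID_of_jle {S : Type u} [Semigroup S] {D : Set S} {x y : S} (hx : x ∈ ID D)
    (h : Jle y x) : y ∈ ID D := by
  obtain ⟨h1, h2⟩ := hx
  refine ⟨(Dn_mono h).trans h1, ?_⟩
  rcases h2 with h2 | ⟨e, he, hD, hxe⟩
  · left
    intro h3
    exact h2 (h1.antisymm (h3 ▸ Dn_mono h))
  · exact Or.inr ⟨e, he, hD, jle_trans h hxe⟩

theorem nonreg_bound (n B : ℕ) : ∃ C : ℕ, ∀ (S : Type u) [Semigroup S], Periodic S →
    ¬ DivNull n S → {e : S | e * e = e}.Finite ∧ {e : S | e * e = e}.ncard ≤ B →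
      {x : S | ¬ Reg x}.Finite ∧ {x : S | ¬ Reg x}.ncard ≤ C := by
  classical
  obtain ⟨C, hC⟩ := nil_bound.{u} n
  refine ⟨2 ^ B * C, fun S _ hS hN hE => ?_⟩
  set E := hE.1.toFinset with hEdef
  have hEm : ∀ e, e ∈ E ↔ e * e = e := fun e => by simp [hEdef]
  have hEc : E.card ≤ B := by
    rw [hEdef, ← Set.ncard_eq_toFinset_card _ hE.1]; exact hE.2
  have hF : ∀ D : Set S, ((VD D : Set S) \ ID D).Finite ∧ ((VD D : Set S) \ ID D).ncard ≤ C := by
    intro D
    refine hC S (VD D) (ID D) ?_ ?_ hN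
    · intro x hx y _
      exact ⟨ID_of_jle hx (jle_mul_right x y), ID_of_jle hx (jle_mul_left y x)⟩
    · intro x hx
      obtain ⟨k, hk⟩ := hS x
      refine ⟨k, ?_⟩
      have hxk : Dn (pw x k) ⊆ D := (Dn_mono (jle_pw x k)).trans hx
      refine ⟨hxk, ?_⟩
      by_cases h : Dn (pw x k) = D
      · exact Or.inr ⟨pw x k, hk, h, jle_refl _⟩
      · exact Or.inl h
  have hsub : {x : S | ¬ Reg x} ⊆ ⋃ D ∈ E.powerset, ((VD (D : Set S) : Set S) \ ID (D : Set S)) := by
    intro x hx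
    have hDE : Dn x ⊆ (E : Set S) := fun e he => (hEm e).2 he.1
    obtain ⟨D, hD⟩ : ∃ D : Finset S, (D : Set S) = Dn x :=
      ⟨(hE.1.subset fun e he => he.1 : (Dn x).Finite).toFinset, by simp⟩
    refine Set.mem_biUnion (x := D) ?_ ⟨?_, ?_⟩
    · rw [Finset.mem_coe, Finset.mem_powerset, ← Finset.coe_subset, hD]; exact hDE
    · show Dn x ⊆ (D : Set S)
      rw [hD]
    · rintro ⟨-, h | ⟨e, he, heD, hxe⟩⟩
      · exact h hD.symm
      · apply hx
        have h1 : e ∈ Dn e := ⟨he, jle_refl e⟩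
        rw [heD, hD] at h1
        exact reg_of_jle hS he hxe h1.2
  have hfin : (⋃ D ∈ E.powerset, ((VD (D : Set S) : Set S) \ ID (D : Set S))).Finite :=
    E.powerset.finite_toSet.biUnion fun D _ => (hF D).1
  refine ⟨hfin.subset hsub, ?_⟩
  calc {x : S | ¬ Reg x}.ncard
      ≤ (⋃ D ∈ E.powerset, ((VD (D : Set S) : Set S) \ ID (D : Set S))).ncard :=
        Set.ncard_le_ncard hsub hfin
    _ ≤ ∑ D ∈ E.powerset, ((VD (D : Set S) : Set S) \ ID (D : Set S)).ncard :=
        Finset.set_ncard_biUnion_le _ _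
    _ ≤ ∑ _D ∈ E.powerset, C := Finset.sum_le_sum fun D _ => (hF D).2
    _ = 2 ^ E.card * C := by rw [Finset.sum_const, Finset.card_powerset, smul_eq_mul]
    _ ≤ 2 ^ B * C := by gcongr; norm_num

/-- equal powers give an idempotent power -/
lemma RegC.idem_of_eq {S : Type u} [Semigroup S] {x : S} {a b : ℕ} (hab : a < b)
    (h : pw x a = pw x b) : ∃ k : ℕ, pw x k * pw x k = pw x k := by
  obtain ⟨p, hp, rfl⟩ : ∃ p : ℕ, 1 ≤ p ∧ b = a + p := ⟨b - a, by omega, by omega⟩
  have h1 : (x : WithOne S) ^ (a + 1) = (x : WithOne S) ^ (a + 1 + p) := by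
    have := congrArg (fun s : S => (s : WithOne S)) h
    simp only [coe_pw] at this
    rw [this]; congr 1; ring
  have h2 : ∀ m : ℕ, a + 1 ≤ m → (x : WithOne S) ^ m = (x : WithOne S) ^ (m + p) := by
    intro m hm
    obtain ⟨c, rfl⟩ := Nat.exists_eq_add_of_le hm
    calc (x : WithOne S) ^ (a + 1 + c) = (x : WithOne S) ^ (a + 1) * (x : WithOne S) ^ c := by
          rw [pow_add]
      _ = (x : WithOne S) ^ (a + 1 + p) * (x : WithOne S) ^ c := by rw [← h1]
      _ = (x : WithOne S) ^ (a + 1 + c + p) := by rw [← pow_add]; congr 1; ring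
  have h3 : ∀ k m : ℕ, a + 1 ≤ m → (x : WithOne S) ^ m = (x : WithOne S) ^ (m + k * p) := by
    intro k
    induction k with
    | zero => intro m _; simp
    | succ k ih =>
      intro m hm
      rw [ih m hm, h2 (m + k * p) (by omega)]
      congr 1; ring
  have h4 := h3 (a + 1) ((a + 1) * p) (Nat.le_mul_of_pos_right _ hp)
  have h5 : (a + 1) * p - 1 + 1 = (a + 1) * p := Nat.succ_pred_eq_of_pos (Nat.mul_pos (Nat.succ_pos a) hp)
  refine ⟨(a + 1) * p - 1, ?_⟩
  apply WithOne.coe_injective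
  rw [WithOne.coe_mul, coe_pw, h5, ← pow_add, ← h4]

theorem periodic_of_not_divNull {n : ℕ} {S : Type u} [Semigroup S] (h : ¬ DivNull n S) :
    Periodic S := by
  intro x
  by_contra hx
  push Not at hx
  have hinj : Function.Injective (pw x) := by
    intro a b hab
    rcases lt_trichotomy a b with h1 | h1 | h1
    · obtain ⟨k, hk⟩ := RegC.idem_of_eq h1 hab
      exact absurd hk (hx k)
    · exact h1
    · obtain ⟨k, hk⟩ := RegC.idem_of_eq h1 hab.symm
      exact absurd hk (hx k)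
  apply h
  refine ⟨⟨Set.range (pw x), ?_⟩, {y | ∃ k, 2 * n + 1 ≤ k ∧ y = pw x k},
    fun i => pw x (n + i), ?_, ?_, ?_, ?_, ?_⟩
  · rintro _ _ ⟨a, rfl⟩ ⟨b, rfl⟩
    exact ⟨a + b + 1, (pw_mul x a b).symm⟩
  · rintro _ ⟨k, hk, rfl⟩ _ ⟨j, rfl⟩
    exact ⟨⟨k + j + 1, by omega, pw_mul x k j⟩, ⟨j + k + 1, by omega, pw_mul x j k⟩⟩
  · intro i j hij
    have := hinj hij
    exact Fin.ext (by omega)
  · intro i
    exact ⟨n + i, rfl⟩
  · rintro i ⟨k, hk, he⟩
    have := hinj he
    have := i.2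
    omega
  · intro i j
    exact ⟨n + i + (n + j) + 1, by omega, pw_mul x _ _⟩

end Pool.Agent.MNV
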