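import Mathlib
import Pool.Agent.MNV.Defs
import Pool.Agent.MNV.Reg
import Pool.Agent.MNV.Idem

/-!
# Row C3: unavoidable divisors
-/

set_option autoImplicit false

namespace Pool.Agent.MNV

universe u

/-- unavoidable divisors -/
theorem unavoidable (n g : ℕ) : ∃ N : ℕ, ∀ (S : Type u) [Semigroup S], ¬ DivNull n S →
    ¬ DivLeft n S → ¬ DivRight n S → ¬ DivChain n S → ¬ DivFlat n S →
    (∀ e : S, e * e = e → (He e).Finite ∧ (He e).ncard ≤ g) → Finite S ∧ Nat.card S ≤ N := by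
  obtain ⟨B, hB⟩ := idem_bound.{u} n
  obtain ⟨C, hC⟩ := nonreg_bound.{u} n B
  refine ⟨B * B * g + C, fun S _ h1 h2 h3 h4 h5 hH => ?_⟩
  have hP : Periodic S := periodic_of_not_divNull h1
  have hE := hB S hP h2 h3 h4 h5
  obtain ⟨r1, r2⟩ := reg_bound hE hH
  obtain ⟨s1, s2⟩ := hC S hP h1 hE
  have huniv : (Set.univ : Set S) = {x : S | Reg x} ∪ {x : S | ¬ Reg x} := by
    ext x; simp [em]
  have hfin : (Set.univ : Set S).Finite := by rw [huniv]; exact r1.union s1
  refine ⟨Set.finite_univ_iff.1 hfin, ?_⟩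
  rw [← Set.ncard_univ, huniv]
  exact (Set.ncard_union_le _ _).trans (Nat.add_le_add r2 s2)

end Pool.Agent.MNV
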