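import Mathlib
import Pool.Agent.MNV.Base
import Pool.Agent.MNV.Bounded
import Pool.Agent.MNV.Unav
import Pool.Agent.MNV.He
import Pool.Agent.MNV.Families
import Pool.Agent.MNV.Fam3
import Pool.Agent.MNV.GroupCase
import Pool.Agent.MNV.Fam2

/-!
# Classification of the minimal nonelementary inclusive varieties
-/

set_option autoImplicit false

namespace Pool.Agent.MNV

universe u

/-- a family contained in a minimal nonelementary variety is the variety -/
theorem eq_of_family {M F : Set Semigrp.{u}} (hM : IsMinimalNonelementary M)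
    (hF : IsMinimalNonelementary F) (h : F ⊆ M) : M = F := by
  by_contra hne
  exact hF.2.1 (hM.2.2 F hF.1 (h.ssubset_of_ne (Ne.symm hne)))

/-- alternative: a type of divisors is bounded in `M`, or `M` contains the family -/
theorem type_alt {M F : Set Semigrp.{u}} (hM : IsInclusiveVariety M)
    (P : ℕ → (S : Type u) → [Semigroup S] → Prop)
    (hdiv : ∀ {n : ℕ} {T : Type u} [Semigroup T], P n T → ∀ {S : Semigrp.{u}}, S ∈ F →
      Nat.card S ≤ n → Divides S T)
    (hne : ∀ S ∈ F, Nonempty S) :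
    F ⊆ M ∨ ∃ k : ℕ, ∀ n, k ≤ n → ∀ S ∈ M, ¬ P n S := by
  by_cases h : ∀ k : ℕ, ∃ n, k ≤ n ∧ ∃ S ∈ M, P n S
  · left
    intro S hS
    obtain ⟨n, hn, T, hT, hP⟩ := h (Nat.card S)
    exact mem_of_divides hM hT (hne S hS) (hdiv hP hS hn)
  · right
    push Not at h
    obtain ⟨k, hk⟩ := h
    exact ⟨k, hk⟩

/-- with bounded finite members, large divisors of a type do not exist -/
theorem type_bounded {M F : Set Semigrp.{u}} (hM : IsInclusiveVariety M)
    (P : ℕ → (S : Type u) → [Semigroup S] → Prop)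
    (hdiv : ∀ {n : ℕ} {T : Type u} [Semigroup T], P n T → ∀ {S : Semigrp.{u}}, S ∈ F →
      Nat.card S ≤ n → Divides S T)
    (hne : ∀ S ∈ F, Nonempty S ∧ Finite S)
    (hcard : ∀ n : ℕ, 1 ≤ n → ∃ S ∈ F, Nat.card S = n) {b : ℕ}
    (hb : ∀ S ∈ M, Finite S → Nat.card S ≤ b) {n : ℕ} (hn : b < n) {T : Semigrp.{u}} (hT : T ∈ M) :
    ¬ P n T := by
  intro hP
  obtain ⟨S, hS, hc⟩ := hcard n (by omega)
  have h1 := mem_of_divides hM hT (hne S hS).1 (hdiv hP hS hc.le)
  have h2 := hb S h1 (hne S hS).2
  omega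

/-- the maximal subgroups of members -/
theorem he_mem {M : Set Semigrp.{u}} (hM : IsInclusiveVariety M) {S : Semigrp.{u}} (hS : S ∈ M)
    {e : S} (he : e * e = e) : ∃ (G : Type u) (_ : Group G), Semigrp.of G ∈ M ∧
      Nonempty (G ≃ He e) := by
  obtain ⟨U, hU, G, hG, ⟨f⟩⟩ := he_sub he
  refine ⟨G, hG, ?_, ?_⟩
  · refine mem_of_divides (T := Semigrp.of G) hM hS ⟨(1 : G)⟩ ?_
    exact ⟨U, f.toMulHom, f.surjective⟩
  · exact ⟨f.symm.toEquiv.trans (Equiv.setCongr hU)⟩

theorem classification {M : Set Semigrp.{u}} (hM : IsMinimalNonelementary M) :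
    M = FinNull ∨ M = FinLeft ∨ M = FinRight ∨ M = FinChain ∨ M = FinFlat ∨
      (∃ p : ℕ, p.Prime ∧ M = CycP p) ∨ (∃ p : ℕ, p.Prime ∧ M = ElemP p) ∨
      ((∃ b : ℕ, ∀ S ∈ M, Finite S → Nat.card S ≤ b) ∧
        ∃ (G : Type u) (_ : Group G), Infinite G ∧ Group.FG G ∧ Semigrp.of G ∈ M) := by
  have hI := hM.1
  by_cases hfin : ∃ b : ℕ, ∀ S ∈ M, Finite S → Nat.card S ≤ b
  · -- bounded finite members
    obtain ⟨b, hb⟩ := hfin
    refine Or.inr (Or.inr (Or.inr (Or.inr (Or.inr (Or.inr (Or.inr ⟨⟨b, hb⟩, ?_⟩))))))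
    have hinf : ∃ S ∈ M, Infinite S := by
      by_contra hcon
      push Not at hcon
      refine hM.2.1 (elementary_of_bounded hI b fun S hS => ?_)
      have h1 : Finite S := hcon S hS
      exact ⟨h1, hb S hS h1⟩
    obtain ⟨S, hS, hSi⟩ := hinf
    have h1 : ¬ DivNull (b + 1) S := type_bounded hI (fun n S _ => DivNull n S)
      (fun h _ hS hc => null_divides h hS hc) (fun S hS => ⟨hS.1, hS.2.1⟩) finNull_card hb
      (Nat.lt_succ_self b) hS
    have h2 : ¬ DivLeft (b + 1) S := type_bounded hI (fun n S _ => DivLeft n S)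
      (fun h _ hS hc => left_divides h hS hc) (fun S hS => ⟨hS.1, hS.2.1⟩) finLeft_card hb
      (Nat.lt_succ_self b) hS
    have h3 : ¬ DivRight (b + 1) S := type_bounded hI (fun n S _ => DivRight n S)
      (fun h _ hS hc => right_divides h hS hc) (fun S hS => ⟨hS.1, hS.2.1⟩) finRight_card hb
      (Nat.lt_succ_self b) hS
    have h4 : ¬ DivChain (b + 1) S := type_bounded hI (fun n S _ => DivChain n S)
      (fun h _ hS hc => chain_divides h hS hc) (fun S hS => ⟨hS.1, hS.2.1⟩) finChain_card hb
      (Nat.lt_succ_self b) hS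
    have h5 : ¬ DivFlat (b + 1) S := type_bounded hI (fun n S _ => DivFlat n S)
      (fun h _ hS hc => flat_divides h hS hc) (fun S hS => ⟨hS.1, hS.2.1⟩) finFlat_card hb
      (Nat.lt_succ_self b) hS
    have hHe : ∃ e : S, e * e = e ∧ (He e).Infinite := by
      by_contra hcon
      push Not at hcon
      obtain ⟨N, hN⟩ := unavoidable.{u} (b + 1) b
      have h6 := hN S h1 h2 h3 h4 h5 fun e he => by
        have h7 : (He e).Finite := hcon e he
        refine ⟨h7, ?_⟩
        obtain ⟨G, hG, hGM, ⟨f⟩⟩ := he_mem hI hS he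
        have : Finite (He e) := h7
        have hfG : Finite G := Finite.of_equiv _ f.symm
        have h8 := hb (Semigrp.of G) hGM hfG
        have h9 : Nat.card G = Nat.card (He e) := Nat.card_congr f
        rw [← Nat.card_coe_set_eq, ← h9]
        exact h8
      exact hSi.not_finite h6.1
    obtain ⟨e, he, hei⟩ := hHe
    obtain ⟨G, hG, hGM, ⟨f⟩⟩ := he_mem hI hS he
    have hGi : Infinite G := by
      have : Infinite (He e) := hei.to_subtype
      exact Infinite.of_injective _ f.symm.injective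
    obtain ⟨t, ht⟩ := Infinite.exists_subset_card_eq G (b + 1)
    refine ⟨Subgroup.closure (t : Set G), inferInstance, ?_, ?_, ?_⟩
    · by_contra hcon
      have hf : Finite (Subgroup.closure (t : Set G)) := not_infinite_iff_finite.1 hcon
      have hmem : Semigrp.of (Subgroup.closure (t : Set G)) ∈ M := by
        refine mem_of_divides hI hGM ⟨(1 : Subgroup.closure (t : Set G))⟩ ?_
        exact divides_sub (Subgroup.closure (t : Set G)).toSubsemigroup
      have h6 := hb _ hmem hf
      have h7 : t.card ≤ Nat.card (Subgroup.closure (t : Set G)) := by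
        have h8 : ((t : Set G)).ncard ≤ ((Subgroup.closure (t : Set G) : Subgroup G) : Set G).ncard :=
          Set.ncard_le_ncard Subgroup.subset_closure (Set.toFinite _)
        rw [Set.ncard_coe_finset] at h8
        exact h8
      have h9 : Nat.card (Semigrp.of (Subgroup.closure (t : Set G)))
          = Nat.card (Subgroup.closure (t : Set G)) := rfl
      omega
    · exact (Group.fg_iff_subgroup_fg _).2 ⟨t, rfl⟩
    · refine mem_of_divides hI hGM ⟨(1 : Subgroup.closure (t : Set G))⟩ ?_
      exact divides_sub (Subgroup.closure (t : Set G)).toSubsemigroup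
  · -- unbounded finite members
    have a1 := type_alt (F := FinNull) hI (fun n S _ => DivNull n S)
      (fun h _ hS hc => null_divides h hS hc) (fun S hS => hS.1)
    have a2 := type_alt (F := FinLeft) hI (fun n S _ => DivLeft n S)
      (fun h _ hS hc => left_divides h hS hc) (fun S hS => hS.1)
    have a3 := type_alt (F := FinRight) hI (fun n S _ => DivRight n S)
      (fun h _ hS hc => right_divides h hS hc) (fun S hS => hS.1)
    have a4 := type_alt (F := FinChain) hI (fun n S _ => DivChain n S)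
      (fun h _ hS hc => chain_divides h hS hc) (fun S hS => hS.1)
    have a5 := type_alt (F := FinFlat) hI (fun n S _ => DivFlat n S)
      (fun h _ hS hc => flat_divides h hS hc) (fun S hS => hS.1)
    rcases a1 with a1 | ⟨k1, a1⟩
    · exact Or.inl (eq_of_family hM finNull_minimal a1)
    rcases a2 with a2 | ⟨k2, a2⟩
    · exact Or.inr (Or.inl (eq_of_family hM finLeft_minimal a2))
    rcases a3 with a3 | ⟨k3, a3⟩
    · exact Or.inr (Or.inr (Or.inl (eq_of_family hM finRight_minimal a3)))
    rcases a4 with a4 | ⟨k4, a4⟩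
    · exact Or.inr (Or.inr (Or.inr (Or.inl (eq_of_family hM finChain_minimal a4))))
    rcases a5 with a5 | ⟨k5, a5⟩
    · exact Or.inr (Or.inr (Or.inr (Or.inr (Or.inl (eq_of_family hM finFlat_minimal a5)))))
    by_cases hg : ∀ n : ℕ, ∃ S ∈ M, Finite S ∧ n ≤ Nat.card S ∧ IsGrp S
    · obtain ⟨p, hp, h | h⟩ := group_case hM hg
      · exact Or.inr (Or.inr (Or.inr (Or.inr (Or.inr (Or.inl ⟨p, hp, h⟩)))))
      · exact Or.inr (Or.inr (Or.inr (Or.inr (Or.inr (Or.inr (Or.inl ⟨p, hp, h⟩))))))
    · exfalso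
      push Not at hg
      obtain ⟨g, hg⟩ := hg
      obtain ⟨N, hN⟩ := unavoidable.{u} (max k1 (max k2 (max k3 (max k4 k5)))) g
      apply hfin
      refine ⟨N, fun S hS hSf => ?_⟩
      refine (hN S (a1 _ (le_max_left _ _) S hS)
        (a2 _ (le_max_of_le_right (le_max_left _ _)) S hS)
        (a3 _ (le_max_of_le_right (le_max_of_le_right (le_max_left _ _))) S hS)
        (a4 _ (le_max_of_le_right (le_max_of_le_right (le_max_of_le_right (le_max_left _ _)))) S hS)
        (a5 _ (le_max_of_le_right (le_max_of_le_right (le_max_of_le_right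
          (le_max_right _ _)))) S hS) fun e he => ?_).2
      have h7 : (He e).Finite := Set.toFinite _
      refine ⟨h7, ?_⟩
      obtain ⟨G, hG, hGM, ⟨f⟩⟩ := he_mem hI hS he
      have : Finite (He e) := h7
      have hfG : Finite G := Finite.of_equiv _ f.symm
      by_contra hcon
      push Not at hcon
      refine hg (Semigrp.of G) hGM hfG ?_ ⟨G, hG, ⟨MulEquiv.refl G⟩⟩
      have h9 : Nat.card G = Nat.card (He e) := Nat.card_congr f
      change g ≤ Nat.card G
      rw [h9, Nat.card_coe_set_eq]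
      exact hcon.le

end Pool.Agent.MNV
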