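import Pool.Agent.MNV.Defs
import Pool.Agent.MNV.Bounded

/-!
# Row H: the sections of an infinite simple group with bounded proper subgroups
-/

set_option autoImplicit false
set_option linter.unusedSectionVars false

namespace Pool.Agent.MNV

universe u v w

/-- the sections of `T` (in the universe of `T`) -/
def Sections (T : Type u) [Group T] : Set Semigrp.{u} := {S | Nonempty S ∧ Divides S T}

namespace Monster

open Filter

/-! ## Satisfaction and division -/

theorem satisfies_of_divides {S : Type u} {T : Type v} [Semigroup S] [Semigroup T]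
    (h : Divides T S) {σ : DisjId} (hσ : Satisfies S σ) : Satisfies T σ := by
  obtain ⟨U, f, hf⟩ := h
  intro φ
  choose g hg using fun i : ℕ => hf (φ (FreeSemigroup.of i))
  let ψ : FreeSemigroup ℕ →ₙ* U := FreeSemigroup.lift g
  have hψ : f.comp ψ = φ := by
    refine FreeSemigroup.hom_ext (funext fun i => ?_)
    show f (FreeSemigroup.lift g (FreeSemigroup.of i)) = _
    rw [FreeSemigroup.lift_of, hg]
    rfl
  obtain ⟨p, hp, h⟩ := hσ ((MulMemClass.subtype U).comp ψ)
  refine ⟨p, hp, ?_⟩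
  have h1 : ψ p.1 = ψ p.2 := Subtype.ext h
  rw [← hψ]
  show f (ψ p.1) = f (ψ p.2)
  rw [h1]

theorem divides_of_countable {S : Type u} [Semigroup S] [Countable S] [Nonempty S] {T : Type v}
    [Semigroup T] [Nonempty T] (h : ∀ σ, Satisfies T σ → Satisfies S σ) : Divides S T := by
  obtain ⟨e, he⟩ := exists_surjective_nat S
  set φ : FreeSemigroup ℕ →ₙ* S := FreeSemigroup.lift e with hφ
  have hs : ∀ s : S, ∃ w, φ w = s := by
    intro s
    obtain ⟨i, hi⟩ := he s
    exact ⟨FreeSemigroup.of i, by rw [hφ, FreeSemigroup.lift_of, hi]⟩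
  by_cases hne : ∃ p : FreeSemigroup ℕ × FreeSemigroup ℕ, φ p.1 ≠ φ p.2
  · have h1 : ¬ Satisfies S ⟨{p | φ p.1 ≠ φ p.2}, hne⟩ := by
      intro h2
      obtain ⟨p, hp, h3⟩ := h2 φ
      exact hp h3
    have h2 : ¬ Satisfies T ⟨{p | φ p.1 ≠ φ p.2}, hne⟩ := fun h3 => h1 (h _ h3)
    unfold Satisfies at h2
    push Not at h2
    obtain ⟨ψ, hψ⟩ := h2
    have hker : ∀ u v, ψ u = ψ v → φ u = φ v := by
      intro u v huv
      by_contra hc
      exact hψ (u, v) hc huv
    let c : ψ.srange → FreeSemigroup ℕ := fun x => (MulHom.mem_srange.mp x.2).choose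
    have hc : ∀ x, ψ (c x) = x := fun x => (MulHom.mem_srange.mp x.2).choose_spec
    refine ⟨ψ.srange, ⟨fun x => φ (c x), ?_⟩, ?_⟩
    · intro x y
      rw [← map_mul]
      apply hker
      rw [hc, map_mul, hc, hc]
      rfl
    · intro s
      obtain ⟨w, hw⟩ := hs s
      refine ⟨⟨ψ w, MulHom.mem_srange.mpr ⟨w, rfl⟩⟩, ?_⟩
      show φ (c _) = s
      rw [← hw]
      apply hker
      rw [hc]
  · push Not at hne
    have h1 : ∀ a b : S, a = b := by
      intro a b
      obtain ⟨u, hu⟩ := hs a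
      obtain ⟨v, hv⟩ := hs b
      rw [← hu, ← hv]
      exact hne (u, v)
    obtain ⟨s0⟩ := ‹Nonempty S›
    exact ⟨⊤, ⟨fun _ => s0, fun _ _ => h1 _ _⟩, fun s => ⟨⟨Classical.arbitrary T, trivial⟩, h1 _ _⟩⟩

/-! ## The group -/

section group

variable {T : Type u} [Group T]

/-- a nonempty subsemigroup of a torsion group is a subgroup -/
theorem toSubgroup (hT : ∀ x : T, IsOfFinOrder x) (U : Subsemigroup T) (hU : (U : Set T).Nonempty) :
    ∃ H : Subgroup T, (H : Set T) = U := by
  have hpow : ∀ x ∈ U, ∀ k : ℕ, x ^ (k + 1) ∈ U := by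
    intro x hx k
    induction k with
    | zero => simpa using hx
    | succ k ih =>
      rw [pow_succ]
      exact U.mul_mem ih hx
  have hone : ∀ x ∈ U, (1 : T) ∈ U := by
    intro x hx
    have h1 : 0 < orderOf x := (hT x).orderOf_pos
    have h2 := hpow x hx (orderOf x - 1)
    rwa [Nat.sub_add_cancel h1, pow_orderOf_eq_one] at h2
  have hinv : ∀ x ∈ U, x⁻¹ ∈ U := by
    intro x hx
    have h1 : 0 < orderOf x := (hT x).orderOf_pos
    have h2 : x ^ (orderOf x + orderOf x - 1) = x⁻¹ := by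
      rw [eq_inv_iff_mul_eq_one, ← pow_succ, Nat.sub_add_cancel (by omega), pow_add,
        pow_orderOf_eq_one, one_mul]
    have h3 := hpow x hx (orderOf x + orderOf x - 2)
    rw [show orderOf x + orderOf x - 2 + 1 = orderOf x + orderOf x - 1 by omega, h2] at h3
    exact h3
  obtain ⟨x, hx⟩ := hU
  exact ⟨⟨⟨⟨U, fun {a b} ha hb => U.mul_mem ha hb⟩, hone x hx⟩, fun {a} ha => hinv a ha⟩, rfl⟩

variable [Infinite T] {b : ℕ} (hb : ∀ H : Subgroup T, H ≠ ⊤ → Finite H ∧ Nat.card H ≤ b)
include hb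

theorem torsion (x : T) : IsOfFinOrder x := by
  by_contra h
  have h1 : Subgroup.zpowers (x ^ 2) = ⊤ := by
    by_contra h2
    have h3 := (hb _ h2).1
    have h4 : IsOfFinOrder (x ^ 2) := by
      rw [← finite_zpowers]
      exact Set.toFinite _
    exact h ((isOfFinOrder_pow.mp h4).resolve_right (by norm_num))
  have h2 : x ∈ Subgroup.zpowers (x ^ 2) := by
    rw [h1]
    trivial
  obtain ⟨k, hk⟩ := Subgroup.mem_zpowers_iff.mp h2
  apply h
  rw [isOfFinOrder_iff_zpow_eq_one]
  refine ⟨2 * k - 1, by omega, ?_⟩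
  rw [zpow_sub_one, zpow_mul, zpow_ofNat, hk, mul_inv_cancel]

theorem sub_cases (U : Subsemigroup T) (hU : (U : Set T).Nonempty) :
    U = ⊤ ∨ (Finite U ∧ Nat.card U ≤ b) := by
  obtain ⟨H, hH⟩ := toSubgroup (torsion hb) U hU
  have e : (H : Set T) = (U : Set T) := hH
  rcases eq_or_ne H ⊤ with h | h
  · left
    apply SetLike.coe_injective
    rw [← e, h]
    rfl
  · right
    obtain ⟨h1, h2⟩ := hb H h
    have e2 : H ≃ U := Equiv.setCongr e
    exact ⟨Finite.of_equiv _ e2, by rwa [← Nat.card_congr e2]⟩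

theorem one_le : 1 ≤ b := by
  have h1 := (hb ⊥ (by
    intro h
    have : Finite T := by
      have h2 : Finite (⊤ : Subgroup T) := by
        rw [← h]
        infer_instance
      exact Finite.of_equiv _ Subgroup.topEquiv.toEquiv
    exact not_finite T)).2
  rwa [Subgroup.card_bot] at h1

theorem dichotomy (hs : ∀ N : Subgroup T, N.Normal → N = ⊥ ∨ N = ⊤) {S : Type v} [Semigroup S]
    [Nonempty S] (h : Divides S T) : Nonempty (S ≃* T) ∨ (Finite S ∧ Nat.card S ≤ b) := by
  obtain ⟨U, f, hf⟩ := h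
  have hU : (U : Set T).Nonempty := by
    obtain ⟨s⟩ := ‹Nonempty S›
    obtain ⟨x, -⟩ := hf s
    exact ⟨x, x.2⟩
  rcases sub_cases hb U hU with h1 | ⟨h1, h2⟩
  · subst h1
    let g : T →ₙ* S := ⟨fun t => f ⟨t, trivial⟩, fun x y => by
      rw [← map_mul]
      rfl⟩
    have hg : Function.Surjective g := by
      intro s
      obtain ⟨x, hx⟩ := hf s
      exact ⟨x, hx⟩
    have hg1 : ∀ x, g x * g 1 = g x := fun x => by rw [← map_mul, mul_one]
    have h1g : ∀ x, g 1 * g x = g x := fun x => by rw [← map_mul, one_mul]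
    let N : Subgroup T :=
      { carrier := {t | g t = g 1}
        mul_mem' := by
          intro x y hx hy
          show g (x * y) = g 1
          rw [map_mul, show g x = g 1 from hx, show g y = g 1 from hy, hg1]
        one_mem' := rfl
        inv_mem' := by
          intro x hx
          show g x⁻¹ = g 1
          have h3 : g x = g 1 := hx
          rw [← hg1, ← h3, ← map_mul, inv_mul_cancel, h3] }
    have hN : N.Normal := by
      refine ⟨fun x hx y => ?_⟩
      show g (y * x * y⁻¹) = g 1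
      have h3 : g x = g 1 := hx
      rw [map_mul, map_mul, h3, hg1, ← map_mul, mul_inv_cancel]
    rcases hs N hN with h3 | h3
    · left
      have hinj : Function.Injective g := by
        intro x y hxy
        have h4 : x * y⁻¹ ∈ N := by
          show g (x * y⁻¹) = g 1
          rw [map_mul, hxy, ← map_mul, mul_inv_cancel]
        rw [h3, Subgroup.mem_bot] at h4
        exact mul_inv_eq_one.mp h4
      exact ⟨(MulEquiv.ofBijective g ⟨hinj, hg⟩).symm⟩
    · right
      have h4 : ∀ t, g t = g 1 := fun t => by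
        have : t ∈ N := by
          rw [h3]
          trivial
        exact this
      have h5 : Subsingleton S := ⟨fun a b => by
        obtain ⟨x, rfl⟩ := hg a
        obtain ⟨y, rfl⟩ := hg b
        rw [h4 x, h4 y]⟩
      refine ⟨inferInstance, ?_⟩
      rw [Nat.card_of_subsingleton (Classical.arbitrary S)]
      exact one_le hb
  · right
    have : Finite U := h1
    exact ⟨Finite.of_surjective f hf, (Nat.card_le_card_of_surjective f hf).trans h2⟩

/-- `T` has no proper subsemigroup which is a copy of an infinite semigroup `A` inside a copy of `T` -/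
theorem no_proper {S : Type v} [Semigroup S] (e : S ≃* T) (A : Subsemigroup S) (hA : Infinite A) :
    A = ⊤ := by
  have h1 := sub_cases hb (A.map (e : S →ₙ* T)) (by
    obtain ⟨a⟩ : Nonempty A := inferInstance
    exact ⟨e a, Subsemigroup.mem_map.mpr ⟨a, a.2, rfl⟩⟩)
  rcases h1 with h1 | ⟨h1, -⟩
  · rw [eq_top_iff]
    intro x _
    have h2 : e x ∈ A.map (e : S →ₙ* T) := by
      rw [h1]
      trivial
    obtain ⟨y, hy, hyx⟩ := Subsemigroup.mem_map.mp h2
    rwa [← e.injective hyx]
  · exfalso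
    have h2 : Finite A := Finite.of_injective
      (fun a : A => (⟨e a, Subsemigroup.mem_map.mpr ⟨a, a.2, rfl⟩⟩ : A.map (e : S →ₙ* T)))
      (fun a a' h => Subtype.ext (e.injective (Subtype.mk.inj h)))
    exact not_finite A

end group

/-! ## Countable subsemigroups -/

instance : Countable (FreeSemigroup ℕ) :=
  Function.Injective.countable (f := fun w : FreeSemigroup ℕ => (w.head, w.tail)) fun x y h => by
    cases x
    cases y
    simpa using h

/-- the subsemigroup generated by a sequence -/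
def gen {S : Type u} [Semigroup S] (e : ℕ → S) : Subsemigroup S :=
  (FreeSemigroup.lift e : FreeSemigroup ℕ →ₙ* S).srange

theorem mem_gen {S : Type u} [Semigroup S] (e : ℕ → S) (i : ℕ) : e i ∈ gen e :=
  MulHom.mem_srange.mpr ⟨FreeSemigroup.of i, by rw [FreeSemigroup.lift_of]⟩

theorem gen_countable {S : Type u} [Semigroup S] (e : ℕ → S) : Countable (gen e) := by
  have h : Function.Surjective
      (fun w : FreeSemigroup ℕ => (⟨FreeSemigroup.lift e w, MulHom.mem_srange.mpr ⟨w, rfl⟩⟩ : gen e)) := by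
    rintro ⟨x, hx⟩
    obtain ⟨w, hw⟩ := MulHom.mem_srange.mp hx
    exact ⟨w, Subtype.ext hw⟩
  exact h.countable

theorem gen_le {S : Type u} [Semigroup S] (e : ℕ → S) {A : Subsemigroup S} (h : ∀ i, e i ∈ A) :
    gen e ≤ A := by
  rintro x hx
  obtain ⟨w, rfl⟩ := MulHom.mem_srange.mp hx
  induction w using FreeSemigroup.recOnMul with
  | ih1 i =>
    rw [FreeSemigroup.lift_of]
    exact h i
  | ih2 i w _ ih =>
    rw [map_mul, FreeSemigroup.lift_of]
    exact A.mul_mem (h i) (ih (MulHom.mem_srange.mpr ⟨w, rfl⟩))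

/-! ## The class of sections -/

section main

variable (T : Type u) [Group T] [Infinite T] {b : ℕ}

theorem countable_of_satisfies (hb : ∀ H : Subgroup T, H ≠ ⊤ → Finite H ∧ Nat.card H ≤ b)
    (hs : ∀ N : Subgroup T, N.Normal → N = ⊥ ∨ N = ⊤) {S : Type v} [Semigroup S]
    (h : ∀ σ, Satisfies T σ → Satisfies S σ) : Countable S := by
  by_contra hc
  have hinf : Infinite S := by
    by_contra h1
    rw [not_infinite_iff_finite] at h1
    exact hc inferInstance
  let e : ℕ ↪ S := Infinite.natEmbedding S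
  have h1 : Countable (gen e) := gen_countable e
  obtain ⟨s, hs'⟩ : ∃ s, s ∉ gen e := by
    by_contra h2
    push Not at h2
    apply hc
    have h3 : Function.Surjective (fun x : gen (e : ℕ → S) => (x : S)) := fun s => ⟨⟨s, h2 s⟩, rfl⟩
    exact h3.countable
  let e' : ℕ → S := fun n => Nat.casesOn n s e
  have h2 : Countable (gen e') := gen_countable e'
  have h3 : Infinite (gen e') := Infinite.of_injective
    (fun n : ℕ => (⟨e n, mem_gen e' (n + 1)⟩ : gen e')) fun m n hmn => e.injective (Subtype.mk.inj hmn)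
  have h4 : Divides (gen e') T := divides_of_countable fun σ hσ =>
    satisfies_of_divides ⟨gen e', MulHom.id _, fun x => ⟨x, rfl⟩⟩ (h σ hσ)
  rcases dichotomy hb hs h4 with ⟨⟨g⟩⟩ | ⟨h5, -⟩
  · let A : Subsemigroup (gen e') := (gen e).comap (MulMemClass.subtype (gen e'))
    have hA : Infinite A := Infinite.of_injective
      (fun n : ℕ => (⟨⟨e n, mem_gen e' (n + 1)⟩, mem_gen e n⟩ : A)) fun m n hmn =>
        e.injective (Subtype.mk.inj (Subtype.mk.inj hmn))
    have h5 : A = ⊤ := no_proper hb g A hA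
    have h6 : (⟨s, mem_gen e' 0⟩ : gen e') ∈ A := by
      rw [h5]
      trivial
    exact hs' h6
  · exact not_finite (gen e')

theorem sections_eq (hb : ∀ H : Subgroup T, H ≠ ⊤ → Finite H ∧ Nat.card H ≤ b)
    (hs : ∀ N : Subgroup T, N.Normal → N = ⊥ ∨ N = ⊤) :
    Sections T = Models {σ | Satisfies T σ} := by
  ext S
  constructor
  · rintro ⟨h1, h2⟩
    exact ⟨h1, fun σ hσ => satisfies_of_divides h2 hσ⟩
  · rintro ⟨h1, h2⟩
    have : Countable S := countable_of_satisfies T hb hs h2
    exact ⟨h1, divides_of_countable h2⟩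

/-! ## The ultrapower -/

/-- the ultrapower -/
abbrev UP (T : Type u) : Type u := (hyperfilter ℕ : Filter ℕ).Germ T

theorem up_satisfies {σ : DisjId} (hfin : σ.pairs.Finite) (h : Satisfies T σ) :
    Satisfies (UP T) σ := by
  intro φ
  have hr : ∀ x : UP T, ∃ r : ℕ → T, (r : UP T) = x := fun x => by
    induction x using Filter.Germ.inductionOn with
    | _ r => exact ⟨r, rfl⟩
  choose r hr using fun i : ℕ => hr (φ (FreeSemigroup.of i))
  let φn : ℕ → FreeSemigroup ℕ →ₙ* T := fun n => FreeSemigroup.lift fun i => r i n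
  have h1 : ∀ w, φ w = ((fun n => φn n w : ℕ → T) : UP T) := by
    intro w
    induction w using FreeSemigroup.recOnMul with
    | ih1 i => rw [← hr i]; rfl
    | ih2 i w h1 h2 =>
      rw [map_mul, h1, h2, ← Filter.Germ.coe_mul]
      congr 1
      funext n
      show _ = φn n _
      rw [map_mul]
      rfl
  have h2 : ∀ n, ∃ p ∈ σ.pairs, φn n p.1 = φn n p.2 := fun n => h (φn n)
  have h3 : ∀ᶠ n in (hyperfilter ℕ : Filter ℕ), ∃ p ∈ σ.pairs, φn n p.1 = φn n p.2 :=
    Eventually.of_forall h2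
  have h4 : ∃ p ∈ σ.pairs, ∀ᶠ n in (hyperfilter ℕ : Filter ℕ), φn n p.1 = φn n p.2 := by
    by_contra hc
    push Not at hc
    have h5 : ∀ p ∈ σ.pairs, ∀ᶠ n in (hyperfilter ℕ : Filter ℕ), φn n p.1 ≠ φn n p.2 :=
      fun p hp => hc p hp
    have h6 : ∀ᶠ n in (hyperfilter ℕ : Filter ℕ), ∀ p ∈ σ.pairs, φn n p.1 ≠ φn n p.2 :=
      (Filter.eventually_all_finite hfin).mpr h5
    obtain ⟨n, hn1, hn2⟩ := (h3.and h6).exists
    obtain ⟨p, hp, hp'⟩ := hn1
    exact hn2 p hp hp'
  obtain ⟨p, hp, hp'⟩ := h4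
  refine ⟨p, hp, ?_⟩
  rw [h1, h1]
  exact Filter.Germ.coe_eq.mpr hp'

/-- the diagonal -/
noncomputable def diag : T →ₙ* UP T := ⟨fun t => ((fun _ => t : ℕ → T) : UP T), fun _ _ => rfl⟩

theorem diag_injective : Function.Injective (diag T) := by
  intro x y h
  have h1 : (fun _ : ℕ => x) =ᶠ[(hyperfilter ℕ : Filter ℕ)] fun _ => y := Filter.Germ.coe_eq.mp h
  obtain ⟨n, hn⟩ := h1.exists
  exact hn

theorem diag_not_surjective : ∃ x : UP T, ∀ t, diag T t ≠ x := by
  refine ⟨((Infinite.natEmbedding T : ℕ → T) : UP T), fun t h => ?_⟩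
  have h1 : (fun _ : ℕ => t) =ᶠ[(hyperfilter ℕ : Filter ℕ)] (Infinite.natEmbedding T : ℕ → T) :=
    Filter.Germ.coe_eq.mp h
  have h2 : {n : ℕ | t = Infinite.natEmbedding T n}.Finite := by
    apply Set.Subsingleton.finite
    intro m hm n hn
    exact (Infinite.natEmbedding T).injective (hm.symm.trans hn)
  exact notMem_hyperfilter_of_finite h2 h1

end main

end Monster

open Monster in
theorem monster_minimal (T : Type u) [Group T] [Infinite T] (b : ℕ)
    (hb : ∀ H : Subgroup T, H ≠ ⊤ → Finite H ∧ Nat.card H ≤ b)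
    (hs : ∀ N : Subgroup T, N.Normal → N = ⊥ ∨ N = ⊤) :
    IsMinimalNonelementary (Sections T) := by
  refine ⟨⟨_, sections_eq T hb hs⟩, ?_, ?_⟩
  · rintro ⟨Γ, hΓ, hM⟩
    have h1 : Semigrp.of T ∈ Sections T := ⟨inferInstanceAs (Nonempty T), ⊤,
      ⟨fun x => x.1, fun _ _ => rfl⟩, fun x => ⟨⟨x, trivial⟩, rfl⟩⟩
    have h2 : Semigrp.of (UP T) ∈ Sections T := by
      rw [hM] at h1 ⊢
      exact ⟨inferInstanceAs (Nonempty (UP T)), fun σ hσ => up_satisfies T (hΓ σ hσ) (h1.2 σ hσ)⟩
    have hinf : Infinite (UP T) := Infinite.of_injective _ (diag_injective T)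
    rcases dichotomy hb hs (S := UP T) h2.2 with ⟨⟨g⟩⟩ | ⟨h3, -⟩
    · have h4 : Infinite (diag T).srange := Infinite.of_injective
        (fun t : T => (⟨diag T t, MulHom.mem_srange.mpr ⟨t, rfl⟩⟩ : (diag T).srange))
        fun x y h => diag_injective T (Subtype.mk.inj h)
      have h5 := no_proper hb g (diag T).srange h4
      obtain ⟨x, hx⟩ := diag_not_surjective T
      have h6 : x ∈ (diag T).srange := by
        rw [h5]
        trivial
      obtain ⟨t, ht⟩ := MulHom.mem_srange.mp h6
      exact hx t ht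
    · exact not_finite (UP T)
  · intro N hN hlt
    refine elementary_of_bounded hN b fun S hS => ?_
    have h1 : S ∈ Sections T := hlt.1 hS
    obtain ⟨h2, h3⟩ := h1
    rcases dichotomy hb hs h3 with ⟨⟨g⟩⟩ | h4
    · exfalso
      apply hlt.2
      rintro R ⟨h5, h6⟩
      obtain ⟨Γ, hΓ⟩ := hN
      rw [hΓ] at hS ⊢
      refine ⟨h5, fun σ hσ => satisfies_of_divides h6 (satisfies_of_divides ?_ (hS.2 σ hσ))⟩
      exact ⟨⊤, ⟨fun x => g x.1, fun _ _ => map_mul g _ _⟩, fun t => ⟨⟨g.symm t, trivial⟩, g.apply_symm_apply t⟩⟩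
    · exact h4

end Pool.Agent.MNV
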