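import Mathlib
import Pool.Agent.MNV.Defs
import Pool.Agent.MNV.Base
import Pool.Agent.MNV.He
import Pool.Agent.MNV.GroupCase
import Pool.Agent.MNV.Monster

/-!
# The literal reading: identical inclusions `u ∈̂ V`; classes of groups
-/

set_option autoImplicit false

namespace Pool.Agent.MNV.Lit

universe u

/-- An identical inclusion `u ∈̂ V`: a word `u ∈ X⁺` and a nonempty set of words `V ⊆ X⁺`, where
`X = ℕ` and `X⁺ = FreeSemigroup ℕ`. -/
structure IdInclusion where
  /-- the left-hand word `u` -/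
  word : FreeSemigroup ℕ
  /-- the set `V` of words on the right -/
  words : Set (FreeSemigroup ℕ)
  nonempty : words.Nonempty

/-- `S` satisfies `u ∈̂ V`: every homomorphism `φ : X⁺ → S` has `φ u = φ v` for some `v ∈ V`. -/
def Satisfies (S : Type u) [Semigroup S] (σ : IdInclusion) : Prop :=
  ∀ φ : FreeSemigroup ℕ →ₙ* S, ∃ v ∈ σ.words, φ σ.word = φ v

/-- The class of all (nonempty) semigroups satisfying every member of `Γ`. -/
def Models (Γ : Set IdInclusion) : Set Semigrp.{u} :=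
  {S | Nonempty S ∧ ∀ σ ∈ Γ, Satisfies S σ}

/-- Inclusive varieties, literal reading: the classes defined by some set of identical
inclusions `u ∈̂ V`. -/
def IsInclusiveVariety (M : Set Semigrp.{u}) : Prop :=
  ∃ Γ : Set IdInclusion, M = Models Γ

/-- Elementary: defined by some set of identical inclusions `u ∈̂ V` with `V` finite. -/
def IsElementary (M : Set Semigrp.{u}) : Prop :=
  ∃ Γ : Set IdInclusion, (∀ σ ∈ Γ, σ.words.Finite) ∧ M = Models Γ

/-- `M` is a minimal nonelementary inclusive variety of semigroups, literal reading. -/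
def IsMinimalNonelementary (M : Set Semigrp.{u}) : Prop :=
  IsInclusiveVariety M ∧ ¬ IsElementary M ∧
    ∀ N : Set Semigrp.{u}, IsInclusiveVariety N → N ⊂ M → IsElementary N

/-- the disjunction of the equalities `u = v`, `v ∈ V` -/
def toDisj (σ : IdInclusion) : DisjId where
  pairs := (fun v => (σ.word, v)) '' σ.words
  nonempty := σ.nonempty.image _

theorem satisfies_toDisj {S : Type u} [Semigroup S] (σ : IdInclusion) :
    MNV.Satisfies S (toDisj σ) ↔ Satisfies S σ := by
  constructor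
  · intro h φ
    obtain ⟨p, ⟨v, hv, rfl⟩, he⟩ := h φ
    exact ⟨v, hv, he⟩
  · intro h φ
    obtain ⟨v, hv, he⟩ := h φ
    exact ⟨_, ⟨v, hv, rfl⟩, he⟩

theorem litModels_eq (Γ : Set IdInclusion) : Models.{u} Γ = MNV.Models (toDisj '' Γ) := by
  ext S
  constructor
  · rintro ⟨h1, h2⟩
    refine ⟨h1, ?_⟩
    rintro _ ⟨σ, hσ, rfl⟩
    exact (satisfies_toDisj σ).2 (h2 σ hσ)
  · rintro ⟨h1, h2⟩
    refine ⟨h1, fun σ hσ => ?_⟩
    exact (satisfies_toDisj σ).1 (h2 _ ⟨σ, hσ, rfl⟩)

theorem inclusive_of_lit {M : Set Semigrp.{u}} (h : IsInclusiveVariety M) : MNV.IsInclusiveVariety M := by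
  obtain ⟨Γ, rfl⟩ := h
  exact ⟨_, litModels_eq Γ⟩

theorem elementary_of_lit {M : Set Semigrp.{u}} (h : IsElementary M) : MNV.IsElementary M := by
  obtain ⟨Γ, hΓ, rfl⟩ := h
  refine ⟨_, ?_, litModels_eq Γ⟩
  rintro _ ⟨σ, hσ, rfl⟩
  exact (hΓ σ hσ).image _

/-! ### powers -/

theorem map_pw {S T : Type*} [Semigroup S] [Semigroup T] (f : S →ₙ* T) (x : S) (k : ℕ) :
    f (pw x k) = pw (f x) k := by
  induction k with
  | zero => rfl
  | succ k ih => rw [pw, map_mul, ih, pw]

theorem map_pw' {S T : Type*} [Semigroup S] [Semigroup T] (e : S ≃* T) (x : S) (k : ℕ) :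
    e (pw x k) = pw (e x) k := map_pw (e : S →ₙ* T) x k

theorem pw_group {G : Type*} [Group G] (x : G) (k : ℕ) : pw x k = x ^ (k + 1) := by
  induction k with
  | zero => simp [pw]
  | succ k ih => rw [pw, ih, ← pow_succ]

theorem coe_pw {S : Type u} [Semigroup S] (x : S) (k : ℕ) :
    ((pw x k : S) : WithOne S) = (x : WithOne S) ^ (k + 1) := by
  induction k with
  | zero => simp [pw]
  | succ k ih => rw [pw, WithOne.coe_mul, ih, ← pow_succ]

theorem pow_fix {A : Type*} [Monoid A] {a x : A} {k : ℕ} (h : a ^ k * x = x) (l : ℕ) :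
    a ^ (k * l) * x = x := by
  induction l with
  | zero => simp
  | succ l ih => rw [Nat.mul_succ, pow_add, mul_assoc, h, ih]

/-- cancellation from fixing powers -/
theorem cancel_of_fix {A : Type*} [Monoid A] {a x y : A} {k l : ℕ} (hk : a ^ (k + 1) * x = x)
    (hl : a ^ (l + 1) * y = y) (h : a * x = a * y) : x = y := by
  have h1 := pow_fix hk (l + 1)
  have h2 := pow_fix hl (k + 1)
  rw [mul_comm (l + 1) (k + 1)] at h2
  obtain ⟨n, hn⟩ : ∃ n, (k + 1) * (l + 1) = n + 1 := ⟨(k + 1) * (l + 1) - 1, by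
    have : 0 < (k + 1) * (l + 1) := by positivity
    omega⟩
  rw [hn, pow_succ, mul_assoc] at h1 h2
  rw [← h1, ← h2, h]

/-! ### the infinite monogenic semigroup -/

/-- the infinite monogenic semigroup -/
abbrev P : Type u := ULift.{u} (Multiplicative ℕ+)

theorem not_isGrp_P : ¬ IsGrp P.{u} := by
  rintro ⟨G, _, ⟨e⟩⟩
  have h : e.symm 1 * e.symm 1 = e.symm 1 := by rw [← map_mul, one_mul]
  have h2 := congrArg (fun x : P.{u} => ((Multiplicative.toAdd x.down : ℕ+) : ℕ)) h
  have h3 : ((Multiplicative.toAdd (e.symm 1).down : ℕ+) : ℕ) +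
      ((Multiplicative.toAdd (e.symm 1).down : ℕ+) : ℕ) =
      ((Multiplicative.toAdd (e.symm 1).down : ℕ+) : ℕ) := h2
  have h4 := (Multiplicative.toAdd (e.symm 1).down : ℕ+).pos
  omega

/-- the powers of an element of a group -/
def powHom {G : Type u} [Group G] (g : G) : P.{u} →ₙ* G where
  toFun n := g ^ ((Multiplicative.toAdd n.down : ℕ+) : ℕ)
  map_mul' := fun a b => by
    show g ^ (((Multiplicative.toAdd a.down : ℕ+) + (Multiplicative.toAdd b.down : ℕ+) : ℕ+) : ℕ)
      = _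
    rw [PNat.add_coe, pow_add]

theorem P_mem_of_mem {N : Set Semigrp.{u}} (hN : MNV.IsInclusiveVariety N) {S : Semigrp.{u}}
    (hS : S ∈ N) {G : Type u} [Group G] (e : S ≃* G) (g : G) (hg : orderOf g = 0) :
    Semigrp.of P.{u} ∈ N := by
  refine mem_of_forall hN ⟨ULift.up (Multiplicative.ofAdd 1)⟩ fun φ => ⟨S, hS,
    (e.symm : G →ₙ* S).comp ((powHom g).comp φ), fun a b hab => ?_⟩
  have h1 : powHom g (φ a) = powHom g (φ b) := e.symm.injective hab
  have h2 : g ^ ((Multiplicative.toAdd (φ a).down : ℕ+) : ℕ) =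
      g ^ ((Multiplicative.toAdd (φ b).down : ℕ+) : ℕ) := h1
  have h3 : ((Multiplicative.toAdd (φ a).down : ℕ+) : ℕ) =
      ((Multiplicative.toAdd (φ b).down : ℕ+) : ℕ) := by
    have hinj : Function.Injective (fun n : ℕ => g ^ n) := by
      rw [injective_pow_iff_not_isOfFinOrder]
      exact orderOf_eq_zero_iff.1 hg
    exact hinj h2
  have h4 : Multiplicative.toAdd (φ a).down = Multiplicative.toAdd (φ b).down :=
    PNat.coe_injective h3
  exact ULift.down_injective (Multiplicative.toAdd.injective h4)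

/-- members of inclusive varieties of groups are periodic -/
theorem orderOf_pos_of {N : Set Semigrp.{u}} (hN : MNV.IsInclusiveVariety N)
    (hg : ∀ S ∈ N, IsGrp S) {S : Semigrp.{u}} (hS : S ∈ N) {G : Type u} [Group G] (e : S ≃* G)
    (g : G) : 0 < orderOf g := by
  by_contra h
  have h0 : orderOf g = 0 := by omega
  exact not_isGrp_P (hg _ (P_mem_of_mem hN hS e g h0))

/-- if an elementary class contains elements of unbounded order it contains `P` -/
theorem P_mem_of_unbounded {N : Set Semigrp.{u}} (hN : MNV.IsElementary N)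
    (h : ∀ B : ℕ, ∃ S ∈ N, ∃ x : S, ∀ i ≤ B, ∀ j ≤ B, pw x i = pw x j → i = j) :
    Semigrp.of P.{u} ∈ N := by
  obtain ⟨Γ, hΓ, rfl⟩ := hN
  refine ⟨⟨ULift.up (Multiplicative.ofAdd 1)⟩, fun σ hσ φ => ?_⟩
  -- weights of letters
  let wt : FreeSemigroup ℕ → ℕ := fun w => ((Multiplicative.toAdd (φ w).down : ℕ+) : ℕ)
  have hwt : ∀ a b, wt (a * b) = wt a + wt b := by
    intro a b
    show ((Multiplicative.toAdd (φ (a * b)).down : ℕ+) : ℕ) = _
    rw [map_mul]
    rfl
  have hpos : ∀ a, 0 < wt a := fun a => PNat.pos _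
  obtain ⟨B, hB⟩ : ∃ B, ∀ p ∈ σ.pairs, wt p.1 ≤ B ∧ wt p.2 ≤ B := by
    obtain ⟨B, hB⟩ := ((hΓ σ hσ).image (fun p => wt p.1 + wt p.2)).bddAbove
    refine ⟨B, fun p hp => ?_⟩
    have := hB ⟨p, hp, rfl⟩
    simp only at this
    omega
  obtain ⟨S, hS, x, hx⟩ := h B
  let ψ : FreeSemigroup ℕ →ₙ* S := FreeSemigroup.lift (fun i => pw x (wt (FreeSemigroup.of i) - 1))
  have hadd : ∀ k l, pw x k * pw x l = pw x (k + l + 1) := by
    intro k l
    apply WithOne.coe_injective
    rw [WithOne.coe_mul, coe_pw, coe_pw, coe_pw, ← pow_add]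
    congr 1
    omega
  have hψ : ∀ w, ψ w = pw x (wt w - 1) := by
    intro w
    induction w using FreeSemigroup.recOnMul with
    | ih1 i => simp [ψ]
    | ih2 i w h1 h2 =>
      rw [map_mul, h1, h2, hadd, hwt]
      congr 1
      have := hpos (FreeSemigroup.of i)
      have := hpos w
      omega
  obtain ⟨p, hp, he⟩ := hS.2 σ hσ ψ
  refine ⟨p, hp, ?_⟩
  rw [hψ, hψ] at he
  have h1 := hB p hp
  have h2 := hx _ (by omega) _ (by omega) he
  have h3 := hpos p.1
  have h4 := hpos p.2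
  have h5 : wt p.1 = wt p.2 := by omega
  exact ULift.down_injective (Multiplicative.toAdd.injective (PNat.coe_injective h5))

/-! ### inclusive varieties of groups: literal = wide -/

theorem lit_of_inclusive {N : Set Semigrp.{u}} (hN : MNV.IsInclusiveVariety N)
    (hg : ∀ S ∈ N, IsGrp S) : IsInclusiveVariety N := by
  refine ⟨{σ | ∀ T ∈ N, Satisfies T σ}, Set.Subset.antisymm ?_ ?_⟩
  · intro S hS
    exact ⟨nonempty_of_mem hN hS, fun σ hσ => hσ S hS⟩
  · rintro S ⟨hSn, hS⟩
    refine mem_of_forall hN hSn fun φ => ?_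
    -- the pointed condition
    have star : ∀ w : FreeSemigroup ℕ, ∃ T ∈ N, ∃ ψ : FreeSemigroup ℕ →ₙ* T,
        ∀ v, ψ w = ψ v → φ w = φ v := by
      intro w
      by_cases hne : ({v | φ w ≠ φ v}).Nonempty
      · have h1 : ∃ T ∈ N, ¬ Satisfies T ⟨w, _, hne⟩ := by
          by_contra hcon
          push Not at hcon
          obtain ⟨v, hv, he⟩ := hS _ hcon φ
          exact hv he
        obtain ⟨T, hT, hTs⟩ := h1
        unfold Satisfies at hTs
        push Not at hTs
        obtain ⟨ψ, hψ⟩ := hTs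
        refine ⟨T, hT, ψ, fun v hv => ?_⟩
        by_contra hcon
        exact hψ v hcon hv
      · have htriv : Semigrp.of PUnit.{u + 1} ∈ N :=
          mem_trivial hN ⟨PUnit.unit⟩ (fun _ _ => rfl)
        refine ⟨_, htriv, ⟨fun _ => PUnit.unit, fun _ _ => rfl⟩, fun v _ => ?_⟩
        by_contra hcon
        exact hne ⟨v, hcon⟩
    -- fixing powers
    have hfix : ∀ c v : FreeSemigroup ℕ, ∃ k : ℕ, (φ c : WithOne S) ^ (k + 1) * φ v = φ v := by
      intro c v
      obtain ⟨T, hT, ψ, hψ⟩ := star v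
      obtain ⟨G, _, ⟨e⟩⟩ := hg T hT
      have ho := orderOf_pos_of hN hg hT e (e (ψ c))
      refine ⟨orderOf (e (ψ c)) - 1, ?_⟩
      have h1 : ψ v = ψ (pw c (orderOf (e (ψ c)) - 1) * v) := by
        apply e.injective
        rw [map_mul, map_mul, map_pw ψ, map_pw' e]
        rw [pw_group, Nat.sub_add_cancel ho, pow_orderOf_eq_one, one_mul]
      have h2 := hψ _ h1
      rw [map_mul, map_pw φ] at h2
      rw [← coe_pw, ← WithOne.coe_mul, ← h2]
    -- the kernel condition
    obtain ⟨T, hT, ψ, hψ⟩ := star (FreeSemigroup.of 0)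
    refine ⟨T, hT, ψ, fun a b hab => ?_⟩
    obtain ⟨G, _, ⟨e⟩⟩ := hg T hT
    have ho := orderOf_pos_of hN hg hT e (e (ψ a))
    set m := orderOf (e (ψ a)) with hm
    -- the words `x a^(2m-1) a` and `x a^(2m-1) b`
    have h1 : ψ (FreeSemigroup.of 0) = ψ (FreeSemigroup.of 0 * pw a (2 * m - 2) * a) := by
      apply e.injective
      rw [map_mul, map_mul, map_mul, map_mul, map_pw ψ, map_pw' e]
      rw [pw_group, mul_assoc, ← pow_succ, show 2 * m - 2 + 1 + 1 = m * 2 from by omega, pow_mul,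
        pow_orderOf_eq_one, one_pow, mul_one]
    have h2 : ψ (FreeSemigroup.of 0) = ψ (FreeSemigroup.of 0 * pw a (2 * m - 2) * b) := by
      rw [h1, map_mul, map_mul _ _ b, hab]
    have h3 : φ (FreeSemigroup.of 0 * pw a (2 * m - 2)) * φ a =
        φ (FreeSemigroup.of 0 * pw a (2 * m - 2)) * φ b := by
      rw [← map_mul, ← map_mul, ← hψ _ h1, ← hψ _ h2]
    obtain ⟨k, hk⟩ := hfix (FreeSemigroup.of 0 * pw a (2 * m - 2)) a
    obtain ⟨l, hl⟩ := hfix (FreeSemigroup.of 0 * pw a (2 * m - 2)) b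
    apply WithOne.coe_injective
    refine cancel_of_fix hk hl ?_
    rw [← WithOne.coe_mul, ← WithOne.coe_mul, h3]

/-- elementary classes of groups have bounded exponent -/
theorem bounded_exponent {N : Set Semigrp.{u}} (hN : MNV.IsElementary N)
    (hg : ∀ S ∈ N, IsGrp S) : ∃ k : ℕ, ∀ S ∈ N, ∀ x z : S, z * (pw x k * x) = z ∧
      pw x k * x * z = z := by
  by_contra hcon
  push Not at hcon
  apply not_isGrp_P
  refine hg _ (P_mem_of_unbounded hN fun B => ?_)
  obtain ⟨S, hS, x, z, hxz⟩ := hcon ((B + 2).factorial - 2)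
  refine ⟨S, hS, x, ?_⟩
  obtain ⟨G, _, ⟨e⟩⟩ := hg S hS
  have h2 : 2 ≤ (B + 2).factorial :=
    le_trans (by omega) (Nat.self_le_factorial (B + 2))
  have hord : orderOf (e x) = 0 ∨ B + 2 < orderOf (e x) := by
    by_contra hc
    push Not at hc
    have h3 : orderOf (e x) ∣ (B + 2).factorial :=
      Nat.dvd_factorial (Nat.pos_of_ne_zero hc.1) hc.2
    have h4 : (e x) ^ (B + 2).factorial = 1 := orderOf_dvd_iff_pow_eq_one.1 h3
    have h5 : pw (e x) ((B + 2).factorial - 2) * e x = 1 := by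
      rw [pw_group, ← pow_succ, show (B + 2).factorial - 2 + 1 + 1 = (B + 2).factorial from by
        omega, h4]
    have h6 : e (pw x ((B + 2).factorial - 2) * x) = 1 := by
      rw [map_mul, map_pw' e]
      exact h5
    apply hxz
    · apply e.injective
      rw [map_mul, h6, mul_one]
    · apply e.injective
      rw [map_mul, h6, one_mul]
  intro i hi j hj hij
  have h7 : (e x) ^ (i + 1) = (e x) ^ (j + 1) := by
    rw [← pw_group, ← pw_group]
    have := congrArg e hij
    rwa [map_pw' e, map_pw' e] at this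
  rcases hord with h0 | h0
  · have hinj : Function.Injective (fun n : ℕ => (e x) ^ n) := by
      rw [injective_pow_iff_not_isOfFinOrder]
      exact orderOf_eq_zero_iff.1 h0
    have := hinj h7
    omega
  · have := pow_injOn_Iio_orderOf (x := e x) (show i + 1 ∈ Set.Iio (orderOf (e x)) by
      simp only [Set.mem_Iio]; omega) (show j + 1 ∈ Set.Iio (orderOf (e x)) by
      simp only [Set.mem_Iio]; omega) h7
    omega

theorem lit_elementary_of {N : Set Semigrp.{u}} (hN : MNV.IsElementary N)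
    (hg : ∀ S ∈ N, IsGrp S) : IsElementary N := by
  obtain ⟨k, hk⟩ := bounded_exponent hN hg
  obtain ⟨Γ, hΓ, rfl⟩ := hN
  let z : FreeSemigroup ℕ := FreeSemigroup.of 0
  let x : FreeSemigroup ℕ := FreeSemigroup.of 1
  let A : IdInclusion := ⟨z, {z * (pw x k * x)}, Set.singleton_nonempty _⟩
  let B : IdInclusion := ⟨z, {pw x k * x * z}, Set.singleton_nonempty _⟩
  let C : DisjId → IdInclusion := fun σ =>
    ⟨z, (fun p : FreeSemigroup ℕ × FreeSemigroup ℕ => z * pw p.1 k * p.2) '' σ.pairs,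
      σ.nonempty.image _⟩
  refine ⟨{A, B} ∪ C '' Γ, ?_, Set.Subset.antisymm ?_ ?_⟩
  · rintro τ (h | ⟨σ, hσ, rfl⟩)
    · rcases h with rfl | h
      · exact Set.finite_singleton _
      · rw [Set.mem_singleton_iff] at h
        subst h
        exact Set.finite_singleton _
    · exact (hΓ σ hσ).image _
  · intro S hS
    refine ⟨hS.1, ?_⟩
    rintro τ (h | ⟨σ, hσ, rfl⟩)
    · rcases h with rfl | h
      · intro φ
        refine ⟨_, rfl, ?_⟩
        rw [map_mul, map_mul, map_pw φ]
        exact ((hk S hS _ _).1).symm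
      · rw [Set.mem_singleton_iff] at h
        subst h
        intro φ
        refine ⟨_, rfl, ?_⟩
        rw [map_mul, map_mul, map_pw φ]
        exact ((hk S hS _ _).2).symm
    · intro φ
      obtain ⟨p, hp, he⟩ := hS.2 σ hσ φ
      refine ⟨_, ⟨p, hp, rfl⟩, ?_⟩
      show φ z = φ (z * pw p.1 k * p.2)
      rw [map_mul, map_mul, map_pw φ, ← he, mul_assoc]
      exact ((hk S hS _ _).1).symm
  · rintro S ⟨hSn, hS⟩
    refine ⟨hSn, fun σ hσ φ => ?_⟩
    -- `z x^(k+2) = z = x^(k+2) z` in `S`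
    have hid : ∀ a b : S, b * (pw a k * a) = b ∧ pw a k * a * b = b := by
      intro a b
      let θ : FreeSemigroup ℕ →ₙ* S := FreeSemigroup.lift (fun n => if n = 0 then b else a)
      have hz : θ z = b := by simp [θ, z]
      have hx : θ x = a := by simp [θ, x]
      constructor
      · obtain ⟨v, hv, he⟩ := hS A (Or.inl (Or.inl rfl)) θ
        have hv' : v = z * (pw x k * x) := hv
        have he' : θ z = θ v := he
        rw [hv', map_mul, map_mul, map_pw θ, hz, hx] at he'
        exact he'.symm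
      · obtain ⟨v, hv, he⟩ := hS B (Or.inl (Or.inr rfl)) θ
        have hv' : v = pw x k * x * z := hv
        have he' : θ z = θ v := he
        rw [hv', map_mul, map_mul, map_pw θ, hz, hx] at he'
        exact he'.symm
    obtain ⟨v, ⟨p, hp, hpv⟩, he⟩ := hS (C σ) (Or.inr ⟨σ, hσ, rfl⟩) φ
    refine ⟨p, hp, ?_⟩
    have hpv' : z * pw p.1 k * p.2 = v := hpv
    have he' : φ z = φ v := he
    rw [← hpv', map_mul] at he'
    have h1 : φ (z * pw p.1 k) * φ p.1 = φ (z * pw p.1 k) * φ p.2 := by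
      rw [← he', map_mul, map_pw φ, mul_assoc]
      exact (hid _ _).1
    have hfix : ∀ a b : S, (a : WithOne S) ^ (k + 1 + 1) * b = b := by
      intro a b
      rw [pow_succ, ← coe_pw, ← WithOne.coe_mul, ← WithOne.coe_mul, (hid a b).2]
    apply WithOne.coe_injective
    refine cancel_of_fix (hfix _ _) (hfix _ _) ?_ (a := (φ (z * pw p.1 k) : WithOne S))
    rw [← WithOne.coe_mul, ← WithOne.coe_mul, h1]

/-- for classes of groups: inclusive varieties are the same in both readings -/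
theorem inclusive_iff {N : Set Semigrp.{u}} (hg : ∀ S ∈ N, IsGrp S) :
    IsInclusiveVariety N ↔ MNV.IsInclusiveVariety N :=
  ⟨inclusive_of_lit, fun h => lit_of_inclusive h hg⟩

/-- for classes of groups: elementary inclusive varieties are the same in both readings -/
theorem elementary_iff {N : Set Semigrp.{u}} (hg : ∀ S ∈ N, IsGrp S) :
    IsElementary N ↔ MNV.IsElementary N :=
  ⟨elementary_of_lit, fun h => lit_elementary_of h hg⟩

/-- for classes of groups: minimal nonelementary inclusive varieties are the same in both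
readings -/
theorem minimal_iff {M : Set Semigrp.{u}} (hg : ∀ S ∈ M, IsGrp S) :
    IsMinimalNonelementary M ↔ MNV.IsMinimalNonelementary M := by
  constructor
  · rintro ⟨h1, h2, h3⟩
    refine ⟨inclusive_of_lit h1, fun h => h2 (lit_elementary_of h hg), fun N hN hNM => ?_⟩
    have hgN : ∀ S ∈ N, IsGrp S := fun S hS => hg S (hNM.1 hS)
    exact elementary_of_lit (h3 N (lit_of_inclusive hN hgN) hNM)
  · rintro ⟨h1, h2, h3⟩
    refine ⟨lit_of_inclusive h1 hg, fun h => h2 (elementary_of_lit h), fun N hN hNM => ?_⟩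
    have hgN : ∀ S ∈ N, IsGrp S := fun S hS => hg S (hNM.1 hS)
    exact lit_elementary_of (h3 N (inclusive_of_lit hN) hNM) hgN

theorem isGrp_of_equiv {S G : Type u} [Semigroup S] [Group G] (e : S ≃* G) : IsGrp S :=
  ⟨G, inferInstance, ⟨e⟩⟩

theorem isGrp_of_equiv0 {S : Type u} {G : Type} [Semigroup S] [Group G] (e : S ≃* G) : IsGrp S :=
  ⟨ULift.{u} G, inferInstance, ⟨e.trans MulEquiv.ulift.symm⟩⟩

theorem cycP_grp {p : ℕ} : ∀ S ∈ CycP.{u} p, IsGrp S := by
  rintro S ⟨n, ⟨e⟩⟩
  exact isGrp_of_equiv0 e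

theorem elemP_grp {p : ℕ} : ∀ S ∈ ElemP.{u} p, IsGrp S := by
  rintro S ⟨n, ⟨e⟩⟩
  exact isGrp_of_equiv0 e

theorem cycP_large {p : ℕ} (hp : p.Prime) (n : ℕ) :
    ∃ S ∈ CycP.{u} p, Finite S ∧ n ≤ Nat.card S ∧ IsGrp S := by
  have : NeZero (p ^ n) := ⟨pow_ne_zero _ hp.ne_zero⟩
  refine ⟨Semigrp.of (ULift.{u} (Multiplicative (ZMod (p ^ n)))), ⟨n, ⟨MulEquiv.ulift⟩⟩,
    Finite.of_equiv (Multiplicative (ZMod (p ^ n))) MulEquiv.ulift.symm.toEquiv, ?_,
    isGrp_of_equiv0 (MulEquiv.ulift)⟩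
  have h : Nat.card (ULift.{u} (Multiplicative (ZMod (p ^ n)))) = p ^ n := by
    rw [Nat.card_congr (MulEquiv.ulift (α := Multiplicative (ZMod (p ^ n)))).toEquiv,
      Nat.card_eq_fintype_card, Fintype.card_multiplicative, ZMod.card]
  exact (Nat.lt_pow_self hp.one_lt).le.trans h.ge

theorem elemP_large {p : ℕ} (hp : p.Prime) (n : ℕ) :
    ∃ S ∈ ElemP.{u} p, Finite S ∧ n ≤ Nat.card S ∧ IsGrp S := by
  have : NeZero p := ⟨hp.ne_zero⟩
  refine ⟨Semigrp.of (ULift.{u} (Multiplicative (Fin n → ZMod p))), ⟨n, ⟨MulEquiv.ulift⟩⟩,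
    Finite.of_equiv (Multiplicative (Fin n → ZMod p)) MulEquiv.ulift.symm.toEquiv, ?_,
    isGrp_of_equiv0 (MulEquiv.ulift)⟩
  have h : Nat.card (ULift.{u} (Multiplicative (Fin n → ZMod p))) = p ^ n := by
    rw [Nat.card_congr (MulEquiv.ulift (α := Multiplicative (Fin n → ZMod p))).toEquiv,
      Nat.card_eq_fintype_card, Fintype.card_multiplicative, Fintype.card_fun, ZMod.card,
      Fintype.card_fin]
  exact (Nat.lt_pow_self hp.one_lt).le.trans h.ge

/-- literally as posed: the minimal nonelementary inclusive varieties with arbitrarily large finite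
groups are the classes of cyclic `p`-groups and of finite elementary abelian `p`-groups -/
theorem lit_large {M : Set Semigrp.{u}} :
    (IsMinimalNonelementary M ∧ ∀ n : ℕ, ∃ S ∈ M, Finite S ∧ n ≤ Nat.card S ∧ IsGrp S) ↔
      ∃ p : ℕ, p.Prime ∧ (M = CycP p ∨ M = ElemP p) := by
  constructor
  · rintro ⟨hM, hl⟩
    have hMi := inclusive_of_lit hM.1
    set F : Set Semigrp.{u} := {S | S ∈ M ∧ Finite S ∧ IsGrp S} with hF
    have hFg : ∀ S ∈ F, IsGrp S := fun S hS => hS.2.2
    have hFi : MNV.IsInclusiveVariety F := by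
      obtain ⟨S0, hS0, hf0, -, hg0⟩ := hl 0
      refine inclusive_of_closed ⟨S0, hS0, hf0, hg0⟩
        (fun S hS => ⟨nonempty_of_mem hMi hS.1, hS.2.1⟩) ?_
      rintro S ⟨hS, hfS, hgS⟩ T hT hd
      obtain ⟨h1, h2, -⟩ := GC.grp_of_divides hgS hd
      exact ⟨mem_of_divides hMi hS hT hd, h1, h2⟩
    have hFe : ¬ IsElementary F := by
      intro h
      obtain ⟨S, hS, hinf⟩ := exists_infinite (elementary_of_lit h) (fun n => by
        obtain ⟨S, hS, hf, hc, hg⟩ := hl n
        exact ⟨S, ⟨hS, hf, hg⟩, hf, hc⟩)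
      exact hinf.not_finite hS.2.1
    have hFM : F = M := by
      by_contra hne
      exact hFe (hM.2.2 F (lit_of_inclusive hFi hFg)
        (lt_of_le_of_ne (fun S hS => hS.1) hne))
    have hMg : ∀ S ∈ M, IsGrp S := fun S hS => hFg S (hFM ▸ hS)
    exact group_case ((minimal_iff hMg).1 hM) hl
  · rintro ⟨p, hp, rfl | rfl⟩
    · exact ⟨(minimal_iff cycP_grp).2 (cycP_minimal hp), cycP_large hp⟩
    · exact ⟨(minimal_iff elemP_grp).2 (elemP_minimal hp), elemP_large hp⟩

/-- nonempty divisors of torsion groups are groups -/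
theorem grp_of_torsion {T : Type u} [Group T] (hT : ∀ x : T, IsOfFinOrder x) {S : Type u}
    [Semigroup S] [Nonempty S] (h : Divides S T) : IsGrp S := by
  obtain ⟨U, f, hf⟩ := h
  obtain ⟨s⟩ := (inferInstance : Nonempty S)
  obtain ⟨x, -⟩ := hf s
  obtain ⟨H, hH⟩ := Monster.toSubgroup hT U ⟨x.1, x.2⟩
  have hmem : ∀ y : T, y ∈ H → y ∈ U := by
    intro y hy
    have : y ∈ (H : Set T) := hy
    rw [hH] at this
    exact this
  have hmem' : ∀ y : T, y ∈ U → y ∈ H := by
    intro y hy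
    have : y ∈ (U : Set T) := hy
    rw [← hH] at this
    exact this
  let g : H →ₙ* S :=
    { toFun := fun y => f ⟨y.1, hmem _ y.2⟩
      map_mul' := fun a b => by rw [← map_mul]; rfl }
  refine (GC.grp_of_surjective g fun t => ?_).1
  obtain ⟨y, rfl⟩ := hf t
  exact ⟨⟨y.1, hmem' _ y.2⟩, rfl⟩

/-- literally as posed: an infinite simple group with proper subgroups of bounded finite order
generates a minimal nonelementary inclusive variety -/
theorem lit_monster (T : Type u) [Group T] [Infinite T] (b : ℕ)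
    (hb : ∀ H : Subgroup T, H ≠ ⊤ → Finite H ∧ Nat.card H ≤ b)
    (hs : ∀ N : Subgroup T, N.Normal → N = ⊥ ∨ N = ⊤) :
    IsMinimalNonelementary (Sections T) := by
  refine (minimal_iff ?_).2 (monster_minimal T b hb hs)
  rintro S ⟨hS, hd⟩
  exact grp_of_torsion (Monster.torsion hb) hd

end Pool.Agent.MNV.Lit
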