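import Mathlib
import Pool.Agent.MNV.Lit

/-!
# The literal reading: uniform periodicity of the minimal classes with bounded finite groups
-/

set_option autoImplicit false

namespace Pool.Agent.MNV.Lit

universe u

theorem pw_mul_pw {S : Type u} [Semigroup S] (x : S) (k l : ℕ) :
    pw x k * pw x l = pw x (k + l + 1) := by
  apply WithOne.coe_injective
  rw [WithOne.coe_mul, coe_pw, coe_pw, coe_pw, ← pow_add]
  congr 1
  omega

theorem pw_shift {S : Type u} [Semigroup S] {x : S} {i j : ℕ} (h : pw x i = pw x j) (k : ℕ) :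
    pw x (i + k) = pw x (j + k) := by
  induction k with
  | zero => exact h
  | succ k ih => rw [← Nat.add_assoc, ← Nat.add_assoc, pw, pw, ih]

/-- a period, iterated -/
theorem pw_mul_period {S : Type u} [Semigroup S] {x : S} {a d : ℕ}
    (h : pw x a = pw x (a + d)) (l : ℕ) : pw x a = pw x (a + d * l) := by
  induction l with
  | zero => simp
  | succ l ih =>
    have h1 := pw_shift h (d * l)
    rw [ih, h1]
    congr 1
    ring

/-- the homomorphism from the free semigroup given by powers of one element -/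
theorem lift_pw {S : Type u} [Semigroup S] (x : S) (wt : FreeSemigroup ℕ → ℕ)
    (hwt : ∀ a b, wt (a * b) = wt a + wt b) (hpos : ∀ a, 0 < wt a) (w : FreeSemigroup ℕ) :
    (FreeSemigroup.lift (fun i => pw x (wt (FreeSemigroup.of i) - 1)) :
      FreeSemigroup ℕ →ₙ* S) w = pw x (wt w - 1) := by
  induction w using FreeSemigroup.recOnMul with
  | ih1 i => simp
  | ih2 i w h1 h2 =>
    rw [map_mul, h1, h2, pw_mul_pw, hwt]
    congr 1
    have := hpos (FreeSemigroup.of i)
    have := hpos w
    omega

/-- if a literal inclusive variety contains elements of unbounded index it contains `P` -/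
theorem P_mem_lit {M : Set Semigrp.{u}} (hM : IsInclusiveVariety M)
    (h : ∀ B : ℕ, ∃ S ∈ M, ∃ x : S, ∀ i ≤ B, ∀ j, pw x i = pw x j → i = j) :
    Semigrp.of P.{u} ∈ M := by
  obtain ⟨Γ, rfl⟩ := hM
  refine ⟨⟨ULift.up (Multiplicative.ofAdd 1)⟩, fun σ hσ φ => ?_⟩
  let wt : FreeSemigroup ℕ → ℕ := fun w => ((Multiplicative.toAdd (φ w).down : ℕ+) : ℕ)
  have hwt : ∀ a b, wt (a * b) = wt a + wt b := by
    intro a b
    show ((Multiplicative.toAdd (φ (a * b)).down : ℕ+) : ℕ) = _
    rw [map_mul]
    rfl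
  have hpos : ∀ a, 0 < wt a := fun a => PNat.pos _
  obtain ⟨S, hS, x, hx⟩ := h (wt σ.word)
  obtain ⟨v, hv, he⟩ := hS.2 σ hσ
    (FreeSemigroup.lift (fun i => pw x (wt (FreeSemigroup.of i) - 1)))
  refine ⟨v, hv, ?_⟩
  rw [lift_pw x wt hwt hpos, lift_pw x wt hwt hpos] at he
  have h2 := hx _ (by omega) _ he
  have h3 := hpos σ.word
  have h4 := hpos v
  have h5 : wt σ.word = wt v := by omega
  exact ULift.down_injective (Multiplicative.toAdd.injective (PNat.coe_injective h5))

/-- a cyclic group of order `c` from an element of period divisible by `c` -/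
theorem cyc_of_period {M : Set Semigrp.{u}} (hM : MNV.IsInclusiveVariety M) {S : Semigrp.{u}}
    (hS : S ∈ M) (x : S) {c : ℕ} (hc : 1 ≤ c)
    (h : ∀ i j, pw x i = pw x j → ((i : ℕ) : ZMod c) = j) : GC.Cyc M c := by
  have : NeZero c := ⟨by omega⟩
  let φ : FreeSemigroup ℕ →ₙ* Multiplicative (ZMod c) :=
    FreeSemigroup.lift (fun _ => Multiplicative.ofAdd 1)
  have hφ : ∀ w, φ w = Multiplicative.ofAdd ((w.length : ℕ) : ZMod c) := by
    intro w
    induction w using FreeSemigroup.recOnMul with
    | ih1 i => simp [φ]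
    | ih2 i w h1 h2 =>
      rw [map_mul, h1, h2, FreeSemigroup.length_mul, Nat.cast_add]
      rfl
  have hs : Function.Surjective φ := by
    intro t
    have hlen : ∀ n : ℕ, (pw (FreeSemigroup.of (0 : ℕ)) n).length = n + 1 := by
      intro n
      induction n with
      | zero => rfl
      | succ n ih => rw [pw, FreeSemigroup.length_mul, ih]; rfl
    refine ⟨pw (FreeSemigroup.of 0) ((Multiplicative.toAdd t).val + c - 1), ?_⟩
    rw [hφ, hlen, show (Multiplicative.toAdd t).val + c - 1 + 1 = (Multiplicative.toAdd t).val + c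
      from by omega, Nat.cast_add, ZMod.natCast_self, add_zero, ZMod.natCast_val, ZMod.cast_id]
    rfl
  let ψ : FreeSemigroup ℕ →ₙ* S :=
    FreeSemigroup.lift (fun i => pw x ((FreeSemigroup.of i).length - 1))
  have hψ : ∀ w, ψ w = pw x (w.length - 1) := fun w =>
    lift_pw x FreeSemigroup.length FreeSemigroup.length_mul (fun a => Nat.succ_pos _) w
  have hd : Divides (Multiplicative (ZMod c)) S := by
    refine divides_of_ker φ hs ψ fun a b hab => ?_
    rw [hψ, hψ] at hab
    have h1 := h _ _ hab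
    rw [hφ, hφ]
    have ha : 0 < a.length := Nat.succ_pos _
    have hb : 0 < b.length := Nat.succ_pos _
    have h4 : ∀ n : ℕ, 0 < n → ((n : ℕ) : ZMod c) = ((n - 1 : ℕ) : ZMod c) + 1 := by
      intro n hn
      obtain ⟨k, rfl⟩ : ∃ k, n = k + 1 := ⟨n - 1, by omega⟩
      rw [Nat.add_sub_cancel, Nat.cast_add, Nat.cast_one]
    rw [h4 _ ha, h4 _ hb, h1]
  have e2 : ULift.{u} (Multiplicative (ZMod c)) ≃* Multiplicative (ZMod c) := MulEquiv.ulift
  refine ⟨hc, Semigrp.of (ULift.{u} (Multiplicative (ZMod c))), ?_, ⟨e2⟩⟩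
  have hne : Nonempty (ULift.{u} (Multiplicative (ZMod c))) := inferInstance
  exact mem_of_divides hM hS hne ((divides_of_equiv e2).trans hd)

/-- with finite groups of order at most `b`, a repetition among the powers of `x` gives the
period `b!` from there on -/
theorem period_factorial {M : Set Semigrp.{u}} (hM : MNV.IsInclusiveVariety M) {b : ℕ}
    (hb : ∀ c, GC.Cyc M c → c ≤ b) {S : Semigrp.{u}} (hS : S ∈ M) (x : S) {i j : ℕ}
    (hij : i < j) (h : pw x i = pw x j) : pw x i = pw x (i + b.factorial) := by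
  classical
  have hex : ∃ d, 1 ≤ d ∧ ∃ a, pw x a = pw x (a + d) :=
    ⟨j - i, by omega, i, by rw [h]; congr 1; omega⟩
  set c := Nat.find hex with hcdef
  obtain ⟨hc1, a, ha⟩ := Nat.find_spec hex
  rw [← hcdef] at hc1 ha
  -- every difference is a multiple of `c`
  have hdvd : ∀ k l, pw x k = pw x (k + l) → c ∣ l := by
    intro k l hkl
    by_contra hcon
    have h1 : l % c ≠ 0 := fun h0 => hcon (Nat.dvd_of_mod_eq_zero h0)
    have h2 : l % c < c := Nat.mod_lt _ hc1
    refine Nat.find_min hex (m := l % c) h2 ⟨by omega, k + a, ?_⟩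
    -- `x ^ (k + a)`
    have h3 := pw_shift hkl a
    have h4 := pw_shift (pw_mul_period ha (l / c)) (k + l % c)
    have h5 : a + c * (l / c) + (k + l % c) = k + l + a := by
      have := Nat.mod_add_div l c
      omega
    have h6 : a + (k + l % c) = k + a + l % c := by omega
    rw [h5, h6] at h4
    rw [h4, ← h3]
  have hcyc : GC.Cyc M c := by
    refine cyc_of_period hM hS x hc1 fun k l hkl => ?_
    rcases le_total k l with hl | hl
    · obtain ⟨t, rfl⟩ := Nat.exists_eq_add_of_le hl
      have := hdvd k t hkl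
      rw [Nat.cast_add, (ZMod.natCast_eq_zero_iff t c).2 this, add_zero]
    · obtain ⟨t, rfl⟩ := Nat.exists_eq_add_of_le hl
      have := hdvd l t hkl.symm
      rw [Nat.cast_add, (ZMod.natCast_eq_zero_iff t c).2 this, add_zero]
  have hcb : c ∣ b.factorial := Nat.dvd_factorial hc1 (hb c hcyc)
  -- the index: `x ^ (i + 1)` is already periodic
  obtain ⟨l, rfl⟩ := Nat.exists_eq_add_of_lt hij
  have h1 : pw x i = pw x (i + (l + 1)) := h
  have h2 := pw_mul_period h1 (a + 1)
  obtain ⟨t, ht⟩ := hcb
  rw [ht]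
  have h3 := pw_mul_period ha t
  have h4 : a ≤ (l + 1) * (a + 1) := by nlinarith
  obtain ⟨r, hr⟩ := Nat.exists_eq_add_of_le h4
  have h5 := pw_shift h3 (i + r)
  have h6 := pw_shift h2 (c * t)
  have h7 : a + (i + r) = i + (l + 1) * (a + 1) := by omega
  have h8 : a + c * t + (i + r) = i + (l + 1) * (a + 1) + c * t := by omega
  rw [h7, h8] at h5
  rw [h2, h5, h6]

theorem card_cyc {M : Set Semigrp.{u}} {b : ℕ}
    (hb : ∀ S ∈ M, Finite S → IsGrp S → Nat.card S ≤ b) (c : ℕ) (hc : GC.Cyc M c) : c ≤ b := by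
  obtain ⟨h1, S, hS, ⟨e⟩⟩ := hc
  have : NeZero c := ⟨by omega⟩
  have hf : Finite S := Finite.of_equiv _ e.symm.toEquiv
  have := hb S hS hf (isGrp_of_equiv0 e)
  rwa [Nat.card_congr e.toEquiv, Nat.card_eq_fintype_card, Fintype.card_multiplicative,
    ZMod.card] at this

/-- a literal inclusive variety with finite groups of bounded order is uniformly periodic -/
theorem uniform_periodic {M : Set Semigrp.{u}} (hM : IsInclusiveVariety M) {b : ℕ}
    (hb : ∀ S ∈ M, Finite S → IsGrp S → Nat.card S ≤ b) :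
    ∃ s m : ℕ, 1 ≤ m ∧ ∀ S ∈ M, ∀ x : S, pw x s = pw x (s + m) := by
  have hMi := inclusive_of_lit hM
  by_contra hcon
  push Not at hcon
  have hP : Semigrp.of P.{u} ∈ M := by
    refine P_mem_lit hM fun B => ?_
    obtain ⟨S, hS, x, hx⟩ := hcon B b.factorial (Nat.factorial_pos b)
    refine ⟨S, hS, x, fun i hi j hij => ?_⟩
    by_contra hne
    have key : ∀ k l, k ≤ B → k < l → pw x k = pw x l → False := by
      intro k l hk hkl h
      have h1 := pw_shift (period_factorial hMi (card_cyc hb) hS x hkl h) (B - k)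
      rw [show k + (B - k) = B from by omega,
        show k + b.factorial + (B - k) = B + b.factorial from by omega] at h1
      exact hx h1
    rcases lt_or_gt_of_ne hne with h | h
    · exact key i j hi h hij
    · exact key j i (by omega) h hij.symm
  have hc : GC.Cyc M (b + 1) := by
    refine cyc_of_period hMi hP (ULift.up (Multiplicative.ofAdd 1) : P.{u}) (by omega)
      fun i j hij => ?_
    have hv : ∀ k : ℕ, ((Multiplicative.toAdd
        (pw (ULift.up (Multiplicative.ofAdd 1) : P.{u}) k).down : ℕ+) : ℕ) = k + 1 := by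
      intro k
      induction k with
      | zero => rfl
      | succ k ih =>
        show ((Multiplicative.toAdd (pw (ULift.up (Multiplicative.ofAdd 1) : P.{u}) k).down :
          ℕ+) : ℕ) + 1 = _
        rw [ih]
    have h1 := hv i
    have h2 := hv j
    have hij' : pw (ULift.up (Multiplicative.ofAdd 1) : P.{u}) i =
      pw (ULift.up (Multiplicative.ofAdd 1) : P.{u}) j := hij
    rw [hij', h2] at h1
    have : i = j := by omega
    rw [this]
  have := card_cyc hb _ hc
  omega

/-- literally as posed: a minimal nonelementary inclusive variety is one of the classes of cyclic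
`p`-groups or of finite elementary abelian `p`-groups, or its finite groups have bounded order and
its members are uniformly periodic -/
theorem lit_rest {M : Set Semigrp.{u}} (hM : Lit.IsMinimalNonelementary M) :
    (∃ p, p.Prime ∧ (M = CycP p ∨ M = ElemP p)) ∨
      ((∃ b, ∀ S ∈ M, Finite S → IsGrp S → Nat.card S ≤ b) ∧
        ∃ s m : ℕ, 1 ≤ m ∧ ∀ S ∈ M, ∀ x : S, pw x s = pw x (s + m)) := by
  by_cases hl : ∀ n : ℕ, ∃ S ∈ M, Finite S ∧ n ≤ Nat.card S ∧ IsGrp S
  · exact Or.inl (lit_large.1 ⟨hM, hl⟩)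
  · right
    push Not at hl
    obtain ⟨n, hn⟩ := hl
    have hb : ∀ S ∈ M, Finite S → IsGrp S → Nat.card S ≤ n := by
      intro S hS hf hg
      by_contra hcon
      exact hn S hS hf (by omega) hg
    exact ⟨⟨n, hb⟩, uniform_periodic hM.1 hb⟩

end Pool.Agent.MNV.Lit
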