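import Mathlib
import Pool.Agent.MNV.Defs

/-!
# An infinite finitely generated group with bounded finite quotients has an infinite finitely
generated subgroup with an infinite simple quotient
-/

set_option autoImplicit false

namespace Pool.Agent.MNV

universe u

namespace SimpleQ

/-- a finitely generated nontrivial group has a maximal proper normal subgroup -/
theorem exists_maximal (H : Type u) [Group H] [Nontrivial H] (hfg : Group.FG H) :
    ∃ L : Subgroup H, L.Normal ∧ L ≠ ⊤ ∧ ∀ K : Subgroup H, K.Normal → L ≤ K → K = L ∨ K = ⊤ := by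
  obtain ⟨F, hF, hFfin⟩ := Group.fg_iff.1 hfg
  obtain ⟨L, hL⟩ := zorn_le₀ {L : Subgroup H | L.Normal ∧ L ≠ ⊤} (by
    intro c hc hchain
    rcases c.eq_empty_or_nonempty with rfl | hne
    · refine ⟨⊥, ⟨inferInstance, bot_ne_top⟩, fun z hz => absurd hz (Set.notMem_empty z)⟩
    · refine ⟨sSup c, ⟨?_, ?_⟩, fun z hz => le_sSup hz⟩
      · refine ⟨fun x hx g => ?_⟩
        rw [Subgroup.mem_sSup_of_directedOn hne hchain.directedOn] at hx ⊢
        obtain ⟨K, hK, hxK⟩ := hx
        exact ⟨K, hK, (hc hK).1.conj_mem x hxK g⟩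
      · intro htop
        -- one member of the chain contains the generators
        have key : ∀ T : Set H, T.Finite → ∃ K ∈ c, T ⊆ K := by
          intro T hT
          induction T, hT using Set.Finite.induction_on with
          | empty =>
            obtain ⟨K, hK⟩ := hne
            exact ⟨K, hK, Set.empty_subset _⟩
          | @insert a s _ _ ih =>
            obtain ⟨K, hK, hs⟩ := ih
            have ha : a ∈ sSup c := by rw [htop]; trivial
            rw [Subgroup.mem_sSup_of_directedOn hne hchain.directedOn] at ha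
            obtain ⟨K', hK', haK'⟩ := ha
            obtain ⟨K'', hK'', h1, h2⟩ := hchain.directedOn K hK K' hK'
            refine ⟨K'', hK'', ?_⟩
            intro x hx
            rcases Set.mem_insert_iff.1 hx with rfl | hx
            · exact h2 haK'
            · exact h1 (hs hx)
        obtain ⟨K, hK, hFK⟩ := key F hFfin
        apply (hc hK).2
        rw [eq_top_iff, ← hF]
        exact (Subgroup.closure_le K).2 hFK)
  refine ⟨L, hL.prop.1, hL.prop.2, fun K hK hLK => ?_⟩
  by_cases h : K = ⊤
  · exact Or.inr h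
  · exact Or.inl (le_antisymm (hL.le_of_ge ⟨hK, h⟩ hLK) hLK)

/-- the quotient by a maximal proper normal subgroup is simple -/
theorem simple_of_maximal {H : Type u} [Group H] (L : Subgroup H) [L.Normal] (hL : L ≠ ⊤)
    (hmax : ∀ K : Subgroup H, K.Normal → L ≤ K → K = L ∨ K = ⊤) : IsSimpleGroup (H ⧸ L) := by
  have hnt : Nontrivial (H ⧸ L) := by
    by_contra h
    rw [not_nontrivial_iff_subsingleton] at h
    apply hL
    rw [eq_top_iff]
    intro x _
    have h1 : (x : H ⧸ L) = (1 : H) := Subsingleton.elim _ _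
    rw [QuotientGroup.eq] at h1
    have h2 := L.inv_mem h1
    simpa using h2
  refine { exists_pair_ne := hnt.exists_pair_ne, eq_bot_or_eq_top_of_normal := fun N hN => ?_ }
  have h1 : (N.comap (QuotientGroup.mk' L)).Normal := hN.comap _
  have h2 : L ≤ N.comap (QuotientGroup.mk' L) := by
    intro x hx
    rw [Subgroup.mem_comap]
    have h3 : QuotientGroup.mk' L x = 1 := by
      rw [QuotientGroup.mk'_apply]
      exact (QuotientGroup.eq_one_iff x).2 hx
    rw [h3]
    exact N.one_mem
  have hmap : (N.comap (QuotientGroup.mk' L)).map (QuotientGroup.mk' L) = N :=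
    Subgroup.map_comap_eq_self_of_surjective (QuotientGroup.mk'_surjective L) N
  rcases hmax _ h1 h2 with h | h
  · left
    rw [← hmap, h]
    rw [eq_bot_iff]
    rintro y ⟨x, hx, rfl⟩
    rw [Subgroup.mem_bot, QuotientGroup.mk'_apply]
    exact (QuotientGroup.eq_one_iff x).2 hx
  · right
    rw [← hmap, h, ← MonoidHom.range_eq_map, MonoidHom.range_eq_top]
    exact QuotientGroup.mk'_surjective L

end SimpleQ

/-- an infinite finitely generated group whose finite quotients are bounded has a finitely
generated subgroup with an infinite simple quotient -/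
theorem exists_simple (G : Type u) [Group G] [Infinite G] (hfg : Group.FG G) (b : ℕ)
    (hb : ∀ N : Subgroup G, N.Normal → N.index ≠ 0 → N.index ≤ b) :
    ∃ (H : Subgroup G) (N : Subgroup H) (_ : N.Normal), Group.FG H ∧ Infinite (H ⧸ N) ∧
      IsSimpleGroup (H ⧸ N) := by
  classical
  -- a normal subgroup of finite index with maximal index
  let P : ℕ → Prop := fun k => ∃ N : Subgroup G, N.Normal ∧ N.index = k ∧ k ≠ 0
  have hP1 : P 1 := ⟨⊤, inferInstance, Subgroup.index_top, one_ne_zero⟩
  have hPb : ∀ k, P k → k ≤ b := by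
    rintro k ⟨N, hN, rfl, hk⟩
    exact hb N hN hk
  have hP := Nat.findGreatest_spec (hPb 1 hP1) hP1
  obtain ⟨N0, hN0, hidx, hne⟩ := hP
  have hne' : N0.index ≠ 0 := by rw [hidx]; exact hne
  have hmin : ∀ K : Subgroup G, K.Normal → K.index ≠ 0 → N0 ≤ K := by
    intro K hK hKi
    have h1 : (N0 ⊓ K).index ≠ 0 := Subgroup.index_inf_ne_zero hne' hKi
    have h2 : (N0 ⊓ K).Normal := inferInstance
    have h3 : P (N0 ⊓ K).index := ⟨_, h2, rfl, h1⟩
    have h4 : (N0 ⊓ K).index ≤ N0.index := by
      rw [hidx]
      exact Nat.le_findGreatest (hPb _ h3) h3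
    have h5 : N0.index ∣ (N0 ⊓ K).index := Subgroup.index_dvd_of_le inf_le_left
    have h6 : (N0 ⊓ K).index = N0.index :=
      le_antisymm h4 (Nat.le_of_dvd (Nat.pos_of_ne_zero h1) h5)
    have h7 : (N0 ⊓ K).relIndex N0 * N0.index = (N0 ⊓ K).index :=
      Subgroup.relIndex_mul_index inf_le_left
    rw [h6] at h7
    have h8 : (N0 ⊓ K).relIndex N0 = 1 := by
      have := Nat.pos_of_ne_zero hne'
      nlinarith
    rw [Subgroup.relIndex_eq_one] at h8
    exact h8.trans inf_le_right
  have : N0.FiniteIndex := ⟨hne'⟩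
  have hfgG : Group.FG G := hfg
  have hHfg : Group.FG N0 := inferInstance
  have hHinf : Infinite N0 := by
    by_contra h
    rw [not_infinite_iff_finite] at h
    have h1 : Nat.card N0 * N0.index = Nat.card G := N0.card_mul_index
    have h2 : Nat.card G = 0 := Nat.card_eq_zero_of_infinite
    rw [h2] at h1
    rcases Nat.mul_eq_zero.1 h1 with h3 | h3
    · exact absurd h3 Nat.card_pos.ne'
    · exact hne' h3
  obtain ⟨L, hLn, hLt, hLmax⟩ := SimpleQ.exists_maximal N0 hHfg
  refine ⟨N0, L, hLn, hHfg, ?_, SimpleQ.simple_of_maximal L hLt hLmax⟩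
  by_contra h
  rw [not_infinite_iff_finite] at h
  apply hLt
  -- the image of `L` in `G` has finite index
  have hLi : L.index ≠ 0 := by
    have := Subgroup.finiteIndex_of_finite_quotient (H := L)
    exact this.index_ne_zero
  have h1 : (L.map N0.subtype).index ≠ 0 := by
    have h2 := Subgroup.index_map_subtype L
    rw [h2]
    exact Nat.mul_ne_zero hLi hne'
  have h3 : (L.map N0.subtype).normalCore.index ≠ 0 := by
    have : (L.map N0.subtype).FiniteIndex := ⟨h1⟩
    have h4 : (L.map N0.subtype).normalCore.FiniteIndex := inferInstance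
    exact h4.index_ne_zero
  have h5 := hmin _ (Subgroup.normalCore_normal _) h3
  rw [eq_top_iff]
  intro x _
  have h6 : (x : G) ∈ L.map N0.subtype := Subgroup.normalCore_le _ (h5 x.2)
  obtain ⟨y, hy, hyx⟩ := h6
  have h7 : y = x := Subtype.ext hyx
  rw [← h7]
  exact hy

end Pool.Agent.MNV
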