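import Mathlib
import Pool.Agent.MNV.Defs
import Pool.Agent.MNV.Base
import Pool.Agent.MNV.Lit

/-!
# The reading with inclusions `0 ∈̂ V`; classes of groups
-/

set_option autoImplicit false

namespace Pool.Agent.MNV.Zer

universe u

/-- An identical inclusion whose left-hand side is a word `u ∈ X⁺` (`some u`) or the symbol `0`
(`none`), and whose right-hand side is a nonempty set of words, where `X = ℕ`. -/
structure ZInclusion where
  /-- the left-hand side -/
  lhs : Option (FreeSemigroup ℕ)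
  /-- the set `V` of words on the right -/
  words : Set (FreeSemigroup ℕ)
  nonempty : words.Nonempty

/-- `a` is a zero element of `S`. -/
def IsZeroElt {S : Type u} [Semigroup S] (a : S) : Prop := ∀ s : S, a * s = a ∧ s * a = a

/-- `S` satisfies `u ∈̂ V` (resp. `0 ∈̂ V`): for every homomorphism `φ : X⁺ → S` there is `v ∈ V`
with `φ u = φ v` (resp. with `φ v` a zero of `S`). -/
def Satisfies (S : Type u) [Semigroup S] (σ : ZInclusion) : Prop :=
  ∀ φ : FreeSemigroup ℕ →ₙ* S, ∃ v ∈ σ.words,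
    (∀ w, σ.lhs = some w → φ w = φ v) ∧ (σ.lhs = none → IsZeroElt (φ v))

/-- The class of all (nonempty) semigroups satisfying every member of `Γ`. -/
def Models (Γ : Set ZInclusion) : Set Semigrp.{u} :=
  {S | Nonempty S ∧ ∀ σ ∈ Γ, Satisfies S σ}

/-- Classes defined by sets of such inclusions. -/
def IsInclusiveVariety (M : Set Semigrp.{u}) : Prop :=
  ∃ Γ : Set ZInclusion, M = Models Γ

/-- Elementary: defined by some set of inclusions with finite right-hand sides. -/
def IsElementary (M : Set Semigrp.{u}) : Prop :=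
  ∃ Γ : Set ZInclusion, (∀ σ ∈ Γ, σ.words.Finite) ∧ M = Models Γ

/-- `M` is a minimal nonelementary class of this kind. -/
def IsMinimalNonelementary (M : Set Semigrp.{u}) : Prop :=
  IsInclusiveVariety M ∧ ¬ IsElementary M ∧
    ∀ N : Set Semigrp.{u}, IsInclusiveVariety N → N ⊂ M → IsElementary N

/-! ### comparison with the literal reading -/

/-- a literal identical inclusion as a `ZInclusion` -/
def ofLit (σ : Lit.IdInclusion) : ZInclusion := ⟨some σ.word, σ.words, σ.nonempty⟩

theorem satisfies_ofLit {S : Type u} [Semigroup S] (σ : Lit.IdInclusion) :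
    Satisfies S (ofLit σ) ↔ Lit.Satisfies S σ := by
  constructor
  · intro h φ
    obtain ⟨v, hv, h1, -⟩ := h φ
    exact ⟨v, hv, h1 _ rfl⟩
  · intro h φ
    obtain ⟨v, hv, h1⟩ := h φ
    refine ⟨v, hv, ?_, ?_⟩
    · intro w hw
      have : σ.word = w := Option.some.inj hw
      rw [← this, h1]
    · intro h2
      exact absurd h2 (by simp [ofLit])

theorem models_ofLit (Γ : Set Lit.IdInclusion) : Models.{u} (ofLit '' Γ) = Lit.Models Γ := by
  ext S
  constructor
  · rintro ⟨h1, h2⟩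
    exact ⟨h1, fun σ hσ => (satisfies_ofLit σ).1 (h2 _ ⟨σ, hσ, rfl⟩)⟩
  · rintro ⟨h1, h2⟩
    refine ⟨h1, ?_⟩
    rintro _ ⟨σ, hσ, rfl⟩
    exact (satisfies_ofLit σ).2 (h2 σ hσ)

theorem inclusive_of_lit {M : Set Semigrp.{u}} (h : Lit.IsInclusiveVariety M) :
    IsInclusiveVariety M := by
  obtain ⟨Γ, rfl⟩ := h
  exact ⟨_, (models_ofLit Γ).symm⟩

theorem elementary_of_lit {M : Set Semigrp.{u}} (h : Lit.IsElementary M) : IsElementary M := by
  obtain ⟨Γ, hΓ, rfl⟩ := h
  refine ⟨_, ?_, (models_ofLit Γ).symm⟩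
  rintro _ ⟨σ, hσ, rfl⟩
  exact hΓ σ hσ

/-- without inclusions `0 ∈̂ V` one is in the literal reading -/
theorem lit_of_some (Γ : Set ZInclusion) (h : ∀ σ ∈ Γ, σ.lhs ≠ none) :
    ∃ Δ : Set Lit.IdInclusion, ((∀ σ ∈ Γ, σ.words.Finite) → ∀ σ ∈ Δ, σ.words.Finite) ∧
      Models.{u} Γ = Lit.Models Δ := by
  have h1 : Γ = ofLit '' {σ | ofLit σ ∈ Γ} := by
    ext σ
    constructor
    · intro hσ
      obtain ⟨w, hw⟩ := Option.ne_none_iff_exists'.1 (h σ hσ)
      refine ⟨⟨w, σ.words, σ.nonempty⟩, ?_, ?_⟩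
      · show ofLit _ ∈ Γ
        have : ofLit ⟨w, σ.words, σ.nonempty⟩ = σ := by
          cases σ
          simp only [ofLit] at hw ⊢
          subst hw
          rfl
        rw [this]
        exact hσ
      · cases σ
        simp only [ofLit] at hw ⊢
        subst hw
        rfl
    · rintro ⟨τ, hτ, rfl⟩
      exact hτ
  refine ⟨{σ | ofLit σ ∈ Γ}, fun hf σ hσ => hf _ hσ, ?_⟩
  rw [← models_ofLit, ← h1]

/-- a group which satisfies an inclusion `0 ∈̂ V` is trivial -/
theorem trivial_of_none {S : Type u} [Semigroup S] (hS : IsGrp S) {σ : ZInclusion}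
    (h0 : σ.lhs = none) (h : Satisfies S σ) (a b : S) : a = b := by
  obtain ⟨G, _, ⟨e⟩⟩ := hS
  obtain ⟨v, -, -, hv⟩ := h (FreeSemigroup.lift (fun _ => a))
  have hz := hv h0
  have key : ∀ c : S, c = e.symm 1 := by
    intro c
    apply e.injective
    have h2 := congrArg e (hz c).1
    rw [map_mul] at h2
    rw [MulEquiv.apply_symm_apply]
    exact mul_eq_left.1 h2
  rw [key a, key b]

/-- the class of trivial semigroups is elementary in the wide sense -/
theorem elementary_trivial {N : Set Semigrp.{u}} (h1 : ∀ S ∈ N, Nonempty S ∧ ∀ a b : S, a = b)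
    (h2 : ∀ S : Semigrp.{u}, Nonempty S → (∀ a b : S, a = b) → S ∈ N) : MNV.IsElementary N := by
  let σ : DisjId := ⟨{(FreeSemigroup.of 0, FreeSemigroup.of 1)}, Set.singleton_nonempty _⟩
  refine ⟨{σ}, ?_, Set.Subset.antisymm ?_ ?_⟩
  · intro τ hτ
    rw [Set.mem_singleton_iff] at hτ
    subst hτ
    exact Set.finite_singleton _
  · intro S hS
    refine ⟨(h1 S hS).1, ?_⟩
    intro τ hτ φ
    rw [Set.mem_singleton_iff] at hτ
    subst hτ
    exact ⟨_, rfl, (h1 S hS).2 _ _⟩
  · rintro S ⟨hS, h⟩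
    refine h2 S hS fun a b => ?_
    obtain ⟨p, hp, he⟩ := h σ rfl (FreeSemigroup.lift (fun n => if n = 0 then a else b))
    have hp' : p = (FreeSemigroup.of 0, FreeSemigroup.of 1) := hp
    rw [hp'] at he
    simpa using he

theorem models_trivial (Γ : Set ZInclusion) {S : Semigrp.{u}} (hS : Nonempty S)
    (h : ∀ a b : S, a = b) : S ∈ Models.{u} Γ := by
  refine ⟨hS, fun σ _ φ => ?_⟩
  obtain ⟨v, hv⟩ := σ.nonempty
  exact ⟨v, hv, fun _ _ => h _ _, fun _ _ => ⟨h _ _, h _ _⟩⟩

/-- classes of groups: inclusive varieties of this kind are inclusive varieties -/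
theorem wide_of_inclusive {N : Set Semigrp.{u}} (hN : IsInclusiveVariety N)
    (hg : ∀ S ∈ N, IsGrp S) : MNV.IsInclusiveVariety N := by
  obtain ⟨Γ, rfl⟩ := hN
  by_cases h : ∀ σ ∈ Γ, σ.lhs ≠ none
  · obtain ⟨Δ, -, hΔ⟩ := lit_of_some.{u} Γ h
    rw [hΔ]
    exact Lit.inclusive_of_lit ⟨Δ, rfl⟩
  · push Not at h
    obtain ⟨σ, hσ, h0⟩ := h
    obtain ⟨Δ, -, hΔ⟩ := elementary_trivial (N := Models.{u} Γ)
      (fun S hS => ⟨hS.1, fun a b => trivial_of_none (hg S hS) h0 (hS.2 σ hσ) a b⟩)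
      (fun S hS h => models_trivial Γ hS h)
    exact ⟨Δ, hΔ⟩

theorem wide_of_elementary {N : Set Semigrp.{u}} (hN : IsElementary N)
    (hg : ∀ S ∈ N, IsGrp S) : MNV.IsElementary N := by
  obtain ⟨Γ, hf, rfl⟩ := hN
  by_cases h : ∀ σ ∈ Γ, σ.lhs ≠ none
  · obtain ⟨Δ, hΔf, hΔ⟩ := lit_of_some.{u} Γ h
    rw [hΔ]
    exact Lit.elementary_of_lit ⟨Δ, hΔf hf, rfl⟩
  · push Not at h
    obtain ⟨σ, hσ, h0⟩ := h
    exact elementary_trivial
      (fun S hS => ⟨hS.1, fun a b => trivial_of_none (hg S hS) h0 (hS.2 σ hσ) a b⟩)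
      (fun S hS h => models_trivial Γ hS h)

/-- for classes of groups: inclusive varieties are the same in all three readings -/
theorem inclusive_iff {N : Set Semigrp.{u}} (hg : ∀ S ∈ N, IsGrp S) :
    IsInclusiveVariety N ↔ MNV.IsInclusiveVariety N :=
  ⟨fun h => wide_of_inclusive h hg, fun h => inclusive_of_lit (Lit.lit_of_inclusive h hg)⟩

/-- for classes of groups: elementary inclusive varieties are the same in all three readings -/
theorem elementary_iff {N : Set Semigrp.{u}} (hg : ∀ S ∈ N, IsGrp S) :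
    IsElementary N ↔ MNV.IsElementary N :=
  ⟨fun h => wide_of_elementary h hg, fun h => elementary_of_lit (Lit.lit_elementary_of h hg)⟩

/-- for classes of groups: minimal nonelementary inclusive varieties are the same in all three
readings -/
theorem minimal_iff {M : Set Semigrp.{u}} (hg : ∀ S ∈ M, IsGrp S) :
    IsMinimalNonelementary M ↔ MNV.IsMinimalNonelementary M := by
  constructor
  · rintro ⟨h1, h2, h3⟩
    refine ⟨(inclusive_iff hg).1 h1, fun h => h2 ((elementary_iff hg).2 h), fun N hN hNM => ?_⟩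
    have hgN : ∀ S ∈ N, IsGrp S := fun S hS => hg S (hNM.1 hS)
    exact (elementary_iff hgN).1 (h3 N ((inclusive_iff hgN).2 hN) hNM)
  · rintro ⟨h1, h2, h3⟩
    refine ⟨(inclusive_iff hg).2 h1, fun h => h2 ((elementary_iff hg).1 h), fun N hN hNM => ?_⟩
    have hgN : ∀ S ∈ N, IsGrp S := fun S hS => hg S (hNM.1 hS)
    exact (elementary_iff hgN).2 (h3 N ((inclusive_iff hgN).1 hN) hNM)

/-- a class of this kind with a nontrivial group is an inclusive variety in the literal reading -/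
theorem lit_of_group {M : Set Semigrp.{u}} (hM : IsInclusiveVariety M) {S : Semigrp.{u}}
    (hS : S ∈ M) (hg : IsGrp S) (hne : ∃ a b : S, a ≠ b) : Lit.IsInclusiveVariety M := by
  obtain ⟨Γ, rfl⟩ := hM
  have h : ∀ σ ∈ Γ, σ.lhs ≠ none := by
    intro σ hσ h0
    obtain ⟨a, b, hab⟩ := hne
    exact hab (trivial_of_none hg h0 (hS.2 σ hσ) a b)
  obtain ⟨Δ, -, hΔ⟩ := lit_of_some.{u} Γ h
  exact ⟨Δ, hΔ⟩

/-- if inclusions `0 ∈̂ V` are allowed: the minimal nonelementary inclusive varieties with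
arbitrarily large finite groups are the classes of cyclic `p`-groups and of finite elementary
abelian `p`-groups -/
theorem zer_large {M : Set Semigrp.{u}} :
    (IsMinimalNonelementary M ∧ ∀ n : ℕ, ∃ S ∈ M, Finite S ∧ n ≤ Nat.card S ∧ IsGrp S) ↔
      ∃ p : ℕ, p.Prime ∧ (M = CycP p ∨ M = ElemP p) := by
  constructor
  · rintro ⟨hM, hl⟩
    have hMi : MNV.IsInclusiveVariety M := by
      obtain ⟨S, hS, hf, hc, hg⟩ := hl 2
      have hne : ∃ a b : S, a ≠ b := by
        by_contra hcon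
        push Not at hcon
        have : Subsingleton S := ⟨hcon⟩
        have := Finite.card_le_one_iff_subsingleton.2 this
        omega
      exact Lit.inclusive_of_lit (lit_of_group hM.1 hS hg hne)
    set F : Set Semigrp.{u} := {S | S ∈ M ∧ Finite S ∧ IsGrp S} with hF
    have hFg : ∀ S ∈ F, IsGrp S := fun S hS => hS.2.2
    have hFi : MNV.IsInclusiveVariety F := by
      obtain ⟨S0, hS0, hf0, -, hg0⟩ := hl 0
      refine inclusive_of_closed ⟨S0, hS0, hf0, hg0⟩
        (fun S hS => ⟨nonempty_of_mem hMi hS.1, hS.2.1⟩) ?_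
      rintro S ⟨hS, hfS, hgS⟩ T hT hd
      obtain ⟨h1, h2, -⟩ := GC.grp_of_divides hgS hd
      exact ⟨mem_of_divides hMi hS hT hd, h1, h2⟩
    have hFe : ¬ IsElementary F := by
      intro h
      obtain ⟨S, hS, hinf⟩ := exists_infinite (wide_of_elementary h hFg) (fun n => by
        obtain ⟨S, hS, hf, hc, hg⟩ := hl n
        exact ⟨S, ⟨hS, hf, hg⟩, hf, hc⟩)
      exact hinf.not_finite hS.2.1
    have hFM : F = M := by
      by_contra hne
      exact hFe (hM.2.2 F ((inclusive_iff hFg).2 hFi)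
        (lt_of_le_of_ne (fun S hS => hS.1) hne))
    have hMg : ∀ S ∈ M, IsGrp S := fun S hS => hFg S (hFM ▸ hS)
    exact group_case ((minimal_iff hMg).1 hM) hl
  · rintro ⟨p, hp, rfl | rfl⟩
    · exact ⟨(minimal_iff Lit.cycP_grp).2 (cycP_minimal hp), Lit.cycP_large hp⟩
    · exact ⟨(minimal_iff Lit.elemP_grp).2 (elemP_minimal hp), Lit.elemP_large hp⟩

/-- an infinite simple group with proper subgroups of bounded finite order generates a minimal
nonelementary class also in this reading -/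
theorem zer_monster (T : Type u) [Group T] [Infinite T] (b : ℕ)
    (hb : ∀ H : Subgroup T, H ≠ ⊤ → Finite H ∧ Nat.card H ≤ b)
    (hs : ∀ N : Subgroup T, N.Normal → N = ⊥ ∨ N = ⊤) :
    IsMinimalNonelementary (Sections T) := by
  refine (minimal_iff ?_).2 (monster_minimal T b hb hs)
  rintro S ⟨hS, hd⟩
  exact Lit.grp_of_torsion (Monster.torsion hb) hd

end Pool.Agent.MNV.Zer
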